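import Pool.Agent.P.MP_94de62_al.Overlap

/-!
Balls of words and their exponential growth rate.
-/

namespace Pool.Agent.P.MP_94de62_al

open Filter Topology Pointwise

variable {G : Type*} [Group G]

/-- Products of at most `n` elements of `S`. -/
def ball (S : Set G) (n : ℕ) : Set G :=
  {g | ∃ l : List G, l.length ≤ n ∧ (∀ a ∈ l, a ∈ S) ∧ l.prod = g}

theorem one_mem_ball (S : Set G) (n : ℕ) : (1 : G) ∈ ball S n := ⟨[], by simp, by simp, rfl⟩

theorem mem_ball_one {S : Set G} {s : G} (hs : s ∈ S) : s ∈ ball S 1 :=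
  ⟨[s], by simp, by simpa using hs, by simp⟩

theorem ball_mono (S : Set G) {m n : ℕ} (h : m ≤ n) : ball S m ⊆ ball S n := by
  rintro g ⟨l, h1, h2, h3⟩
  exact ⟨l, h1.trans h, h2, h3⟩

theorem ball_mono_set {S T : Set G} (h : S ⊆ T) (n : ℕ) : ball S n ⊆ ball T n := by
  rintro g ⟨l, h1, h2, h3⟩
  exact ⟨l, h1, fun a ha => h (h2 a ha), h3⟩

theorem mul_mem_ball {S : Set G} {m n : ℕ} {a b : G} (ha : a ∈ ball S m) (hb : b ∈ ball S n) :
    a * b ∈ ball S (m + n) := by
  obtain ⟨l, h1, h2, rfl⟩ := ha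
  obtain ⟨l', h1', h2', rfl⟩ := hb
  refine ⟨l ++ l', by simp; omega, fun a ha => ?_, by simp⟩
  rcases List.mem_append.1 ha with h | h
  exacts [h2 a h, h2' a h]

theorem pow_mem_ball {S : Set G} {m : ℕ} {a : G} (ha : a ∈ ball S m) (k : ℕ) :
    a ^ k ∈ ball S (k * m) := by
  induction k with
  | zero => simpa using one_mem_ball S 0
  | succ k ih => rw [pow_succ, add_mul, one_mul]; exact mul_mem_ball ih ha

theorem ball_add (S : Set G) (m n : ℕ) : ball S (m + n) ⊆ ball S m * ball S n := by
  rintro g ⟨l, h1, h2, rfl⟩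
  refine ⟨(l.take m).prod, ⟨l.take m, by simp, fun a ha => h2 a (List.mem_of_mem_take ha), rfl⟩,
    (l.drop m).prod, ⟨l.drop m, by simp; omega, fun a ha => h2 a (List.mem_of_mem_drop ha), rfl⟩,
    List.prod_take_mul_prod_drop l m⟩

theorem ball_zero (S : Set G) : ball S 0 = {1} := by
  ext g
  constructor
  · rintro ⟨l, h1, -, rfl⟩
    rw [List.length_eq_zero_iff.1 (Nat.le_zero.1 h1)]; rfl
  · rintro rfl; exact one_mem_ball S 0

theorem ball_one (S : Set G) : ball S 1 ⊆ insert 1 S := by
  rintro g ⟨l, h1, h2, rfl⟩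
  match l, h1, h2 with
  | [], _, _ => simp
  | [a], _, h2 => simpa using Or.inr (h2 a (by simp))

theorem ball_finite {S : Set G} (hS : S.Finite) (n : ℕ) : (ball S n).Finite := by
  induction n with
  | zero => rw [ball_zero]; exact Set.finite_singleton _
  | succ n ih => exact (ih.mul ((hS.insert 1).subset (ball_one S))).subset (ball_add S n 1)

theorem image_ball {G' : Type*} [Group G'] (φ : G →* G') (S : Set G) (n : ℕ) :
    φ '' ball S n = ball (φ '' S) n := by
  ext g
  constructor
  · rintro ⟨_, ⟨l, h1, h2, rfl⟩, rfl⟩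
    refine ⟨l.map φ, by simpa using h1, fun a ha => ?_, by rw [map_list_prod]⟩
    obtain ⟨b, hb, rfl⟩ := List.mem_map.1 ha
    exact ⟨b, h2 b hb, rfl⟩
  · rintro ⟨l, h1, h2, rfl⟩
    induction l generalizing n with
    | nil => exact ⟨1, one_mem_ball S n, by simp⟩
    | cons a l ih =>
      obtain ⟨b, hb, rfl⟩ := h2 a List.mem_cons_self
      obtain ⟨c, hc, hc'⟩ := ih l.length le_rfl fun x hx => h2 x (List.mem_cons_of_mem _ hx)
      refine ⟨b * c, ball_mono S ?_ (mul_mem_ball (mem_ball_one hb) hc), by simp [hc']⟩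
      simp at h1; omega

theorem ball_subset_closure (S : Set G) (n : ℕ) : ball S n ⊆ Subgroup.closure S := by
  rintro g ⟨l, -, h2, rfl⟩
  exact list_prod_mem fun a ha => Subgroup.subset_closure (h2 a ha)

theorem HypLen.L_le_of_mem_ball (H : HypLen G) {S : Set G} {r : ℝ} (hr : 0 ≤ r)
    (hS : ∀ s ∈ S, H.L s ≤ r) {n : ℕ} {g : G} (hg : g ∈ ball S n) : H.L g ≤ n * r := by
  obtain ⟨l, h1, h2, rfl⟩ := hg
  have : H.L l.prod ≤ l.length * r := by
    clear h1
    induction l with
    | nil => simp
    | cons a l ih =>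
      have := ih fun x hx => h2 x (List.mem_cons_of_mem _ hx)
      have := H.L_mul a l.prod
      have := hS a (h2 a List.mem_cons_self)
      simp only [List.prod_cons, List.length_cons]; push_cast; linarith
  exact this.trans (by gcongr)

/-- The size of the ball. -/
noncomputable def bn (S : Set G) (n : ℕ) : ℕ := (ball S n).ncard

theorem bn_pos {S : Set G} (hS : S.Finite) (n : ℕ) : 0 < bn S n :=
  (Set.ncard_pos (ball_finite hS n)).2 ⟨1, one_mem_ball S n⟩

theorem one_le_bn {S : Set G} (hS : S.Finite) (n : ℕ) : (1 : ℝ) ≤ bn S n := by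
  exact_mod_cast bn_pos hS n

theorem bn_add {S : Set G} (hS : S.Finite) (m n : ℕ) : bn S (m + n) ≤ bn S m * bn S n :=
  (Set.ncard_le_ncard (ball_add S m n) ((ball_finite hS m).mul (ball_finite hS n))).trans
    Set.natCard_mul_le

theorem bn_mono {S : Set G} (hS : S.Finite) {m n : ℕ} (h : m ≤ n) : bn S m ≤ bn S n :=
  Set.ncard_le_ncard (ball_mono S h) (ball_finite hS n)

theorem bn_image_le {G' : Type*} [Group G'] (φ : G →* G') {S : Set G} (hS : S.Finite) (n : ℕ) :
    bn (φ '' S) n ≤ bn S n := by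
  unfold bn; rw [← image_ball]; exact Set.ncard_image_le (ball_finite hS n)

theorem bn_image_eq {G' : Type*} [Group G'] (φ : G →* G') {S : Set G} {n : ℕ}
    (h : Set.InjOn φ (ball S n)) : bn (φ '' S) n = bn S n := by
  unfold bn; rw [← image_ball]; exact h.ncard_image

/-- The logarithmic growth rate. -/
noncomputable def ent (S : Set G) : ℝ :=
  sInf ((fun n : ℕ => Real.log (bn S n) / n) '' Set.Ici 1)

theorem subadditive_bn {S : Set G} (hS : S.Finite) :
    Subadditive fun n => Real.log (bn S n) := fun m n => by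
  rw [← Real.log_mul (by linarith [one_le_bn hS m]) (by linarith [one_le_bn hS n])]
  exact Real.log_le_log (by linarith [one_le_bn hS (m + n)]) (by exact_mod_cast bn_add hS m n)

theorem bdd_bn {S : Set G} (hS : S.Finite) :
    BddBelow (Set.range fun n : ℕ => Real.log (bn S n) / n) :=
  ⟨0, by
    rintro _ ⟨n, rfl⟩
    exact div_nonneg (Real.log_nonneg (one_le_bn hS n)) (Nat.cast_nonneg _)⟩

theorem tendsto_ent {S : Set G} (hS : S.Finite) :
    Tendsto (fun n : ℕ => Real.log (bn S n) / n) atTop (𝓝 (ent S)) := by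
  have := (subadditive_bn hS).tendsto_lim (bdd_bn hS)
  rwa [Subadditive.lim] at this

theorem mul_ent_le {S : Set G} (hS : S.Finite) (n : ℕ) : n * ent S ≤ Real.log (bn S n) := by
  rcases Nat.eq_zero_or_pos n with rfl | hn
  · simpa using Real.log_nonneg (one_le_bn hS 0)
  have := (subadditive_bn hS).lim_le_div (bdd_bn hS) hn.ne'
  rw [Subadditive.lim, le_div_iff₀ (by exact_mod_cast hn)] at this
  rw [mul_comm]; exact this

theorem ent_nonneg {S : Set G} (hS : S.Finite) : 0 ≤ ent S :=
  ge_of_tendsto' (tendsto_ent hS) fun n =>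
    div_nonneg (Real.log_nonneg (one_le_bn hS n)) (Nat.cast_nonneg _)

theorem ent_le_ent {G' : Type*} [Group G'] {S : Set G} {T : Set G'} (hS : S.Finite)
    (hT : T.Finite) (h : ∀ n, bn S n ≤ bn T n) : ent S ≤ ent T :=
  le_of_tendsto_of_tendsto' (tendsto_ent hS) (tendsto_ent hT) fun n =>
    div_le_div_of_nonneg_right
      (Real.log_le_log (by linarith [one_le_bn hS n]) (by exact_mod_cast h n)) (Nat.cast_nonneg _)

theorem ent_congr {G' : Type*} [Group G'] {S : Set G} {T : Set G'} (h : ∀ n, bn S n = bn T n) :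
    ent S = ent T := by
  unfold ent; simp only [h]

/-- A linear lower bound along an arithmetic progression bounds the growth rate. -/
theorem le_mul_ent {S : Set G} (hS : S.Finite) {m : ℕ} (hm : 0 < m) {a c : ℝ}
    (h : ∀ᶠ k : ℕ in atTop, k * a - c ≤ Real.log (bn S (k * m))) : a ≤ m * ent S := by
  have hm' : (0 : ℝ) < m := by exact_mod_cast hm
  have t1 : Tendsto (fun k : ℕ => k * m) atTop atTop := tendsto_id.atTop_mul_const' hm
  have t2 := ((tendsto_ent hS).comp t1).const_mul (m : ℝ)
  have t3 : Tendsto (fun k : ℕ => a - c / k) atTop (𝓝 (a - 0)) :=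
    tendsto_const_nhds.sub (tendsto_const_div_atTop_nhds_zero_nat c)
  rw [sub_zero] at t3
  refine le_of_tendsto_of_tendsto t3 t2 ?_
  filter_upwards [h, eventually_gt_atTop 0] with k hk hk0
  have hk' : (0 : ℝ) < k := by exact_mod_cast hk0
  simp only [Function.comp]
  push_cast
  have : (m : ℝ) * (Real.log (bn S (k * m)) / (k * m)) = Real.log (bn S (k * m)) / k := by
    field_simp
  rw [this, le_div_iff₀ hk', sub_mul, div_mul_cancel₀ _ hk'.ne']
  linarith

theorem hasGrowthRate_of {B : ℕ → Set G} {S : Set G} (hS : S.Finite) {C : ℝ} (hC : 1 ≤ C)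
    (h : ∀ᶠ n in atTop, ((B n).ncard : ℝ) ≤ C * bn S n ∧ (bn S n : ℝ) ≤ C * (B n).ncard) :
    HasGrowthRate B (Real.exp (ent S)) := by
  have t0 := tendsto_const_div_atTop_nhds_zero_nat (Real.log C)
  have t1 := (tendsto_ent hS).add t0
  have t2 := (tendsto_ent hS).sub t0
  rw [add_zero] at t1
  rw [sub_zero] at t2
  have hpos : ∀ᶠ n in atTop, (0 : ℝ) < (B n).ncard := h.mono fun n hn => by
    have := one_le_bn hS n
    by_contra hc
    have : C * (B n).ncard ≤ 0 := mul_nonpos_of_nonneg_of_nonpos (by linarith) (not_lt.1 hc)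
    linarith [hn.2]
  have t3 : Tendsto (fun n : ℕ => Real.log (B n).ncard / n) atTop (𝓝 (ent S)) := by
    refine tendsto_of_tendsto_of_tendsto_of_le_of_le' t2 t1 ?_ ?_
    · filter_upwards [h, hpos] with n hn hp
      rw [← sub_div]
      refine div_le_div_of_nonneg_right ?_ (Nat.cast_nonneg _)
      have := Real.log_le_log (by linarith [one_le_bn hS n]) hn.2
      rw [Real.log_mul (by linarith) hp.ne'] at this
      linarith
    · filter_upwards [h, hpos] with n hn hp
      rw [← add_div]
      refine div_le_div_of_nonneg_right ?_ (Nat.cast_nonneg _)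
      have := Real.log_le_log hp hn.1
      rw [Real.log_mul (by linarith) (by linarith [one_le_bn hS n])] at this
      linarith
  refine ((Real.continuous_exp.tendsto _).comp t3).congr' ?_
  filter_upwards [hpos] with n hp
  simp only [Function.comp]
  rw [Real.rpow_def_of_pos hp]
  congr 1; ring

theorem groupBall_eq (S : Set G) (n : ℕ) : groupBall S n = ball (S ∪ S⁻¹) n := rfl

theorem hasGrowthRate_groupBall {S : Set G} (hS : S.Finite) {r : ℝ} :
    HasGrowthRate (groupBall S) r ↔ r = Real.exp (ent (S ∪ S⁻¹)) := by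
  have := hasGrowthRate_of (B := groupBall S) (hS.union hS.inv) le_rfl
    (Eventually.of_forall fun n => by rw [one_mul, one_mul]; exact ⟨le_rfl, le_rfl⟩)
  exact ⟨fun h => tendsto_nhds_unique h this, fun h => h ▸ this⟩

theorem hasGrowthRate_semigroupBall {S : Set G} (hS : S.Finite) (hne : S.Nonempty) {r : ℝ} :
    HasGrowthRate (semigroupBall S) r ↔ r = Real.exp (ent S) := by
  have := hasGrowthRate_of (B := semigroupBall S) hS one_le_two (by
    filter_upwards [eventually_ge_atTop 1] with n hn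
    have h1 : semigroupBall S n ⊆ ball S n := by
      rintro g ⟨l, -, h1, h2, h3⟩
      exact ⟨l, h1, h2, h3⟩
    have h2 : ball S n ⊆ insert 1 (semigroupBall S n) := by
      rintro g ⟨l, h1, h2, h3⟩
      by_cases hl : l = []
      · left; rw [← h3, hl]; rfl
      · right; exact ⟨l, hl, h1, h2, h3⟩
    have hf := (ball_finite hS n).subset h1
    have h3 := Set.ncard_le_ncard h1 (ball_finite hS n)
    have h4 := (Set.ncard_le_ncard h2 (hf.insert 1)).trans (Set.ncard_insert_le _ _)
    obtain ⟨s, hs⟩ := hne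
    have h5 : 0 < (semigroupBall S n).ncard :=
      (Set.ncard_pos hf).2 ⟨s, [s], by simp, by simpa using hn, by simpa using hs, by simp⟩
    constructor
    · have : (semigroupBall S n).ncard ≤ 2 * bn S n := by unfold bn; omega
      exact_mod_cast this
    · have : bn S n ≤ 2 * (semigroupBall S n).ncard := by unfold bn; omega
      exact_mod_cast this)
  exact ⟨fun h => tendsto_nhds_unique h this, fun h => h ▸ this⟩

end Pool.Agent.P.MP_94de62_al
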