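import Pool.Agent.P.MP_94de62_al.Top

/-!
Generic tuples: reduced words in generic elements do not vanish.
-/

namespace Pool.Agent.P.MP_94de62_al

open Filter

/-- An element or its inverse. -/
def sg {G : Type*} [Group G] (a : G) (b : Bool) : G := cond b a a⁻¹

/-- Words without a pinch over the subgroup `F`. -/
def Reduced {Γ ι : Type*} [Group Γ] (F : Subgroup Γ) (l : List ((ι × Bool) × Γ)) : Prop :=
  l.IsChain fun x x' => ¬ (x'.1.1 = x.1.1 ∧ x'.1.2 = !x.1.2 ∧ x.2 ∈ F)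

/-- The value of a word with letters `y` and constants mapped by `φ`. -/
def wordVal {Γ ι G : Type*} [Group Γ] [Group G] (φ : Γ →* G) (y : ι → G)
    (l : List ((ι × Bool) × Γ)) : G :=
  (l.map fun x => sg (y x.1.1) x.1.2 * φ x.2).prod

theorem wordVal_cons {Γ ι G : Type*} [Group Γ] [Group G] (φ : Γ →* G) (y : ι → G)
    (x : (ι × Bool) × Γ) (l : List ((ι × Bool) × Γ)) :
    wordVal φ y (x :: l) = sg (y x.1.1) x.1.2 * φ x.2 * wordVal φ y l := by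
  simp [wordVal]

theorem VirtuallyCyclic.of_finite (G : Type*) [Group G] [Finite G] : VirtuallyCyclic G :=
  ⟨⊥, inferInstance, inferInstance⟩

namespace HypLen

variable {Γ : Type*} [Group Γ] {H : HypLen Γ}

theorem exists_straight_elt (H : HypLen Γ) [Infinite Γ] : ∃ g, H.Straight g := by
  classical
  obtain ⟨S, hS⟩ := Infinite.exists_subset_card_eq Γ (H.N + 1)
  have hSne : S.Nonempty := Finset.card_pos.1 (by omega)
  set f : Γ → ℕ := fun y => S.sup fun s => H.len (y⁻¹ * s * y) with hf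
  obtain ⟨y₀, hy₀⟩ : ∃ y₀, ∀ y, f y₀ ≤ f y :=
    ⟨Function.argmin f, fun y => Function.argmin_le f y⟩
  have hle : ∀ s ∈ S, H.L (y₀⁻¹ * s * y₀) ≤ f y₀ := fun s hs => by
    unfold L
    exact_mod_cast Finset.le_sup (f := fun s => H.len (y₀⁻¹ * s * y₀)) hs
  have hΛ : 100 * H.δ ≤ (f y₀ : ℝ) := by
    by_contra hc
    have := H.card_le_N S (fun s => y₀⁻¹ * s * y₀) (fun a _ b _ h => by simpa using h)
      fun s hs => by linarith [hle s hs, H.δ_pos]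
    omega
  obtain ⟨s, -, t, -, hg, -⟩ := exists_straight (S := (fun s => y₀⁻¹ * s * y₀) '' S) hΛ
    (by rintro _ ⟨s, hs, rfl⟩; exact hle s hs) fun y => by
    obtain ⟨s, hs, h⟩ := Finset.exists_mem_eq_sup S hSne fun s => H.len ((y₀ * y)⁻¹ * s * (y₀ * y))
    refine ⟨_, ⟨s, hs, rfl⟩, ?_⟩
    have := hy₀ (y₀ * y)
    rw [show f (y₀ * y) = _ from h] at this
    rw [show y⁻¹ * (y₀⁻¹ * s * y₀) * y = (y₀ * y)⁻¹ * s * (y₀ * y) by group]
    unfold L; exact_mod_cast this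
  exact ⟨_, hg⟩

theorem exists_K {g : Γ} (hg : H.Straight g) (r : ℝ) : ∃ K : ℕ, r ≤ K * H.L g :=
  ⟨⌈r / H.L g⌉₊, by rw [← div_le_iff₀ hg.L_pos]; exact Nat.le_ceil _⟩

theorem finite_commute {g v : Γ} (hg : H.Straight g) (hv : v ∉ elem (g ^ H.N.factorial)) :
    {ζ | Commute ζ (g ^ H.N.factorial) ∧ Commute (v⁻¹ * ζ * v) (g ^ H.N.factorial)}.Finite := by
  by_contra hinf
  obtain ⟨T, hT, hcard⟩ := Set.Infinite.exists_subset_card_eq hinf (H.N + 1)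
  obtain ⟨K, hK⟩ := exists_K hg (H.L v)
  have hG := hg.pow (Nat.factorial_pos H.N)
  have := card_le_of_commute hG (P := fun k => v * (g ^ H.N.factorial) ^ k)
    (A := max (12 * H.δ) ((2 * K + 1 + H.N) * H.L g)) (le_max_left _ _)
    (fun k => by
      rw [← pow_mul]
      exact (overlap_lt hg (Or.inl rfl) (Or.inl rfl) hv hK _ _).le.trans (le_max_right _ _))
    (fun k => by
      rw [← pow_mul, ← inv_pow]
      exact (overlap_lt hg (Or.inr rfl) (Or.inl rfl) hv hK _ _).le.trans (le_max_right _ _))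
    T fun ζ hζ => ⟨(hT hζ).1, by
      filter_upwards [hG.exists_L_ge (max (12 * H.δ) ((2 * K + 1 + H.N) * H.L g) + 9 * H.δ +
        H.L v + H.L (v⁻¹ * ζ * v))] with k hk
      have h1 := H.p_ge_sub (v * (g ^ H.N.factorial) ^ k) (ζ * (v * (g ^ H.N.factorial) ^ k))
      have h2 : (v * (g ^ H.N.factorial) ^ k)⁻¹ * (ζ * (v * (g ^ H.N.factorial) ^ k)) =
          v⁻¹ * ζ * v := by
        have := ((hT hζ).2.pow_right k).eq
        calc _ = ((g ^ H.N.factorial) ^ k)⁻¹ * (v⁻¹ * ζ * v * (g ^ H.N.factorial) ^ k) := by group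
          _ = _ := by rw [this]; group
      have h3 := H.L_le_mul_left v⁻¹ (v * (g ^ H.N.factorial) ^ k)
      have h4 := H.L_mul v⁻¹ (v * (g ^ H.N.factorial) ^ k)
      rw [inv_mul_cancel_left, L_inv] at h4
      rw [h2] at h1
      linarith⟩
  omega

theorem not_commute {g v : Γ} (hg : H.Straight g) (hv : v ∉ elem (g ^ H.N.factorial)) {m : ℕ}
    (hm : 0 < m) : ¬ Commute (v⁻¹ * (g ^ H.N.factorial) ^ m * v) (g ^ H.N.factorial) := by
  intro hc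
  obtain ⟨r, hr⟩ := ((finite_commute hg hv).image H.L).bddAbove
  obtain ⟨k, hk⟩ := (((hg.pow (Nat.factorial_pos H.N)).pow hm).exists_L_ge (r + 1)).exists
  have := hr ⟨((g ^ H.N.factorial) ^ m) ^ k, ⟨((Commute.refl _).pow_left m).pow_left k, by
    have := hc.pow_left k
    rwa [show (v⁻¹ * (g ^ H.N.factorial) ^ m * v) ^ k = v⁻¹ * ((g ^ H.N.factorial) ^ m) ^ k * v by
      simpa using conj_pow (i := k) (a := v⁻¹) (b := (g ^ H.N.factorial) ^ m)] at this⟩, rfl⟩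
  linarith

theorem word_ne_one {g : Γ} (hg : H.Straight g) {F : Subgroup Γ} {k : ℕ} {R : ℝ} (u : Fin k → Γ)
    (hF : ∀ a, ∀ w ∈ F, Commute ((u a)⁻¹ * w * u a) (g ^ H.N.factorial))
    (hu : ∀ a b w, H.L w ≤ R → (u a)⁻¹ * w * u b ∈ elem (g ^ H.N.factorial) → a = b ∧ w ∈ F) :
    ∃ M : ℕ, ∀ (w₀ : Γ) (l : List ((Fin k × Bool) × Γ)), l ≠ [] → Reduced F l → H.L w₀ ≤ R →
      (∀ x ∈ l, H.L x.2 ≤ R) →
      w₀ * wordVal (MonoidHom.id Γ) (fun a => u a * (g ^ H.N.factorial) ^ M * (u a)⁻¹) l ≠ 1 := by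
  have hδ := H.δ_pos
  obtain ⟨U, hU⟩ := (Set.finite_range fun a => H.L (u a)).bddAbove
  have hU' : ∀ a, H.L (u a) ≤ U := fun a => hU ⟨a, rfl⟩
  obtain ⟨K, hK⟩ := exists_K hg (R + 2 * U)
  set κ : ℝ := K * H.L g with hκ
  have hκ0 : 0 ≤ κ := mul_nonneg (Nat.cast_nonneg _) hg.L_pos.le
  set Θ : ℝ := (2 * K + 1 + H.N) * H.L g + 12 * H.δ + κ with hΘ
  have hΘ0 : 0 ≤ (2 * K + 1 + H.N) * H.L g := mul_nonneg (by positivity) hg.L_pos.le
  set G := g ^ H.N.factorial with hGdef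
  have hG : H.Straight G := hg.pow (Nat.factorial_pos H.N)
  obtain ⟨M, hM⟩ := (hG.exists_L_ge (2 * Θ + 2 * κ + 3 * H.δ)).exists
  refine ⟨M, ?_⟩
  have hz : ∀ a b w, H.L w ≤ R → H.L ((u a)⁻¹ * w * u b) ≤ κ := fun a b w hw => by
    have h1 := H.L_mul ((u a)⁻¹ * w) (u b)
    have h2 := H.L_mul (u a)⁻¹ w
    rw [L_inv] at h2
    linarith [hU' a, hU' b]
  have hLs : ∀ ε, H.L (sg (G ^ M) ε) = H.L (G ^ M) := fun ε => by cases ε <;> simp [sg]
  have hy : ∀ a ε, sg (u a * G ^ M * (u a)⁻¹) ε = u a * sg (G ^ M) ε * (u a)⁻¹ := fun a ε => by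
    cases ε
    · simp only [sg, cond_false]; group
    · rfl
  have pair : ∀ a b w ε ε', H.L w ≤ R → ¬ (b = a ∧ ε' = !ε ∧ w ∈ F) →
      H.p (sg (G ^ M) ε)⁻¹ ((u a)⁻¹ * w * u b * sg (G ^ M) ε') ≤ Θ := by
    intro a b w ε ε' hw hno
    by_cases hE : (u a)⁻¹ * w * u b ∈ elem G
    · obtain ⟨rfl, hwF⟩ := hu a b w hw hE
      obtain rfl : ε' = ε := by
        by_contra hc
        exact hno ⟨rfl, by revert hc; cases ε <;> cases ε' <;> simp, hwF⟩
      have hc : Commute ((u a)⁻¹ * w * u a) (sg (G ^ M) ε') := by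
        cases ε'
        · exact ((hF a w hwF).pow_right M).inv_right
        · exact (hF a w hwF).pow_right M
      rw [hc.eq]
      have h1 := H.p_mul_right_le (sg (G ^ M) ε')⁻¹ (sg (G ^ M) ε') ((u a)⁻¹ * w * u a)
      have h2 : H.p (sg (G ^ M) ε')⁻¹ (sg (G ^ M) ε') ≤ 12 * H.δ := by
        cases ε'
        · simp only [sg, cond_false, inv_inv]; rw [p_comm]; exact hG.pw M M
        · exact hG.pw M M
      linarith [hz a a w hw]
    · have h1 : ∀ ε, ∃ g', (g' = g ∨ g' = g⁻¹) ∧ sg (G ^ M) ε = g' ^ (H.N.factorial * M) := by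
        intro ε
        cases ε
        · exact ⟨g⁻¹, Or.inr rfl, by simp [sg, hGdef, pow_mul]⟩
        · exact ⟨g, Or.inl rfl, by simp [sg, hGdef, pow_mul]⟩
      obtain ⟨g₁, h2, h3⟩ := h1 (!ε)
      obtain ⟨g₂, h4, h5⟩ := h1 ε'
      have := overlap_lt hg h2 h4 hE (hz a b w hw) (H.N.factorial * M) (H.N.factorial * M)
      rw [← h3, ← h5, show sg (G ^ M) (!ε) = (sg (G ^ M) ε)⁻¹ by cases ε <;> simp [sg]] at this
      linarith
  have main : ∀ (l : List ((Fin k × Bool) × Γ)) (x : (Fin k × Bool) × Γ), Reduced F (x :: l) →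
      (∀ x' ∈ x :: l, H.L x'.2 ≤ R) → H.p (sg (G ^ M) x.1.2)⁻¹ ((u x.1.1)⁻¹ * x.2 *
        wordVal (MonoidHom.id Γ) (fun a => u a * G ^ M * (u a)⁻¹) l) ≤ Θ + H.δ := by
    intro l
    induction l with
    | nil =>
      intro x _ hx
      have h1 := H.p_le_right (sg (G ^ M) x.1.2)⁻¹ ((u x.1.1)⁻¹ * x.2)
      have h2 := H.L_mul (u x.1.1)⁻¹ x.2
      have h3 := hx x List.mem_cons_self
      have h4 := H.L_nonneg (u x.1.1)
      rw [L_inv] at h2
      simp only [wordVal, List.map_nil, List.prod_nil, mul_one]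
      linarith [hU' x.1.1]
    | cons x' l ih =>
      intro x hr hx
      have hr' := List.isChain_cons_cons.1 hr
      have h1 := ih x' hr'.2 fun z hz => hx z (List.mem_cons_of_mem _ hz)
      have hw := hx x List.mem_cons_self
      have h2 := pair x.1.1 x'.1.1 x.2 x.1.2 x'.1.2 hw hr'.1
      set q := (u x'.1.1)⁻¹ * x'.2 * wordVal (MonoidHom.id Γ) (fun a => u a * G ^ M * (u a)⁻¹) l
        with hq
      set z := (u x.1.1)⁻¹ * x.2 * u x'.1.1 with hzdef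
      have h3 : H.L z ≤ κ := hz _ _ _ hw
      have e : (u x.1.1)⁻¹ * x.2 * wordVal (MonoidHom.id Γ) (fun a => u a * G ^ M * (u a)⁻¹)
          (x' :: l) = z * sg (G ^ M) x'.1.2 * q := by
        rw [wordVal_cons, hy, hq, hzdef, MonoidHom.id_apply]; group
      have h4 := H.p_mul_self (z * sg (G ^ M) x'.1.2) q
      have h5 := H.p_mul_right_le q (sg (G ^ M) x'.1.2)⁻¹ z⁻¹
      rw [← mul_inv_rev, L_inv, H.p_comm q, H.p_comm q] at h5
      have h6 := H.L_le_mul_left z⁻¹ (z * sg (G ^ M) x'.1.2)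
      have h7 := H.L_mul z⁻¹ (z * sg (G ^ M) x'.1.2)
      rw [inv_mul_cancel_left, L_inv, hLs] at h7
      rw [e]
      exact H.fourB h2 (by linarith)
  intro w₀ l hl hr hw₀ hx h1
  obtain ⟨x, l, rfl⟩ := List.exists_cons_of_ne_nil hl
  have h2 := main l x hr hx
  set q := (u x.1.1)⁻¹ * x.2 * wordVal (MonoidHom.id Γ) (fun a => u a * G ^ M * (u a)⁻¹) l
    with hq
  have e : sg (G ^ M) x.1.2 * q = (w₀ * u x.1.1)⁻¹ := by
    rw [wordVal_cons, hy, MonoidHom.id_apply] at h1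
    rw [eq_inv_iff_mul_eq_one, ← mul_left_inj (w₀ * u x.1.1)⁻¹, ← mul_right_inj (w₀ * u x.1.1),
      mul_inv_cancel_right, one_mul, mul_inv_cancel, ← h1, hq]
    group
  have h3 := H.p_mul_self (sg (G ^ M) x.1.2) q
  have h4 := H.p_le_right (sg (G ^ M) x.1.2) (sg (G ^ M) x.1.2 * q)
  have h5 := H.L_mul w₀ (u x.1.1)
  have h6 := H.L_nonneg (u x.1.1)
  rw [h3, e, L_inv, hLs] at h4
  linarith [hU' x.1.1]

theorem exists_core {K : Type*} [Field K] {d : Type*} [Fintype d] [DecidableEq d]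
    (ρ : Γ →* Matrix d d K) (hρ : Function.Injective ρ) (H : HypLen Γ)
    (hne : ¬ VirtuallyCyclic Γ) :
    ∃ F : Subgroup Γ, (F : Set Γ).Finite ∧ ∀ (k : ℕ) (R : ℝ), ∃ y : Fin k → Γ,
      (∀ a, ∀ f ∈ F, Commute f (y a)) ∧
      ∀ (w₀ : Γ) (l : List ((Fin k × Bool) × Γ)), l ≠ [] → Reduced F l → H.L w₀ ≤ R →
        (∀ x ∈ l, H.L x.2 ≤ R) → w₀ * wordVal (MonoidHom.id Γ) y l ≠ 1 := by
  have : Infinite Γ := by
    by_contra hc
    rw [not_infinite_iff_finite] at hc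
    exact hne (VirtuallyCyclic.of_finite Γ)
  obtain ⟨g, hg⟩ := H.exists_straight_elt
  set G := g ^ H.N.factorial with hGdef
  have hG : H.Straight G := hg.pow (Nat.factorial_pos H.N)
  obtain ⟨C, 𝓕, hbot, hC, hstab, hE, hgen⟩ := exists_generic ρ hρ hG hne
  have hcomm : ∀ z : Γ, z⁻¹ * G * z = G ↔ Commute z G := fun z => by
    rw [mul_assoc, inv_mul_eq_iff_eq_mul]
    exact ⟨fun h => h.symm, fun h => h.eq.symm⟩
  obtain ⟨u₁, hu₁⟩ := 𝓕.nonempty_of_mem hC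
  obtain ⟨u₂, hu₂, hv⟩ := ((show ∀ᶠ u in 𝓕, u ∈ C from hC).and (hE u₁⁻¹)).exists
  let F : Subgroup Γ :=
    { carrier := {w | ∀ u ∈ C, Commute (u⁻¹ * w * u) G}
      one_mem' := fun u _ => by simp
      mul_mem' := fun {a b} ha hb u hu => by
        rw [show u⁻¹ * (a * b) * u = (u⁻¹ * a * u) * (u⁻¹ * b * u) by group]
        exact (ha u hu).mul_left (hb u hu)
      inv_mem' := fun {a} ha u hu => by
        rw [show u⁻¹ * a⁻¹ * u = (u⁻¹ * a * u)⁻¹ by group]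
        exact (ha u hu).inv_left }
  have hFfin : (F : Set Γ).Finite := by
    refine ((finite_commute hg hv).preimage (f := fun w => u₁⁻¹ * w * u₁)
      fun a _ b _ h => by simpa using h).subset fun w hw => ⟨hw u₁ hu₁, ?_⟩
    rw [show (u₁⁻¹ * u₂)⁻¹ * (u₁⁻¹ * w * u₁) * (u₁⁻¹ * u₂) = u₂⁻¹ * w * u₂ by group]
    exact hw u₂ hu₂
  have hneg : ∀ w, ∃ u ∈ C, (u⁻¹ * w * u)⁻¹ * G * (u⁻¹ * w * u) ≠ G⁻¹ := by
    intro w
    by_contra hcon
    push Not at hcon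
    have hinv : ∀ u ∈ C, w⁻¹ * (u * G * u⁻¹) * w = (u * G * u⁻¹)⁻¹ := fun u hu => by
      calc w⁻¹ * (u * G * u⁻¹) * w = u * ((u⁻¹ * w * u)⁻¹ * G * (u⁻¹ * w * u)) * u⁻¹ := by group
        _ = _ := by rw [hcon u hu]; group
    obtain ⟨m, hm, hstab'⟩ := hstab (u₁ * G * u₁⁻¹)
    set a := u₁ * G * u₁⁻¹ with ha
    set b := u₂ * G * u₂⁻¹ with hb
    have h1 : w⁻¹ * a ^ m * w = (a ^ m)⁻¹ := by
      have := conj_pow (i := m) (a := w⁻¹) (b := a)
      rw [inv_inv] at this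
      rw [← this, hinv u₁ hu₁, inv_pow]
    have h2 := hinv u₂ hu₂
    have h3 := hinv _ (hstab' u₂ hu₂)
    rw [← hb] at h2
    have h4 : (a ^ m)⁻¹ * b⁻¹ * a ^ m = a ^ m * b⁻¹ * (a ^ m)⁻¹ := by
      calc (a ^ m)⁻¹ * b⁻¹ * a ^ m
          = (w⁻¹ * a ^ m * w) * (w⁻¹ * b * w) * (w⁻¹ * a ^ m * w)⁻¹ := by rw [h1, h2, inv_inv]
        _ = w⁻¹ * (a ^ m * u₂ * G * (a ^ m * u₂)⁻¹) * w := by rw [hb]; group
        _ = _ := by rw [h3, hb]; group
    have h5 : a ^ m = u₁ * G ^ m * u₁⁻¹ := by rw [ha, conj_pow]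
    refine not_commute hg hv (m := m + m) (by omega) (Commute.inv_right_iff.1 ?_)
    change _ * _ = _ * _
    calc (u₁⁻¹ * u₂)⁻¹ * G ^ (m + m) * (u₁⁻¹ * u₂) * G⁻¹
        = u₂⁻¹ * (a ^ m * (a ^ m * b⁻¹ * (a ^ m)⁻¹) * a ^ m) * u₂ := by rw [h5, hb]; group
      _ = u₂⁻¹ * (a ^ m * ((a ^ m)⁻¹ * b⁻¹ * a ^ m) * a ^ m) * u₂ := by rw [h4]
      _ = G⁻¹ * ((u₁⁻¹ * u₂)⁻¹ * G ^ (m + m) * (u₁⁻¹ * u₂)) := by rw [h5, hb]; group
  refine ⟨F, hFfin, fun k R => ?_⟩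
  have hsymm : Std.Symm fun u u' : Γ => ∀ w, H.L w ≤ R → u⁻¹ * w * u' ∉ elem G :=
    ⟨fun u u' h w hw hmem => h w⁻¹ (by simpa using hw) (by
      have := (elem G).inv_mem hmem
      rwa [show (u'⁻¹ * w * u)⁻¹ = u⁻¹ * w⁻¹ * u' by group] at this)⟩
  obtain ⟨u, hu1, hu2⟩ := exists_seq_of_forall_finset_exists'
    (fun u => u ∈ C ∧ ∀ w, H.L w ≤ R → u⁻¹ * w * u ∈ elem G → w ∈ F)
    (fun u u' : Γ => ∀ w, H.L w ≤ R → u⁻¹ * w * u' ∉ elem G) fun s _ => by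
      have e1 : ∀ᶠ u in 𝓕, ∀ w ∈ {w | H.L w ≤ R}, u⁻¹ * w * u ∈ elem G → w ∈ F := by
        refine (eventually_all_finite (H.finite_ball R)).2 fun w _ => ?_
        by_cases hw : w ∈ F
        · exact Eventually.of_forall fun _ _ => hw
        · have : ∃ u ∈ C, (u⁻¹ * w * u)⁻¹ * G * (u⁻¹ * w * u) ≠ G := by
            by_contra hcon
            push Not at hcon
            exact hw fun u hu => (hcomm _).1 (hcon u hu)
          filter_upwards [hgen w G this, hgen w G⁻¹ (hneg w)] with u h1 h2 h3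
          exact (h3.elim h1 h2).elim
      have e2 : ∀ᶠ u in 𝓕, ∀ x ∈ s, ∀ w ∈ {w | H.L w ≤ R}, x⁻¹ * w * u ∉ elem G :=
        (Finset.eventually_all s).2 fun x _ =>
          (eventually_all_finite (H.finite_ball R)).2 fun w _ => hE _
      obtain ⟨y, h1, h2, h3⟩ := ((show ∀ᶠ u in 𝓕, u ∈ C from hC).and (e1.and e2)).exists
      exact ⟨y, ⟨h1, h2⟩, h3⟩
  obtain ⟨M, hM⟩ := word_ne_one hg (F := F) (R := R) (fun a : Fin k => u a)
    (fun a w hw => hw _ (hu1 a).1) fun a b w hw hmem => by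
      by_cases hab : a = b
      · subst hab
        exact ⟨rfl, (hu1 a).2 w hw hmem⟩
      · exact absurd hmem (hu2 (fun h => hab (Fin.ext h)) w hw)
  refine ⟨_, fun a f hf => ?_, hM⟩
  have := ((hf (u a) (hu1 a).1).pow_right M).eq
  change _ * _ = _ * _
  calc f * (u a * G ^ M * (u a)⁻¹) = u a * ((u a)⁻¹ * f * u a * G ^ M) * (u a)⁻¹ := by group
    _ = u a * G ^ M * (u a)⁻¹ * f := by rw [this]; group

end HypLen

end Pool.Agent.P.MP_94de62_al
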