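import Mathlib

/-!
Definitions for the growth ordinals of a hyperbolic group.
-/

namespace Pool.Agent.P.MP_94de62_al

open Filter Topology

variable {Γ : Type*} [Group Γ]

/-- The elements of word length at most `n` with respect to `S ∪ S⁻¹`. -/
def groupBall (S : Set Γ) (n : ℕ) : Set Γ :=
  {g | ∃ l : List Γ, l.length ≤ n ∧ (∀ a ∈ l, a ∈ S ∨ a⁻¹ ∈ S) ∧ l.prod = g}

/-- The products of at least one and at most `n` elements of `S` (no inverses). -/
def semigroupBall (S : Set Γ) (n : ℕ) : Set Γ :=
  {g | ∃ l : List Γ, l ≠ [] ∧ l.length ≤ n ∧ (∀ a ∈ l, a ∈ S) ∧ l.prod = g}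

/-- The word length of `g` with respect to `X ∪ X⁻¹`. -/
noncomputable def wordLength (X : Set Γ) (g : Γ) : ℕ := sInf {n | g ∈ groupBall X n}

/-- The Gromov product of `x` and `y` based at `w`, for the word metric of `X`. -/
noncomputable def gromovProduct (X : Set Γ) (w x y : Γ) : ℝ :=
  ((wordLength X (w⁻¹ * x) : ℝ) + wordLength X (w⁻¹ * y) - wordLength X (x⁻¹ * y)) / 2

/-- A group is hyperbolic if it has a finite generating set whose word metric satisfies Gromov's
four-point condition for some `δ`. -/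
def IsHyperbolicGroup (Γ : Type*) [Group Γ] : Prop :=
  ∃ X : Set Γ, X.Finite ∧ Subgroup.closure X = ⊤ ∧ ∃ δ : ℝ, ∀ w x y z : Γ,
    min (gromovProduct X w x y) (gromovProduct X w y z) - δ ≤ gromovProduct X w x z

/-- A group is virtually cyclic if it has a cyclic subgroup of finite index. -/
def VirtuallyCyclic (H : Type*) [Group H] : Prop :=
  ∃ C : Subgroup H, IsCyclic C ∧ C.FiniteIndex

/-- `r` is the growth rate `lim |B n| ^ (1 / n)` of the sequence of finite sets `B`. -/
def HasGrowthRate (B : ℕ → Set Γ) (r : ℝ) : Prop :=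
  Tendsto (fun n : ℕ => ((B n).ncard : ℝ) ^ ((1 : ℝ) / n)) atTop (𝓝 r)

/-- `ξ(Γ)`: the growth rates of `Γ` over all finite generating sets. -/
def xiSet (Γ : Type*) [Group Γ] : Set ℝ :=
  {r | ∃ S : Set Γ, S.Finite ∧ Subgroup.closure S = ⊤ ∧ HasGrowthRate (groupBall S) r}

/-- `Θ(Γ)`: the growth rates of the finitely generated non-elementary subgroups of `Γ` over all
their finite generating sets. -/
def thetaSet (Γ : Type*) [Group Γ] : Set ℝ :=
  {r | ∃ S : Set Γ, S.Finite ∧ ¬ VirtuallyCyclic (Subgroup.closure S) ∧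
    HasGrowthRate (groupBall S) r}

/-- `Δ(Γ)`: the growth rates of the finitely generated non-elementary subsemigroups of `Γ` over
all their finite generating sets. -/
def deltaSet (Γ : Type*) [Group Γ] : Set ℝ :=
  {r | ∃ S : Set Γ, S.Finite ∧ ¬ VirtuallyCyclic (Subgroup.closure S) ∧
    HasGrowthRate (semigroupBall S) r}

/-- The set `A` of reals, with the usual order, is well ordered of order type `o`. -/
def HasOrderType (A : Set ℝ) (o : Ordinal.{0}) : Prop := Nonempty (A ≃o o.ToType)

end Pool.Agent.P.MP_94de62_al
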