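import Pool.Agent.P.MP_94de62_al.Defs

/-!
Equations over a group, the spaces of marked limit groups and their Cantor-Bendixson rank.
-/

namespace Pool.Agent.P.MP_94de62_al

/-- Words in `n` variables with coefficients in `Γ`: the free product `Γ * F_n`. -/
abbrev Words (Γ : Type*) [Group Γ] (n : ℕ) := Monoid.Coprod Γ (FreeGroup (Fin n))

variable {Γ : Type*} [Group Γ] {n : ℕ}

/-- The value of a word at the tuple `s`. -/
def evalAt (s : Fin n → Γ) : Words Γ n →* Γ :=
  Monoid.Coprod.lift (MonoidHom.id Γ) (FreeGroup.lift s)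

/-- Every system of equations in finitely many variables is equivalent over `Γ` to a finite
subsystem. -/
def EquationallyNoetherian (Γ : Type*) [Group Γ] : Prop :=
  ∀ (n : ℕ) (E : Set (Words Γ n)), ∃ E₀ ⊆ E, E₀.Finite ∧
    ∀ s : Fin n → Γ, (∀ w ∈ E₀, evalAt s w = 1) → ∀ w ∈ E, evalAt s w = 1

/-- `N` is a limit of kernels of evaluations, that is, the set of relations of an `n`-marked limit
group over `Γ` with constants. -/
def IsLimit (N : Set (Words Γ n)) : Prop :=
  ∀ W : Finset (Words Γ n), ∃ s : Fin n → Γ, ∀ w ∈ W, (w ∈ N ↔ evalAt s w = 1)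

/-- `N` lies in the Cantor-Bendixson derivative of order `β` of the space of limits. -/
def Derived (β : Ordinal.{0}) (N : Set (Words Γ n)) : Prop :=
  IsLimit N ∧ ∀ (γ : Set.Iio β) (W : Finset (Words Γ n)),
    ∃ N', Derived γ.1 N' ∧ N' ≠ N ∧ ∀ w ∈ W, (w ∈ N' ↔ w ∈ N)
termination_by β
decreasing_by exact γ.2

/-- The least ordinal at which the derivatives of all the spaces of limits are empty. -/
noncomputable def limitRank (Γ : Type*) [Group Γ] : Ordinal.{0} :=
  sInf {β | ∀ (n : ℕ) (N : Set (Words Γ n)), ¬ Derived β N}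

end Pool.Agent.P.MP_94de62_al
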