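import Pool.Agent.P.MP_94de62_al.Main
import Pool.Agent.P.MP_94de62_al.EqDefs

/-!
Generic tuples in an equationally noetherian hyperbolic group.
-/

namespace Pool.Agent.P.MP_94de62_al

open Filter TopologicalSpace Monoid

variable {Γ : Type*} [Group Γ]

@[simp] theorem evalAt_inl {n : ℕ} (s : Fin n → Γ) (a : Γ) : evalAt s (Coprod.inl a) = a := rfl

@[simp] theorem evalAt_of {n : ℕ} (s : Fin n → Γ) (i : Fin n) :
    evalAt s (Coprod.inr (FreeGroup.of i)) = s i := by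
  simp [evalAt]

theorem exists_zar_en (hen : EquationallyNoetherian Γ) : ∃ τ : TopologicalSpace Γ,
    @NoetherianSpace Γ τ ∧ (∀ a : Γ, @Continuous Γ Γ τ τ fun u => a * u) ∧
      (∀ w G G' : Γ, @IsClosed Γ τ {u | (u⁻¹ * w * u)⁻¹ * G * (u⁻¹ * w * u) = G'}) ∧
      (∀ t G G' : Γ, @IsClosed Γ τ {u | (t * u)⁻¹ * G * (t * u) = G'}) := by
  let V : Words Γ 1 → Set Γ := fun w => {u | evalAt (fun _ => u) w ≠ 1}
  let τ : TopologicalSpace Γ := generateFrom (Set.range V)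
  have hV : ∀ w, IsOpen (V w) := fun w => isOpen_generateFrom_of_mem ⟨w, rfl⟩
  let x : Words Γ 1 := Coprod.inr (FreeGroup.of 0)
  have hx : ∀ u : Γ, evalAt (fun _ : Fin 1 => u) x = u := fun u => evalAt_of _ _
  refine ⟨τ, noetherianSpace_iff_isCompact.2 fun Y => ?_, fun a => ?_, fun w G G' => ?_,
    fun t G G' => ?_⟩
  · refine isCompact_generateFrom rfl fun P hP hY => ?_
    obtain ⟨E₀, h1, h2, h3⟩ := hen 1 {w | V w ∈ P}
    refine ⟨V '' E₀, ?_, h2.image V, fun u hu => ?_⟩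
    · rintro _ ⟨w, hw, rfl⟩
      exact h1 hw
    · by_contra hc
      obtain ⟨U, hU, huU⟩ := hY hu
      obtain ⟨w, rfl⟩ := hP hU
      refine huU (h3 _ (fun w' hw' => ?_) w hU)
      by_contra h
      exact hc ⟨V w', ⟨w', hw', rfl⟩, h⟩
  · refine continuous_generateFrom_iff.2 ?_
    rintro _ ⟨w, rfl⟩
    let θ : Words Γ 1 →* Words Γ 1 :=
      Coprod.lift Coprod.inl (FreeGroup.lift fun _ => Coprod.inl a * x)
    have : (fun u => a * u) ⁻¹' V w = V (θ w) := by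
      ext u
      have e : (evalAt fun _ : Fin 1 => u).comp θ = evalAt fun _ => a * u :=
        Coprod.hom_ext (MonoidHom.ext fun _ => rfl) (FreeGroup.ext_hom _ _ fun i => by
          simp [θ, hx])
      simp only [V, Set.mem_preimage, Set.mem_ofPred_eq, ← e, MonoidHom.comp_apply]
    rw [this]
    exact hV _
  · refine isOpen_compl_iff.1 ?_
    convert hV ((x⁻¹ * Coprod.inl w * x)⁻¹ * Coprod.inl G * (x⁻¹ * Coprod.inl w * x) *
      (Coprod.inl G')⁻¹) using 1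
    ext u
    simp only [V, Set.mem_compl_iff, Set.mem_ofPred_eq, map_mul, map_inv, hx, evalAt_inl, ne_eq,
      mul_inv_eq_one]
  · refine isOpen_compl_iff.1 ?_
    convert hV ((Coprod.inl t * x)⁻¹ * Coprod.inl G * (Coprod.inl t * x) *
      (Coprod.inl G')⁻¹) using 1
    ext u
    simp only [V, Set.mem_compl_iff, Set.mem_ofPred_eq, map_mul, map_inv, hx, evalAt_inl, ne_eq,
      mul_inv_eq_one]

theorem exists_generic_en (hen : EquationallyNoetherian Γ) {H : HypLen Γ} {G : Γ}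
    (hG : H.Straight G) (hne : ¬ VirtuallyCyclic Γ) :
    ∃ (C : Set Γ) (𝓕 : Filter Γ), 𝓕.NeBot ∧ C ∈ 𝓕 ∧ (∀ a : Γ, ∃ m, 0 < m ∧ ∀ u ∈ C, a ^ m * u ∈ C) ∧
      (∀ t, ∀ᶠ u in 𝓕, t * u ∉ elem G) ∧
      ∀ w G', (∃ u ∈ C, (u⁻¹ * w * u)⁻¹ * G * (u⁻¹ * w * u) ≠ G') →
        ∀ᶠ u in 𝓕, (u⁻¹ * w * u)⁻¹ * G * (u⁻¹ * w * u) ≠ G' := by
  obtain ⟨τ, h1, h2, h3, h4⟩ := exists_zar_en hen
  obtain ⟨C, hC, hCE⟩ : ∃ C ∈ irreducibleComponents Γ, ∀ t, ∃ u ∈ C, t * u ∉ elem G := by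
    by_contra hcon
    push Not at hcon
    choose! t ht using hcon
    refine hne (VirtuallyCyclic.of_surjective (⊤ : Subgroup Γ).subtype
      (fun x => ⟨⟨x, trivial⟩, rfl⟩) ?_)
    refine HypLen.virtuallyCyclic_of_cover hG ⊤ trivial
      (NoetherianSpace.finite_irreducibleComponents.image fun C => (t C)⁻¹) fun z _ => ?_
    exact ⟨_, ⟨_, irreducibleComponent_mem_irreducibleComponents z, rfl⟩, by
      simpa using ht _ (irreducibleComponent_mem_irreducibleComponents z) z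
        mem_irreducibleComponent⟩
  have key : ∀ Z : Set Γ, IsClosed Z → (∃ u ∈ C, u ∉ Z) → ∀ᶠ u in genericFilter hC.1, u ∉ Z :=
    fun Z hZ ⟨u, hu, hu'⟩ => ⟨Zᶜ, hZ.isOpen_compl, ⟨u, hu, hu'⟩, fun _ hx => hx.2⟩
  refine ⟨C, genericFilter hC.1, ⟨fun h => ?_⟩,
    ⟨Set.univ, isOpen_univ, by simpa using hC.1.nonempty, Set.inter_subset_left⟩,
    exists_pow_stable h2 hC, fun t => ?_, fun w G' h => key _ (h3 w G G') h⟩
  · obtain ⟨V, -, ⟨u, hu⟩, h3⟩ : (∅ : Set Γ) ∈ genericFilter hC.1 := by rw [h]; trivial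
    exact h3 hu
  · exact key _ ((h4 t G G).union (h4 t G G⁻¹)) (hCE t)

namespace HypLen

theorem exists_core_en (hen : EquationallyNoetherian Γ) (H : HypLen Γ)
    (hne : ¬ VirtuallyCyclic Γ) :
    ∃ F : Subgroup Γ, (F : Set Γ).Finite ∧ ∀ (k : ℕ) (R : ℝ), ∃ y : Fin k → Γ,
      (∀ a, ∀ f ∈ F, Commute f (y a)) ∧
      ∀ (w₀ : Γ) (l : List ((Fin k × Bool) × Γ)), l ≠ [] → Reduced F l → H.L w₀ ≤ R →
        (∀ x ∈ l, H.L x.2 ≤ R) → w₀ * wordVal (MonoidHom.id Γ) y l ≠ 1 := by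
  have : Infinite Γ := by
    by_contra hc
    rw [not_infinite_iff_finite] at hc
    exact hne (VirtuallyCyclic.of_finite Γ)
  obtain ⟨g, hg⟩ := H.exists_straight_elt
  set G := g ^ H.N.factorial with hGdef
  have hG : H.Straight G := hg.pow (Nat.factorial_pos H.N)
  obtain ⟨C, 𝓕, hbot, hC, hstab, hE, hgen⟩ := exists_generic_en hen hG hne
  have hcomm : ∀ z : Γ, z⁻¹ * G * z = G ↔ Commute z G := fun z => by
    rw [mul_assoc, inv_mul_eq_iff_eq_mul]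
    exact ⟨fun h => h.symm, fun h => h.eq.symm⟩
  obtain ⟨u₁, hu₁⟩ := 𝓕.nonempty_of_mem hC
  obtain ⟨u₂, hu₂, hv⟩ := ((show ∀ᶠ u in 𝓕, u ∈ C from hC).and (hE u₁⁻¹)).exists
  let F : Subgroup Γ :=
    { carrier := {w | ∀ u ∈ C, Commute (u⁻¹ * w * u) G}
      one_mem' := fun u _ => by simp
      mul_mem' := fun {a b} ha hb u hu => by
        rw [show u⁻¹ * (a * b) * u = (u⁻¹ * a * u) * (u⁻¹ * b * u) by group]
        exact (ha u hu).mul_left (hb u hu)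
      inv_mem' := fun {a} ha u hu => by
        rw [show u⁻¹ * a⁻¹ * u = (u⁻¹ * a * u)⁻¹ by group]
        exact (ha u hu).inv_left }
  have hFfin : (F : Set Γ).Finite := by
    refine ((finite_commute hg hv).preimage (f := fun w => u₁⁻¹ * w * u₁)
      fun a _ b _ h => by simpa using h).subset fun w hw => ⟨hw u₁ hu₁, ?_⟩
    rw [show (u₁⁻¹ * u₂)⁻¹ * (u₁⁻¹ * w * u₁) * (u₁⁻¹ * u₂) = u₂⁻¹ * w * u₂ by group]
    exact hw u₂ hu₂
  have hneg : ∀ w, ∃ u ∈ C, (u⁻¹ * w * u)⁻¹ * G * (u⁻¹ * w * u) ≠ G⁻¹ := by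
    intro w
    by_contra hcon
    push Not at hcon
    have hinv : ∀ u ∈ C, w⁻¹ * (u * G * u⁻¹) * w = (u * G * u⁻¹)⁻¹ := fun u hu => by
      calc w⁻¹ * (u * G * u⁻¹) * w = u * ((u⁻¹ * w * u)⁻¹ * G * (u⁻¹ * w * u)) * u⁻¹ := by group
        _ = _ := by rw [hcon u hu]; group
    obtain ⟨m, hm, hstab'⟩ := hstab (u₁ * G * u₁⁻¹)
    set a := u₁ * G * u₁⁻¹ with ha
    set b := u₂ * G * u₂⁻¹ with hb
    have h1 : w⁻¹ * a ^ m * w = (a ^ m)⁻¹ := by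
      have := conj_pow (i := m) (a := w⁻¹) (b := a)
      rw [inv_inv] at this
      rw [← this, hinv u₁ hu₁, inv_pow]
    have h2 := hinv u₂ hu₂
    have h3 := hinv _ (hstab' u₂ hu₂)
    rw [← hb] at h2
    have h4 : (a ^ m)⁻¹ * b⁻¹ * a ^ m = a ^ m * b⁻¹ * (a ^ m)⁻¹ := by
      calc (a ^ m)⁻¹ * b⁻¹ * a ^ m
          = (w⁻¹ * a ^ m * w) * (w⁻¹ * b * w) * (w⁻¹ * a ^ m * w)⁻¹ := by rw [h1, h2, inv_inv]
        _ = w⁻¹ * (a ^ m * u₂ * G * (a ^ m * u₂)⁻¹) * w := by rw [hb]; group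
        _ = _ := by rw [h3, hb]; group
    have h5 : a ^ m = u₁ * G ^ m * u₁⁻¹ := by rw [ha, conj_pow]
    refine not_commute hg hv (m := m + m) (by omega) (Commute.inv_right_iff.1 ?_)
    change _ * _ = _ * _
    calc (u₁⁻¹ * u₂)⁻¹ * G ^ (m + m) * (u₁⁻¹ * u₂) * G⁻¹
        = u₂⁻¹ * (a ^ m * (a ^ m * b⁻¹ * (a ^ m)⁻¹) * a ^ m) * u₂ := by rw [h5, hb]; group
      _ = u₂⁻¹ * (a ^ m * ((a ^ m)⁻¹ * b⁻¹ * a ^ m) * a ^ m) * u₂ := by rw [h4]
      _ = G⁻¹ * ((u₁⁻¹ * u₂)⁻¹ * G ^ (m + m) * (u₁⁻¹ * u₂)) := by rw [h5, hb]; group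
  refine ⟨F, hFfin, fun k R => ?_⟩
  have hsymm : Std.Symm fun u u' : Γ => ∀ w, H.L w ≤ R → u⁻¹ * w * u' ∉ elem G :=
    ⟨fun u u' h w hw hmem => h w⁻¹ (by simpa using hw) (by
      have := (elem G).inv_mem hmem
      rwa [show (u'⁻¹ * w * u)⁻¹ = u⁻¹ * w⁻¹ * u' by group] at this)⟩
  obtain ⟨u, hu1, hu2⟩ := exists_seq_of_forall_finset_exists'
    (fun u => u ∈ C ∧ ∀ w, H.L w ≤ R → u⁻¹ * w * u ∈ elem G → w ∈ F)
    (fun u u' : Γ => ∀ w, H.L w ≤ R → u⁻¹ * w * u' ∉ elem G) fun s _ => by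
      have e1 : ∀ᶠ u in 𝓕, ∀ w ∈ {w | H.L w ≤ R}, u⁻¹ * w * u ∈ elem G → w ∈ F := by
        refine (eventually_all_finite (H.finite_ball R)).2 fun w _ => ?_
        by_cases hw : w ∈ F
        · exact Eventually.of_forall fun _ _ => hw
        · have : ∃ u ∈ C, (u⁻¹ * w * u)⁻¹ * G * (u⁻¹ * w * u) ≠ G := by
            by_contra hcon
            push Not at hcon
            exact hw fun u hu => (hcomm _).1 (hcon u hu)
          filter_upwards [hgen w G this, hgen w G⁻¹ (hneg w)] with u h1 h2 h3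
          exact (h3.elim h1 h2).elim
      have e2 : ∀ᶠ u in 𝓕, ∀ x ∈ s, ∀ w ∈ {w | H.L w ≤ R}, x⁻¹ * w * u ∉ elem G :=
        (Finset.eventually_all s).2 fun x _ =>
          (eventually_all_finite (H.finite_ball R)).2 fun w _ => hE _
      obtain ⟨y, h1, h2, h3⟩ := ((show ∀ᶠ u in 𝓕, u ∈ C from hC).and (e1.and e2)).exists
      exact ⟨y, ⟨h1, h2⟩, h3⟩
  obtain ⟨M, hM⟩ := word_ne_one hg (F := F) (R := R) (fun a : Fin k => u a)
    (fun a w hw => hw _ (hu1 a).1) fun a b w hw hmem => by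
      by_cases hab : a = b
      · subst hab
        exact ⟨rfl, (hu1 a).2 w hw hmem⟩
      · exact absurd hmem (hu2 (fun h => hab (Fin.ext h)) w hw)
  refine ⟨_, fun a f hf => ?_, hM⟩
  have := ((hf (u a) (hu1 a).1).pow_right M).eq
  change _ * _ = _ * _
  calc f * (u a * G ^ M * (u a)⁻¹) = u a * ((u a)⁻¹ * f * u a * G ^ M) * (u a)⁻¹ := by group
    _ = u a * G ^ M * (u a)⁻¹ * f := by rw [this]; group

end HypLen

end Pool.Agent.P.MP_94de62_al
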