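import Pool.Agent.P.MP_94de62_al.EqIns

/-!
Adjoining a free letter makes the growth rate drop strictly in every proper quotient.
-/

namespace Pool.Agent.P.MP_94de62_al

open Pointwise

namespace UG

variable {L L' : Type*} [Group L] [Group L'] {F : Subgroup L} {F' : Subgroup L'} {ι : Type*}

theorem eq_top (S : Subgroup (UG F ι)) (h1 : ∀ a, c F ι a ∈ S) (h2 : ∀ i, t F i ∈ S) :
    S = ⊤ := by
  let φ : UG F ι →* S := lift ((c F ι).codRestrict S h1) (fun i => ⟨t F i, h2 i⟩)
    fun i f hf => Subtype.ext (comm hf i).eq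
  have : S.subtype.comp φ = MonoidHom.id _ :=
    hom_ext (fun _ => rfl) fun i => by simp [φ]
  refine top_le_iff.1 fun x _ => ?_
  have h : (φ x : UG F ι) = x := DFunLike.congr_fun this x
  exact h ▸ (φ x).2

/-- The exponent sum. -/
def ex (F : Subgroup L) (ι : Type*) : UG F ι →* Multiplicative ℤ :=
  lift 1 (fun _ => Multiplicative.ofAdd 1) fun _ _ _ => Commute.all _ _

theorem ex_c (a : L) : ex F ι (c F ι a) = 1 := rfl

theorem ex_t (i : ι) : ex F ι (t F i) = Multiplicative.ofAdd 1 := lift_t _ _ _ _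

open Classical in
/-- An action on the cosets with one point added. -/
noncomputable def ps (F : Subgroup L) (ι : Type*) : UG F ι →* Equiv.Perm (Option (L ⧸ F)) :=
  lift (MulAction.toPermHom L (Option (L ⧸ F)))
    (fun _ => Equiv.swap none (some ((1 : L) : L ⧸ F))) fun _ f hf => by
      have h1 : f • ((1 : L) : L ⧸ F) = ((1 : L) : L ⧸ F) := by
        change ((f * 1 : L) : L ⧸ F) = _
        exact QuotientGroup.eq.2 (by simpa using hf)
      change _ * _ = _ * _
      rw [Equiv.mul_swap_eq_swap_mul]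
      simp [Option.smul_some, h1]

theorem ps_c (a : L) (x : Option (L ⧸ F)) : ps F ι (c F ι a) x = a • x := rfl

open Classical in
theorem ps_t (i : ι) : ps F ι (t F i) = Equiv.swap none (some ((1 : L) : L ⧸ F)) :=
  lift_t _ _ _ _

theorem mem_of_mul_t {a b : L} {i : ι} (h : c F ι a * t F i = t F i * c F ι b) : a ∈ F := by
  classical
  have h1 := DFunLike.congr_fun (congrArg (ps F ι) h) none
  simp only [map_mul, Equiv.Perm.mul_apply, ps_c, ps_t, Option.smul_none, Equiv.swap_apply_left,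
    Option.smul_some, Option.some.injEq] at h1
  have h2 : ((a * 1 : L) : L ⧸ F) = ((1 : L) : L ⧸ F) := h1
  simpa using QuotientGroup.eq.1 h2.symm

theorem not_commute_conj {w : L} (hw : w ∉ F) (i : ι) :
    ¬ Commute (c F ι w) (t F i * c F ι w * (t F i)⁻¹) := by
  classical
  intro h
  have hw1 : w • ((1 : L) : L ⧸ F) ≠ ((1 : L) : L ⧸ F) := fun e => by
    have h2 : ((w * 1 : L) : L ⧸ F) = ((1 : L) : L ⧸ F) := e
    exact hw (by simpa using QuotientGroup.eq.1 h2.symm)
  have h1 := DFunLike.congr_fun (congrArg (ps F ι) h.eq) (some ((1 : L) : L ⧸ F))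
  have hs : Equiv.swap none (some ((1 : L) : L ⧸ F)) (some (w • ((1 : L) : L ⧸ F))) =
      some (w • ((1 : L) : L ⧸ F)) :=
    Equiv.swap_apply_of_ne_of_ne (by simp) (by simpa using hw1)
  simp only [map_mul, map_inv, Equiv.Perm.mul_apply, ps_c, ps_t, Equiv.swap_inv,
    Equiv.swap_apply_right, Option.smul_none, Equiv.swap_apply_left, Option.smul_some, hs] at h1
  rw [← hs] at h1
  have h3 := (Equiv.swap _ _).injective h1
  rw [Option.some.injEq] at h3
  exact hw1 (MulAction.injective w h3).symm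

/-- The map induced by a homomorphism of the groups of constants. -/
def map (π : L →* L') (h : ∀ f ∈ F, π f ∈ F') : UG F ι →* UG F' ι :=
  lift ((c F' ι).comp π) (t F') fun i f hf => comm (h f hf) i

theorem map_c (π : L →* L') (h : ∀ f ∈ F, π f ∈ F') (a : L) :
    map π h (c F ι a) = c F' ι (π a) := rfl

theorem map_t (π : L →* L') (h : ∀ f ∈ F, π f ∈ F') (i : ι) :
    map π h (t F i) = t F' i := lift_t _ _ _ _

end UG

theorem exists_equivariant {A G G' : Type*} [Group A] [Group G] [Group G'] (F : Subgroup A)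
    (α : A →* G) (β : A →* G') (hβ : Set.InjOn β F) :
    ∃ R : G' → G, ∀ f ∈ F, ∀ q, R (β f * q) = α f * R q := by
  let B := F.map β
  let r : G' → G' := fun q => (Quotient.mk (QuotientGroup.rightRel B) q).out
  have h1 : ∀ q, q * (r q)⁻¹ ∈ B := fun q =>
    QuotientGroup.rightRel_apply.1 (Quotient.mk_out (s := QuotientGroup.rightRel B) q)
  choose g hg1 hg2 using h1
  refine ⟨fun q => α (g q), fun f hf q => ?_⟩
  have h2 : r (β f * q) = r q := by
    refine congrArg Quotient.out (Quotient.sound (QuotientGroup.rightRel_apply.2 ?_))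
    rw [mul_inv_rev, mul_inv_cancel_left]
    exact B.inv_mem ⟨f, hf, rfl⟩
  have h3 : g (β f * q) = f * g q :=
    hβ (hg1 _) (F.mul_mem hf (hg1 q)) (by rw [hg2, h2, map_mul, hg2, mul_assoc])
  simp only [h3, map_mul]

/-- Fibrewise left multiplication. -/
def fib (G' G : Type*) [Group G] : (G' → G) →* Equiv.Perm (G' × G) :=
  MonoidHom.toHomPerm
    { toFun := fun k z => (z.1, k z.1 * z.2)
      map_one' := funext fun z => by simp [Function.End.one_def]
      map_mul' := fun k k' => funext fun z => by simp [Function.End.mul_def, mul_assoc] }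

theorem fib_apply {G' G : Type*} [Group G] (k : G' → G) (z : G' × G) :
    fib G' G k z = (z.1, k z.1 * z.2) := rfl

theorem ent_drop {L L' : Type*} [Group L] [Group L'] {F : Subgroup L} {F' : Subgroup L'}
    (π : L →* L') (h : ∀ f ∈ F, π f ∈ F') (h' : ∀ f' ∈ F', ∃ f ∈ F, π f = f')
    (hinj : Set.InjOn π F) (hfin : (F : Set L).Finite) {w : L} (hw : w ∉ F) (hπ : π w = 1)
    {S : Set (UG F (Fin 1))} (hS : S.Finite) (hS' : Subgroup.closure S = ⊤)
    (hpos : 0 < ent (UG.map π h '' (S ∪ S⁻¹))) :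
    ent (UG.map π h '' (S ∪ S⁻¹)) < ent (S ∪ S⁻¹) := by
  classical
  set c := UG.c F (Fin 1) with hc
  set c' := UG.c F' (Fin 1) with hc'
  set t := UG.t F (0 : Fin 1) with ht
  set t' := UG.t F' (0 : Fin 1) with ht'
  obtain ⟨R, hR⟩ := exists_equivariant F c (c'.comp π)
    fun a ha b hb e => hinj ha hb (UG.c_injective (F := F') (ι := Fin 1) e)
  have hR : ∀ f ∈ F, ∀ q, R (c' (π f) * q) = c f * R q := hR
  let κ : L → UG F' (Fin 1) → UG F (Fin 1) := fun a q =>
    if q ∈ c'.range then c a else if q * t' ∈ c'.range then t * c a * t⁻¹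
      else R (c' (π a) * q) * (R q)⁻¹
  have hm : ∀ a q, c' a * q ∈ c'.range ↔ q ∈ c'.range := fun a q =>
    Subgroup.mul_mem_cancel_left _ ⟨a, rfl⟩
  let α : L →* Equiv.Perm (UG F' (Fin 1) × UG F (Fin 1)) := MonoidHom.toHomPerm
    { toFun := fun a z => (c' (π a) * z.1, κ a z.1 * z.2)
      map_one' := funext fun z => by
        simp only [κ, map_one, one_mul, mul_one, mul_inv_cancel, ite_self]; rfl
      map_mul' := fun a b => funext fun z => by
        change _ = (c' (π a) * (c' (π b) * z.1), κ a (c' (π b) * z.1) * (κ b z.1 * z.2))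
        simp only [κ, map_mul, mul_assoc, hm]
        split_ifs <;> simp [mul_assoc] }
  have hα : ∀ a z, α a z = (c' (π a) * z.1, κ a z.1 * z.2) := fun _ _ => rfl
  let τ : Equiv.Perm (UG F' (Fin 1) × UG F (Fin 1)) :=
    Equiv.prodCongr (Equiv.mulLeft t') (Equiv.refl _)
  have hτ : ∀ z, τ z = (t' * z.1, z.2) := fun _ => rfl
  have hκ : ∀ f ∈ F, ∀ q, κ f q = c f := fun f hf q => by
    simp only [κ]
    split_ifs
    · rfl
    · rw [← (UG.comm hf 0).eq, mul_inv_cancel_right]
    · rw [hR f hf, mul_inv_cancel_right]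
  let θ : UG F (Fin 1) →* Equiv.Perm (UG F' (Fin 1) × UG F (Fin 1)) :=
    UG.lift α (fun _ => τ) fun _ f hf => Equiv.ext fun z => by
      rw [Equiv.Perm.mul_apply, Equiv.Perm.mul_apply, hα, hτ, hτ, hα, hκ f hf, hκ f hf,
        ← mul_assoc, ← mul_assoc, (UG.comm (h f hf) 0).eq]
  have hθc : ∀ a, θ (c a) = α a := fun _ => rfl
  have hθt : θ t = τ := UG.lift_t _ _ _ _
  have hθ : ∀ x z, (θ x z).1 = UG.map π h x * z.1 := by
    let U : Subgroup (UG F (Fin 1)) :=
      { carrier := {x | ∀ z, (θ x z).1 = UG.map π h x * z.1}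
        one_mem' := fun z => by simp
        mul_mem' := fun {a b} ha hb z => by
          rw [map_mul, Equiv.Perm.mul_apply, ha, hb, map_mul, mul_assoc]
        inv_mem' := fun {a} ha z => by
          have := ha (θ a⁻¹ z)
          rw [← Equiv.Perm.mul_apply, ← map_mul, mul_inv_cancel, map_one,
            Equiv.Perm.one_apply] at this
          rw [map_inv (UG.map π h), eq_inv_mul_iff_mul_eq, ← this] }
    have hU : U = ⊤ := UG.eq_top U (fun a z => rfl) fun i z => by
      rw [Subsingleton.elim i 0, ← ht, hθt, UG.map_t]; rfl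
    exact fun x => (hU ▸ Subgroup.mem_top x : x ∈ U)
  set k : UG F' (Fin 1) → UG F (Fin 1) := κ w with hk
  set k' : UG F' (Fin 1) → UG F (Fin 1) := fun q => k (t'⁻¹ * q) with hk'
  have e1 : θ (c w) = fib _ _ k := Equiv.ext fun z => by
    rw [hθc, hα, hπ, map_one, one_mul, fib_apply]
  have e2 : θ (t * c w * t⁻¹) = fib _ _ k' := by
    rw [map_mul, map_mul, map_inv, mul_inv_eq_iff_eq_mul, e1, hθt]
    refine Equiv.ext fun z => ?_
    rw [Equiv.Perm.mul_apply, Equiv.Perm.mul_apply, fib_apply, hτ, hτ, fib_apply]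
    simp [hk']
  set u := c w * (t * c w * t⁻¹) * (c w)⁻¹ * (t * c w * t⁻¹)⁻¹ with hu
  have e3 : ∀ z, θ u z = (z.1, k z.1 * k' z.1 * (k z.1)⁻¹ * (k' z.1)⁻¹ * z.2) := fun z => by
    rw [hu, map_mul, map_mul, map_mul, map_inv, map_inv, e1, e2, ← map_inv, ← map_inv, ← map_mul,
      ← map_mul, ← map_mul]
    rfl
  have hex : ∀ q ∈ c'.range, UG.ex F' (Fin 1) q = 1 := by
    rintro _ ⟨a, rfl⟩; rfl
  have hext : UG.ex F' (Fin 1) t' = Multiplicative.ofAdd 1 := UG.ex_t 0
  obtain ⟨κ₀, hκ₀⟩ := exists_mem_ball_sym (S := S) (x := u) (hS' ▸ Subgroup.mem_top u)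
  obtain ⟨D, hD⟩ := exists_ball_of_finite hS' (hfin.image c)
  refine ent_lt_act (UG.map π h) θ hθ (F'.map c') (u := u) ?_ (fun z hz => ?_) ⟨1, ?_⟩
    (hS.union hS.inv) hκ₀ (D := D) ?_ hpos
  · have : UG.map π h (c w) = 1 := by rw [hc, UG.map_c, hπ, map_one]
    simp [hu, this]
  · have hcm : Commute (k z.1) (k' z.1) := by
      simp only [hk', hk, κ, hπ, map_one, one_mul, mul_inv_cancel]
      split_ifs with h1 h2 h3 h4 h5 h6 h7 h8
      · exact Commute.refl _
      · obtain ⟨a, ha⟩ := h1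
        obtain ⟨b, hb⟩ := h3
        refine absurd ⟨a, UG.mem_of_mul_t (b := b) (i := (0 : Fin 1)) ?_, ha⟩ hz
        change c' a * t' = t' * c' b
        rw [ha, hb]; group
      · exact Commute.one_right _
      · have x1 := hex _ h4
        have x2 := hex _ h5
        rw [map_mul, hext] at x1
        rw [map_mul, map_inv, hext, inv_mul_eq_one] at x2
        rw [← x2] at x1
        exact absurd (congrArg Multiplicative.toAdd x1) (by simp)
      · exact Commute.refl _
      · exact Commute.one_right _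
      all_goals exact Commute.one_left _
    rw [e3, hcm.eq]
    simp
  · rw [e3]
    have x1 : k 1 = c w := if_pos (one_mem _)
    have x2 : k' 1 = t * c w * t⁻¹ := by
      have y1 : t'⁻¹ * 1 ∉ c'.range := fun hh => by
        have := hex _ hh
        rw [mul_one, map_inv, hext] at this
        exact absurd (congrArg Multiplicative.toAdd this) (by simp)
      simp only [hk', hk, κ]
      rw [if_neg y1, if_pos (by simp)]
    intro e
    have x3 := congrArg Prod.snd e
    simp only [x1, x2, mul_one] at x3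
    refine UG.not_commute_conj hw (0 : Fin 1) ?_
    rw [mul_inv_eq_one, mul_inv_eq_iff_eq_mul] at x3
    exact x3
  · rintro _ ⟨f', hf', rfl⟩
    obtain ⟨f, hf, rfl⟩ := h' f' hf'
    rw [← image_ball]
    exact ⟨c f, hD ⟨f, hf, rfl⟩, rfl⟩

end Pool.Agent.P.MP_94de62_al
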