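import Pool.Agent.P.MP_94de62_al.Main

/-!
Strict drop of the growth rate, from an action on a fibred set.
-/

namespace Pool.Agent.P.MP_94de62_al

open Filter Topology

variable {G G' Y : Type*} [Group G] [Group G']

theorem ins_append (u : G) (I : Finset ℕ) : ∀ (l l' : List G) (i : ℕ),
    ins u I (l ++ l') i = ins u I l i * ins u I l' (i + l.length)
  | [], l', i => by simp [ins]
  | a :: l, l', i => by
    rw [List.cons_append, ins, ins, ins_append u I l l', List.length_cons, mul_assoc _ (ins u I l _),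
      show i + 1 + l.length = i + (l.length + 1) by omega]

theorem ins_act (σ : G →* G') (θ : G →* Equiv.Perm (G' × Y))
    (hθ : ∀ x z, (θ x z).1 = σ x * z.1) (B : Subgroup G') {u : G}
    (hu2 : ∀ z, z.1 ∉ B → θ u z = z) (I : Finset ℕ) : ∀ (l : List G) (i : ℕ) (z : G' × Y),
    (∀ j < l.length, i + j ∈ I → σ (l.drop j).prod * z.1 ∉ B) → θ (ins u I l i) z = θ l.prod z
  | [], _, _, _ => rfl
  | a :: l, i, z, h => by
    have ih := ins_act σ θ hθ B hu2 I l (i + 1) z fun j hj hI =>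
      h (j + 1) (by simpa using hj) (by rwa [show i + (j + 1) = i + 1 + j by omega])
    rw [ins, map_mul, map_mul, Equiv.Perm.mul_apply, Equiv.Perm.mul_apply, ih,
      ← Equiv.Perm.mul_apply (θ a), ← map_mul, ← List.prod_cons]
    split_ifs with hi
    · exact hu2 _ (by rw [hθ]; exact h 0 (by simp) hi)
    · simp

theorem subset_of_ins_act (σ : G →* G') (θ : G →* Equiv.Perm (G' × Y))
    (hθ : ∀ x z, (θ x z).1 = σ x * z.1) (B : Subgroup G') {u : G} (hu1 : σ u = 1)
    (hu2 : ∀ z, z.1 ∉ B → θ u z = z) (hu3 : ∃ y, θ u (1, y) ≠ (1, y)) {T : Set G} {l : List G}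
    (hl : ∀ a ∈ l, a ∈ T) (hmin : ∀ n, σ l.prod ∈ ball (σ '' T) n → l.length ≤ n) {D : ℕ}
    (hD : ∀ f ∈ B, f ∈ ball (σ '' T) D) {I I' : Finset ℕ}
    (hI : ∀ i ∈ I, i < l.length ∧ (D + 1) ∣ i) (hI' : ∀ i ∈ I', (D + 1) ∣ i)
    (h : ins u I l 0 = ins u I' l 0) : I ⊆ I' := by
  intro i hi
  by_contra hi'
  obtain ⟨y, hy⟩ := hu3
  have hil := (hI i hi).1
  have hD' : ∀ f : G', f • ((1 : G') : G' ⧸ B) = ((1 : G') : G' ⧸ B) → f ∈ ball (σ '' T) D :=
    fun f hf => hD f (by
      have : ((f * 1 : G') : G' ⧸ B) = ((1 : G') : G' ⧸ B) := hf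
      simpa using QuotientGroup.eq.1 this.symm)
  have hsep : ∀ j < l.length, (D + 1) ∣ j → j ≠ i →
      (σ (l.take j).prod)⁻¹ * σ (l.take i).prod ∉ B := by
    intro j hj hd hne hB
    have e : σ (l.take j).prod • ((1 : G') : G' ⧸ B) = σ (l.take i).prod • ((1 : G') : G' ⧸ B) := by
      change ((_ * 1 : G') : G' ⧸ B) = ((_ * 1 : G') : G' ⧸ B)
      rw [mul_one, mul_one]
      exact QuotientGroup.eq.2 hB
    have d1 := dist_le_of_smul_eq σ hl hmin hD' hil.le e
    have d2 := dist_le_of_smul_eq σ hl hmin hD' hj.le e.symm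
    obtain ⟨a, rfl⟩ := (hI i hi).2
    obtain ⟨b, rfl⟩ := hd
    refine hne ?_
    rcases lt_trichotomy a b with h | h | h
    · nlinarith
    · rw [h]
    · nlinarith
  obtain ⟨z, hz1⟩ := (θ (l.drop i).prod).surjective (1, y)
  have hz2 : z.1 = (σ (l.drop i).prod)⁻¹ := by
    have := hθ (l.drop i).prod z
    rw [hz1] at this
    exact eq_inv_of_mul_eq_one_right this.symm
  have hdrop : ∀ j, σ (l.drop j).prod * z.1 = (σ (l.take j).prod)⁻¹ * σ (l.take i).prod := by
    intro j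
    have e : (l.take j).prod * (l.drop j).prod = (l.take i).prod * (l.drop i).prod := by
      rw [List.prod_take_mul_prod_drop, List.prod_take_mul_prod_drop]
    rw [hz2, mul_inv_eq_iff_eq_mul, mul_assoc, ← map_mul, ← e, map_mul, inv_mul_cancel_left]
  have e1 : θ (ins u I' l 0) z = θ (l.take i).prod (1, y) := by
    rw [ins_act σ θ hθ B hu2 I' l 0 z fun j hj hjI => ?_, ← hz1, ← Equiv.Perm.mul_apply,
      ← map_mul, List.prod_take_mul_prod_drop]
    rw [zero_add] at hjI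
    rw [hdrop]
    exact hsep j hj (hI' j hjI) fun e => hi' (e ▸ hjI)
  have e2 : θ (ins u I l 0) z = θ (l.take i).prod (θ u (1, y)) := by
    have hlen : (l.take i).length = i := by simp [hil.le]
    have e3 : θ (ins u I (l.drop (i + 1)) (i + 1)) z = θ (l.drop (i + 1)).prod z := by
      refine ins_act σ θ hθ B hu2 I _ _ z fun j hj hjI => ?_
      rw [List.drop_drop, hdrop]
      exact hsep _ (hI _ hjI).1 (hI _ hjI).2 (by omega)
    have e4 : θ (ins u I (l.drop i) i) z = θ u (1, y) := by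
      rw [← hz1, List.drop_eq_getElem_cons hil, ins, if_pos hi, map_mul, map_mul,
        Equiv.Perm.mul_apply, Equiv.Perm.mul_apply, e3, List.prod_cons, map_mul,
        Equiv.Perm.mul_apply]
    conv_lhs => rw [← List.take_append_drop i l, ins_append, map_mul, Equiv.Perm.mul_apply,
      zero_add, hlen, e4]
    refine ins_act σ θ hθ B hu2 I _ _ _ fun j hj hjI => ?_
    rw [zero_add] at hjI
    rw [hlen] at hj
    have e5 : σ ((l.take i).drop j).prod = (σ (l.take j).prod)⁻¹ * σ (l.take i).prod := by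
      rw [eq_inv_mul_iff_mul_eq, ← map_mul]
      conv_rhs => rw [← List.prod_take_mul_prod_drop (l.take i) j, List.take_take,
        min_eq_left hj.le]
    rw [hθ, hu1, one_mul, mul_one, e5]
    exact hsep j (hj.trans hil) (hI _ hjI).2 hj.ne
  rw [h, e1] at e2
  exact hy ((θ _).injective e2).symm

open Classical in
theorem card_ins_act (σ : G →* G') (θ : G →* Equiv.Perm (G' × Y))
    (hθ : ∀ x z, (θ x z).1 = σ x * z.1) (B : Subgroup G') {u : G} (hu1 : σ u = 1)
    (hu2 : ∀ z, z.1 ∉ B → θ u z = z) (hu3 : ∃ y, θ u (1, y) ≠ (1, y)) {T : Set G} (hT : T.Finite) {κ : ℕ}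
    (huT : u ∈ ball T κ) {D : ℕ} (hD : ∀ f ∈ B, f ∈ ball (σ '' T) D) (A k : ℕ) :
    (ball (σ '' T) (2 * ((D + 1) * (k * A))) \ ball (σ '' T) ((D + 1) * (k * A))).ncard * A ^ k ≤
      bn T (2 * ((D + 1) * (k * A)) + κ * k) := by
  set p := (D + 1) * (k * A) with hp
  set W := ball (σ '' T) (2 * p) \ ball (σ '' T) p with hW
  have hex : ∀ x ∈ W, ∃ l : List G, (∀ a ∈ l, a ∈ T) ∧ σ l.prod = x ∧
      (∀ n, σ l.prod ∈ ball (σ '' T) n → l.length ≤ n) ∧ p < l.length ∧ l.length ≤ 2 * p := by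
    intro x hx
    have hne : ∃ n, x ∈ ball (σ '' T) n := ⟨_, hx.1⟩
    have h1 := Nat.find_spec hne
    rw [← image_ball] at h1
    obtain ⟨_, ⟨l, h2, h3, rfl⟩, rfl⟩ := h1
    have h4 : ∀ n, σ l.prod ∈ ball (σ '' T) n → l.length ≤ n := fun n hn =>
      h2.trans (Nat.find_min' hne hn)
    refine ⟨l, h3, rfl, h4, ?_, h4 _ hx.1⟩
    by_contra hcon
    exact hx.2 (ball_mono _ (not_lt.1 hcon) (take_mem_ball σ h3))
  choose! w hw1 hw2 hw3 hw4 hw5 using hex
  set I : (Fin k → Fin A) → Finset ℕ := fun f =>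
    Finset.univ.image fun j => (D + 1) * (finProdFinEquiv (j, f j) : ℕ) with hI
  have hI1 : ∀ f, ∀ i ∈ I f, i ≤ p ∧ (D + 1) ∣ i := fun f i hi => by
    obtain ⟨j, -, rfl⟩ := Finset.mem_image.1 hi
    exact ⟨Nat.mul_le_mul_left _ (finProdFinEquiv (j, f j)).2.le, Dvd.intro _ rfl⟩
  have hWfin : W.Finite := (ball_finite (hT.image σ) _).subset Set.sdiff_subset
  have hcard : (W ×ˢ (Set.univ : Set (Fin k → Fin A))).ncard = W.ncard * A ^ k := by
    rw [Set.ncard_prod, Set.ncard_univ]; simp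
  rw [← hcard]
  refine Set.ncard_le_ncard_of_injOn (fun x => ins u (I x.2) (w x.1) 0) ?_ ?_ (ball_finite hT _)
  · rintro ⟨x, f⟩ ⟨hx, -⟩
    refine ball_mono T ?_ (ins_mem_ball huT (I f) (w x) 0 (hw1 x hx))
    have : ((I f).filter (0 ≤ ·)).card ≤ k :=
      (Finset.card_filter_le _ _).trans (Finset.card_image_le.trans (by simp))
    exact Nat.add_le_add (hw5 x hx) (Nat.mul_le_mul_left _ this)
  · rintro ⟨x, f⟩ ⟨hx, -⟩ ⟨x', f'⟩ ⟨hx', -⟩ h
    simp only at h hx hx'
    have e : x = x' := by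
      rw [← hw2 x hx, ← hw2 x' hx', ← map_ins σ hu1 (I f) _ 0, h, map_ins σ hu1]
    subst e
    have := subset_of_ins_act σ θ hθ B hu1 hu2 hu3 (hw1 x hx) (hw3 x hx) hD
      (fun i hi => ⟨(hI1 f i hi).1.trans_lt (hw4 x hx), (hI1 f i hi).2⟩)
      (fun i hi => (hI1 f' i hi).2) h
    refine Prod.ext rfl (funext fun j => ?_)
    obtain ⟨j', -, hj'⟩ := Finset.mem_image.1
      (this (Finset.mem_image_of_mem _ (Finset.mem_univ j)))
    have h2 := finProdFinEquiv.injective (Fin.ext (Nat.eq_of_mul_eq_mul_left (by omega) hj'))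
    obtain ⟨rfl, h3⟩ := Prod.mk.inj h2
    exact h3.symm

theorem ent_lt_act (σ : G →* G') (θ : G →* Equiv.Perm (G' × Y))
    (hθ : ∀ x z, (θ x z).1 = σ x * z.1) (B : Subgroup G') {u : G} (hu1 : σ u = 1)
    (hu2 : ∀ z, z.1 ∉ B → θ u z = z) (hu3 : ∃ y, θ u (1, y) ≠ (1, y)) {T : Set G} (hT : T.Finite) {κ : ℕ}
    (huT : u ∈ ball T κ) {D : ℕ} (hD : ∀ f ∈ B, f ∈ ball (σ '' T) D)
    (hpos : 0 < ent (σ '' T)) : ent (σ '' T) < ent T := by
  by_contra hcon
  push Not at hcon
  set h := ent (σ '' T) with hh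
  set A := ⌈Real.exp (κ * h)⌉₊ + 1 with hA
  have hA1 : Real.exp (κ * h) < A := by
    rw [hA]; push_cast; linarith [Nat.le_ceil (Real.exp (κ * h))]
  have hApos : (0 : ℝ) < A := (Real.exp_pos _).trans hA1
  have hA2 : κ * h < Real.log A := (Real.lt_log_iff_exp_lt hApos).2 hA1
  have t1 : Tendsto (fun k : ℕ => (D + 1) * (k * A)) atTop atTop :=
    (tendsto_id.atTop_mul_const' (by omega)).const_mul_atTop' (by omega)
  have := le_mul_ent hT (m := 2 * ((D + 1) * A) + κ) (by positivity)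
    (a := 2 * ((D + 1) * A) * h + Real.log A) (c := Real.log 2) (by
      filter_upwards [t1.eventually (shell_large (hT.image σ) hpos)] with k hk
      have h1 := card_ins_act σ θ hθ B hu1 hu2 hu3 hT huT hD A k
      rw [show 2 * ((D + 1) * (k * A)) + κ * k = k * (2 * ((D + 1) * A) + κ) by ring] at h1
      have h2 : Real.exp (2 * ((D + 1) * (k * A) : ℕ) * h) / 2 * (A : ℝ) ^ k ≤
          bn T (k * (2 * ((D + 1) * A) + κ)) :=
        le_trans (mul_le_mul_of_nonneg_right hk (by positivity)) (by exact_mod_cast h1)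
      have h3 := Real.log_le_log (by positivity) h2
      rw [Real.log_mul (by positivity) (by positivity), Real.log_div (by positivity) (by norm_num),
        Real.log_exp, Real.log_pow] at h3
      push_cast at h3
      linarith)
  have h4 : ((2 * ((D + 1) * A) + κ : ℕ) : ℝ) * ent T ≤ (2 * ((D + 1) * A) + κ : ℕ) * h := by gcongr
  push_cast at this h4
  linarith

end Pool.Agent.P.MP_94de62_al
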