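import Pool.Agent.P.MP_94de62_al.EqCore

/-!
Marked limit groups: neighbourhoods, compactness, continuity of the growth rate.
-/

namespace Pool.Agent.P.MP_94de62_al

open Filter Topology Monoid Pointwise

variable {Γ : Type*} [Group Γ] {n : ℕ} {N N' : Set (Words Γ n)}

/-- The group with relations `N`. -/
abbrev LG (N : Set (Words Γ n)) := Words Γ n ⧸ Subgroup.normalClosure N

/-- The quotient map. -/
def mkL (N : Set (Words Γ n)) : Words Γ n →* LG N := QuotientGroup.mk' _

/-- The constants. -/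
def jL (N : Set (Words Γ n)) : Γ →* LG N := (mkL N).comp Coprod.inl

/-- The variables. -/
def vr (Γ : Type*) [Group Γ] (i : Fin n) : Words Γ n := Coprod.inr (FreeGroup.of i)

/-- The marking. -/
def sL (N : Set (Words Γ n)) (i : Fin n) : LG N := mkL N (vr Γ i)

/-- The relations of a tuple. -/
def kerS (s : Fin n → Γ) : Set (Words Γ n) := {w | evalAt s w = 1}

/-- A homomorphism that kills the relations. -/
def liftL {G : Type*} [Group G] (φ : Words Γ n →* G) (h : ∀ w ∈ N, φ w = 1) : LG N →* G :=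
  QuotientGroup.lift _ φ (Subgroup.normalClosure_le_normal (N := φ.ker) h)

theorem liftL_mk {G : Type*} [Group G] (φ : Words Γ n →* G) (h : ∀ w ∈ N, φ w = 1)
    (w : Words Γ n) : liftL φ h (mkL N w) = φ w := rfl

theorem mkL_surjective (N : Set (Words Γ n)) : Function.Surjective (mkL N) :=
  QuotientGroup.mk'_surjective _

theorem mkL_of_mem {w : Words Γ n} (h : w ∈ N) : mkL N w = 1 :=
  (QuotientGroup.eq_one_iff _).2 (Subgroup.subset_normalClosure h)

/-- The map to a quotient. -/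
def piL (h : N ⊆ N') : LG N →* LG N' := liftL (mkL N') fun _ hw => mkL_of_mem (h hw)

/-- The evaluation at a solution. -/
def evL {s : Fin n → Γ} (h : N ⊆ kerS s) : LG N →* Γ := liftL (evalAt s) h

theorem evL_s {s : Fin n → Γ} (h : N ⊆ kerS s) (i : Fin n) : evL h (sL N i) = s i :=
  evalAt_of s i

theorem isLimit_kerS (s : Fin n → Γ) : IsLimit (kerS s) := fun _ => ⟨s, fun _ _ => Iff.rfl⟩

theorem IsLimit.mkL_eq_one (hN : IsLimit N) {w : Words Γ n} : mkL N w = 1 ↔ w ∈ N := by
  classical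
  refine ⟨fun h => ?_, mkL_of_mem⟩
  let M : Subgroup (Words Γ n) :=
    { carrier := N
      one_mem' := by
        obtain ⟨s, hs⟩ := hN {1}
        exact (hs 1 (by simp)).2 (map_one _)
      mul_mem' := fun {a b} ha hb => by
        obtain ⟨s, hs⟩ := hN {a, b, a * b}
        refine (hs (a * b) (by simp)).2 ?_
        rw [map_mul, (hs a (by simp)).1 ha, (hs b (by simp)).1 hb, one_mul]
      inv_mem' := fun {a} ha => by
        obtain ⟨s, hs⟩ := hN {a, a⁻¹}
        refine (hs a⁻¹ (by simp)).2 ?_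
        rw [map_inv, (hs a (by simp)).1 ha, inv_one] }
  have : M.Normal := ⟨fun a ha g => by
    obtain ⟨s, hs⟩ := hN {a, g * a * g⁻¹}
    refine (hs (g * a * g⁻¹) (by simp)).2 ?_
    rw [map_mul, map_mul, (hs a (by simp)).1 ha, map_inv, mul_one, mul_inv_cancel]⟩
  exact Subgroup.normalClosure_le_normal (N := M) (s := N) subset_rfl
    ((QuotientGroup.eq_one_iff _).1 h)

theorem IsLimit.jL_injective (hN : IsLimit N) : Function.Injective (jL N) := by
  refine (injective_iff_map_eq_one _).2 fun a ha => ?_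
  obtain ⟨s, hs⟩ := hN {Coprod.inl a}
  exact (hs _ (by simp)).1 (hN.mkL_eq_one.1 ha)

theorem exists_nbhd (hen : EquationallyNoetherian Γ) (N : Set (Words Γ n)) :
    ∃ W : Finset (Words Γ n), ∀ N', IsLimit N' → (∀ w ∈ W, (w ∈ N' ↔ w ∈ N)) → N ⊆ N' := by
  classical
  obtain ⟨E, h1, h2, h3⟩ := hen n N
  refine ⟨h2.toFinset, fun N' hN' h w hw => ?_⟩
  obtain ⟨s, hs⟩ := hN' (insert w h2.toFinset)
  refine (hs w (by simp)).2 (h3 s (fun e he => ?_) w hw)
  exact (hs e (by simp [he])).1 ((h e (by simpa using he)).2 (h1 he))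

/-- The logarithmic growth rate of the marking. -/
noncomputable def hh (N : Set (Words Γ n)) : ℝ := ent (Set.range (sL N))

theorem image_range_sL {G : Type*} [Group G] (φ : LG N →* G) {s : Fin n → G}
    (h : ∀ i, φ (sL N i) = s i) : φ '' Set.range (sL N) = Set.range s := by
  rw [← Set.range_comp]; exact congrArg Set.range (funext h)

theorem exists_agree (hen : EquationallyNoetherian Γ) (N : Set (Words Γ n)) (k : ℕ) :
    ∃ W : Finset (Words Γ n), ∀ N', IsLimit N' → (∀ w ∈ W, (w ∈ N' ↔ w ∈ N)) →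
      bn (Set.range (sL N')) k = bn (Set.range (sL N)) k ∧ hh N' ≤ hh N := by
  classical
  obtain ⟨W, hW⟩ := exists_nbhd hen N
  have hb := ball_finite (Set.finite_range (vr Γ (n := n))) k
  refine ⟨W ∪ (hb.inv.mul hb).toFinset, fun N' hN' h => ?_⟩
  have hle := hW N' hN' fun w hw => h w (Finset.mem_union_left _ hw)
  have e : piL hle '' Set.range (sL N) = Set.range (sL N') := image_range_sL _ fun _ => rfl
  have e0 : mkL N '' Set.range (vr Γ) = Set.range (sL N) := by rw [← Set.range_comp]; rfl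
  refine ⟨?_, ?_⟩
  · rw [← e]
    refine bn_image_eq _ ?_
    rw [← e0, ← image_ball]
    rintro _ ⟨a, ha, rfl⟩ _ ⟨b, hb', rfl⟩ hab
    have h1 : mkL N' a = mkL N' b := hab
    have h2 : a⁻¹ * b ∈ N' := hN'.mkL_eq_one.1 (by rw [map_mul, map_inv, h1, inv_mul_cancel])
    have h3 := mkL_of_mem ((h _ (Finset.mem_union_right _ ((Set.Finite.mem_toFinset _).2
      (Set.mul_mem_mul (Set.inv_mem_inv.2 ha) hb')))).1 h2)
    rwa [map_mul, map_inv, inv_mul_eq_one] at h3
  · unfold hh
    rw [← e]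
    exact ent_le_ent ((Set.finite_range _).image _) (Set.finite_range _)
      (bn_image_le _ (Set.finite_range _))

theorem ent_gt_of_bn {G G' : Type*} [Group G] [Group G'] {S : Set G} {T : Set G'} (hS : S.Finite)
    {M K k : ℕ} {ε : ℝ}
    (hk : ∀ h : ℝ, k * ent S - Real.log (4 * M * (k + K + 1)) ≤ (k + K) * h → ent S - ε < h)
    (hb : bn T k = bn S k) (hT : GoodSet M K T) : ent S - ε < ent T :=
  hk _ (by have := hT k; rw [hb] at this; linarith [mul_ent_le hS k])

/-- Compactness of the space of limits, with continuity of the growth rate. -/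
theorem exists_cluster (hen : EquationallyNoetherian Γ) {M K : ℕ} (hM : 0 < M) {I : Type*}
    (𝓕 : Filter I) [𝓕.NeBot] (P : I → Set (Words Γ n)) (h1 : ∀ i, IsLimit (P i))
    (h2 : ∀ i, GoodSet M K (Set.range (sL (P i)))) {x : ℝ}
    (h3 : Tendsto (fun i => hh (P i)) 𝓕 (𝓝 x)) :
    ∃ N : Set (Words Γ n), IsLimit N ∧ GoodSet M K (Set.range (sL N)) ∧ hh N = x ∧
      ∀ (W : Finset (Words Γ n)) (p : I → Prop), (∀ᶠ i in 𝓕, p i) →
        ∃ i, p i ∧ ∀ w ∈ W, (w ∈ P i ↔ w ∈ N) := by
  let U := Ultrafilter.of 𝓕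
  have hU : (U : Filter I) ≤ 𝓕 := Ultrafilter.of_le 𝓕
  let N : Set (Words Γ n) := {w | ∀ᶠ i in (U : Filter I), w ∈ P i}
  have ag : ∀ W : Finset (Words Γ n), ∀ᶠ i in (U : Filter I), ∀ w ∈ W, (w ∈ P i ↔ w ∈ N) :=
    fun W => (Finset.eventually_all W).2 fun w _ => by
      by_cases hw : w ∈ N
      · exact (show ∀ᶠ i in (U : Filter I), w ∈ P i from hw).mono fun i hi => iff_of_true hi hw
      · exact (Ultrafilter.eventually_not.2 hw).mono fun i hi => iff_of_false hi hw
  have ev : ∀ k, ∀ᶠ i in (U : Filter I),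
      bn (Set.range (sL (P i))) k = bn (Set.range (sL N)) k ∧ hh (P i) ≤ hh N := fun k => by
    obtain ⟨W, hW⟩ := exists_agree hen N k
    exact (ag W).mono fun i hi => hW _ (h1 i) hi
  refine ⟨N, fun W => ?_, fun k => ?_, le_antisymm ?_ ?_, fun W p hp => ((hp.filter_mono hU).and (ag W)).exists⟩
  · obtain ⟨i, hi⟩ := (ag W).exists
    obtain ⟨s, hs⟩ := h1 i W
    exact ⟨s, fun w hw => (hi w hw).symm.trans (hs w hw)⟩
  · obtain ⟨i, hi, hi'⟩ := (ev k).exists
    have := h2 i k
    rw [hi] at this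
    exact this.trans (mul_le_mul_of_nonneg_left hi' (by positivity))
  · refine le_of_forall_pos_le_add fun ε hε => ?_
    obtain ⟨k, -, hk⟩ := exists_good_n hM K (hh N) hε
    have : hh N - ε ≤ x := ge_of_tendsto (h3.mono_left hU) ((ev k).mono fun i hi =>
      (ent_gt_of_bn (Set.finite_range _) hk hi.1 (h2 i)).le)
    linarith
  · exact le_of_tendsto (h3.mono_left hU) ((ev 0).mono fun i hi => hi.2)

theorem bn_kerS (s : Fin n → Γ) (k : ℕ) :
    bn (Set.range s) k = bn (Set.range (sL (kerS s))) k := by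
  rw [← image_range_sL (evL (subset_refl (kerS s))) (evL_s _)]
  refine bn_image_eq _ (Function.Injective.injOn ((injective_iff_map_eq_one _).2 fun a ha => ?_))
  obtain ⟨w, rfl⟩ := mkL_surjective _ a
  exact mkL_of_mem ha

theorem hh_kerS (s : Fin n → Γ) : hh (kerS s) = ent (Set.range s) :=
  ent_congr fun k => (bn_kerS s k).symm

theorem good_kerS {s : Fin n → Γ} {M K : ℕ} (h : GoodSet M K (Set.range s)) :
    GoodSet M K (Set.range (sL (kerS s))) := fun k => by
  rw [← bn_kerS, show ent (Set.range (sL (kerS s))) = _ from hh_kerS s]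
  exact h k

/-- The growth rates of the good tuples. -/
def goodVals (Γ : Type*) [Group Γ] (M K n : ℕ) : Set ℝ :=
  {x | ∃ s : Fin n → Γ, GoodSet M K (Set.range s) ∧ ent (Set.range s) = x}

theorem isWF_goodVals (hen : EquationallyNoetherian Γ) {M : ℕ} (hM : 0 < M) (K n : ℕ) :
    (goodVals Γ M K n).IsWF := by
  refine Set.isWF_iff_no_descending_seq.2 fun f hf hmem => ?_
  choose s hs1 hs2 using hmem
  have hb : BddBelow (Set.range f) := ⟨0, by
    rintro _ ⟨k, rfl⟩
    exact hs2 k ▸ ent_nonneg (Set.finite_range _)⟩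
  obtain ⟨N, -, -, h3, h4⟩ := exists_cluster hen hM atTop (fun k => kerS (s k))
    (fun k => isLimit_kerS _) (fun k => good_kerS (hs1 k)) (x := ⨅ k, f k)
    (by simpa only [hh_kerS, hs2] using tendsto_atTop_ciInf hf.antitone hb)
  obtain ⟨W, hW⟩ := exists_agree hen N 0
  obtain ⟨k, -, hk⟩ := h4 W (fun _ => True) (Eventually.of_forall fun _ => trivial)
  have := (hW _ (isLimit_kerS _) hk).2
  rw [hh_kerS, hs2, h3] at this
  exact absurd (this.trans (ciInf_le hb (k + 1))) (not_le.2 (hf (Nat.lt_succ_self k)))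

end Pool.Agent.P.MP_94de62_al
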