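import Pool.Agent.P.MP_94de62_al.Main

/-!
Transfinite left derivatives of well ordered sets of reals.
-/

namespace Pool.Agent.P.MP_94de62_al

open Ordinal Set

/-- The left derivative of order `β` of the left closure of `A`. -/
def DD (A : Set ℝ) (β : Ordinal.{0}) (x : ℝ) : Prop :=
  (∀ z < x, ∃ a ∈ A, z < a ∧ a ≤ x) ∧
    ∀ (γ : Set.Iio β), ∀ z < x, ∃ y, DD A γ.1 y ∧ z < y ∧ y < x
termination_by β
decreasing_by exact γ.2

theorem dd_iff {A : Set ℝ} {β : Ordinal.{0}} {x : ℝ} : DD A β x ↔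
    (∀ z < x, ∃ a ∈ A, z < a ∧ a ≤ x) ∧
      ∀ γ < β, ∀ z < x, ∃ y, DD A γ y ∧ z < y ∧ y < x := by
  rw [DD]
  exact and_congr Iff.rfl ⟨fun h γ hγ => h ⟨γ, hγ⟩, fun h γ => h γ.1 γ.2⟩

theorem DD.anti {A : Set ℝ} {β γ : Ordinal.{0}} {x : ℝ} (h : DD A β x) (hγ : γ ≤ β) :
    DD A γ x := by
  rw [dd_iff] at h ⊢
  exact ⟨h.1, fun δ hδ => h.2 δ (hδ.trans_le hγ)⟩

theorem DD.mono {A B : Set ℝ} (hAB : A ⊆ B) (β : Ordinal.{0}) : ∀ x, DD A β x → DD B β x := by
  induction β using WellFoundedLT.induction with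
  | ind β ih =>
    intro x h
    rw [dd_iff] at h ⊢
    refine ⟨fun z hz => ?_, fun γ hγ z hz => ?_⟩
    · obtain ⟨a, ha, h'⟩ := h.1 z hz
      exact ⟨a, hAB ha, h'⟩
    · obtain ⟨y, hy, h'⟩ := h.2 γ hγ z hz
      exact ⟨y, ih γ hγ y hy, h'⟩

theorem exists_gap {E : Set ℝ} (hE : E.Finite) {z x : ℝ} (hz : z < x) :
    ∃ z', z ≤ z' ∧ z' < x ∧ ∀ y ∈ E, z' < y → x ≤ y := by
  induction E, hE using Set.Finite.induction_on with
  | empty => exact ⟨z, le_rfl, hz, fun _ h => h.elim⟩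
  | @insert a s _ _ ih =>
    obtain ⟨z', h1, h2, h3⟩ := ih
    by_cases ha : a < x
    · refine ⟨max z' a, h1.trans (le_max_left _ _), max_lt h2 ha, ?_⟩
      rintro y (rfl | hy) h
      · exact absurd h (not_lt.2 (le_max_right _ _))
      · exact h3 y hy ((le_max_left _ _).trans_lt h)
    · refine ⟨z', h1, h2, ?_⟩
      rintro y (rfl | hy) h
      · exact not_lt.1 ha
      · exact h3 y hy h

/-- A finite set and the part above `x₀` do not matter. -/
theorem DD.localize {A B E : Set ℝ} {x₀ : ℝ} (hE : E.Finite) (hA : A ∩ Iic x₀ ⊆ B ∪ E)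
    (β : Ordinal.{0}) : ∀ x ≤ x₀, (x ∉ E ∨ β ≠ 0) → DD A β x → DD B β x := by
  induction β using WellFoundedLT.induction with
  | ind β ih =>
    intro x hx hxE h
    rw [dd_iff] at h ⊢
    have key : ∀ γ < β, ∀ z < x, ∃ y, DD B γ y ∧ z < y ∧ y < x := fun γ hγ z hz => by
      obtain ⟨z', h1, h2, h3⟩ := exists_gap hE hz
      obtain ⟨y, hy, h4, h5⟩ := h.2 γ hγ z' h2
      exact ⟨y, ih γ hγ y (h5.le.trans hx) (Or.inl fun hyE => absurd (h3 y hyE h4) (not_le.2 h5))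
        hy, h1.trans_lt h4, h5⟩
    refine ⟨fun z hz => ?_, key⟩
    rcases hxE with hxE | hβ
    · obtain ⟨z', h1, h2, h3⟩ := exists_gap hE hz
      obtain ⟨a, ha, h4, h5⟩ := h.1 z' h2
      rcases hA ⟨ha, h5.trans hx⟩ with hB | hB
      · exact ⟨a, hB, h1.trans_lt h4, h5⟩
      · exact absurd (le_antisymm h5 (h3 a hB h4) ▸ hB) hxE
    · obtain ⟨y, hy, h1, h2⟩ := key 0 (pos_iff_ne_zero.2 hβ) z hz
      obtain ⟨a, ha, h3, h4⟩ := (dd_iff.1 hy).1 z h1
      exact ⟨a, ha, h3, h4.trans h2.le⟩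

theorem dd_bound {A : Set ℝ} {f : ℝ → Ordinal.{0}} (hf : StrictMonoOn f A) (β : Ordinal.{0}) :
    ∀ (x z : ℝ) (b : Ordinal.{0}), DD A β x → z < x → (∀ a ∈ A, z < a → b ≤ f a) →
      ∀ c < b + ω ^ β, ∃ a ∈ A, a ≤ x ∧ c ≤ f a := by
  induction β using WellFoundedLT.induction with
  | ind β ih =>
    intro x z b hx hz hb c hc
    rw [dd_iff] at hx
    rcases eq_or_ne β 0 with rfl | hβ
    · obtain ⟨a, ha, h1, h2⟩ := hx.1 z hz
      rw [opow_zero] at hc
      exact ⟨a, ha, h2, (Order.lt_succ_iff.1 hc).trans (hb a ha h1)⟩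
    rcases lt_or_ge c b with hcb | hcb
    · obtain ⟨a, ha, h1, h2⟩ := hx.1 z hz
      exact ⟨a, ha, h2, hcb.le.trans (hb a ha h1)⟩
    have h1 : c - b < ω ^ β := by
      rw [← add_lt_add_iff_left b, Ordinal.add_sub_cancel_of_le hcb]; exact hc
    obtain ⟨γ, hγ, n, hn⟩ := (lt_omega0_opow hβ).1 h1
    have key : ∀ n : ℕ, ∃ z' < x, ∀ a ∈ A, z' < a → b + ω ^ γ * n ≤ f a := by
      intro n
      induction n with
      | zero => exact ⟨z, hz, by simpa using hb⟩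
      | succ n ihn =>
        obtain ⟨z', h2, h3⟩ := ihn
        obtain ⟨y, hy, h4, h5⟩ := hx.2 γ hγ z' h2
        refine ⟨y, h5, fun a ha hya => le_of_forall_lt fun d hd => ?_⟩
        rw [Nat.cast_succ, mul_add_one, ← add_assoc] at hd
        obtain ⟨a', ha', h6, h7⟩ := ih γ hγ y z' _ hy h4 h3 d hd
        exact h7.trans_lt (hf ha' ha (h6.trans_lt hya))
    obtain ⟨z', h2, h3⟩ := key n
    obtain ⟨a, ha, h4, h5⟩ := hx.1 z' h2
    refine ⟨a, ha, h5, le_trans ?_ (h3 a ha h4)⟩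
    rw [← Ordinal.add_sub_cancel_of_le hcb]
    exact add_le_add_right hn.le b

theorem Emb.opow_mul_le {A : Set ℝ} {o β : Ordinal.{0}} (h : Emb A o)
    (hβ : ∀ r : ℝ, ∃ x, r < x ∧ DD A β x) (n : ℕ) : ω ^ β * n ≤ o := by
  obtain ⟨f, hf, hfo⟩ := h
  have key : ∀ n : ℕ, ∃ z : ℝ, ∀ a ∈ A, z < a → ω ^ β * n ≤ f a := by
    intro n
    induction n with
    | zero => exact ⟨0, by simp⟩
    | succ n ih =>
      obtain ⟨z, hz⟩ := ih
      obtain ⟨x, hx, hd⟩ := hβ z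
      refine ⟨x, fun a ha hxa => le_of_forall_lt fun d hd' => ?_⟩
      rw [Nat.cast_succ, mul_add_one] at hd'
      obtain ⟨a', ha', h6, h7⟩ := dd_bound hf β x z _ hd hx hz d hd'
      exact h7.trans_lt (hf ha' ha (h6.trans_lt hxa))
  obtain ⟨z, hz⟩ := key n
  obtain ⟨x, hx, hd⟩ := hβ z
  obtain ⟨a, ha, h1, -⟩ := (dd_iff.1 hd).1 z hx
  exact (hz a ha h1).trans (hfo a ha).le

theorem dd_of_enum {A : Set ℝ} {o : Ordinal.{0}} {e : Ordinal.{0} → ℝ}
    (he : StrictMonoOn e (Iio o)) (heA : ∀ b < o, e b ∈ A) (β : Ordinal.{0}) :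
    ∀ b, b + ω ^ β < o → ∃ x, DD A β x ∧ e b ≤ x ∧ x ≤ e (b + ω ^ β) := by
  induction β using WellFoundedLT.induction with
  | ind β ih =>
    intro b hb
    have hbb : b < b + ω ^ β := lt_add_of_pos_right b (opow_pos β omega0_pos)
    rcases eq_or_ne β 0 with rfl | hβ
    · refine ⟨e b, dd_iff.2 ⟨fun z hz => ⟨e b, heA b (hbb.trans hb), hz, le_rfl⟩,
        fun γ hγ => absurd hγ (by simp)⟩, le_rfl, (he (hbb.trans hb) hb hbb).le⟩
    set S := e '' Ico b (b + ω ^ β) with hS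
    have hne : S.Nonempty := ⟨_, b, ⟨le_rfl, hbb⟩, rfl⟩
    have hup : e (b + ω ^ β) ∈ upperBounds S := by
      rintro _ ⟨c, hc, rfl⟩
      exact (he (hc.2.trans hb) hb hc.2).le
    have hle : ∀ c, b ≤ c → c < b + ω ^ β → e c ≤ sSup S := fun c h1 h2 =>
      le_csSup ⟨_, hup⟩ ⟨c, ⟨h1, h2⟩, rfl⟩
    have hadd : ∀ c d, b ≤ c → c < b + ω ^ β → d < ω ^ β → c + d < b + ω ^ β := by
      intro c d h1 h2 h3
      rw [← Ordinal.add_sub_cancel_of_le h1] at h2 ⊢
      rw [add_assoc, add_lt_add_iff_left]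
      exact isPrincipal_add_omega0_opow β ((add_lt_add_iff_left b).1 h2) h3
    refine ⟨sSup S, dd_iff.2 ⟨fun z hz => ?_, fun γ hγ z hz => ?_⟩, hle b le_rfl hbb,
      csSup_le hne hup⟩
    · obtain ⟨_, ⟨c, hc, rfl⟩, h⟩ := exists_lt_of_lt_csSup hne hz
      exact ⟨e c, heA c (hc.2.trans hb), h, hle c hc.1 hc.2⟩
    · obtain ⟨_, ⟨c, hc, rfl⟩, h⟩ := exists_lt_of_lt_csSup hne hz
      have h1 : c + ω ^ γ < b + ω ^ β :=
        hadd c _ hc.1 hc.2 ((opow_lt_opow_iff_right one_lt_omega0).2 hγ)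
      have h1' : b ≤ c + ω ^ γ := hc.1.trans le_self_add
      have h2 : c + ω ^ γ + 1 < b + ω ^ β :=
        hadd _ 1 h1' h1 ((one_lt_opow).2 ⟨one_lt_omega0, hβ⟩)
      obtain ⟨y, hy, h3, h4⟩ := ih γ hγ c (h1.trans hb)
      refine ⟨y, hy, h.trans_le h3, h4.trans_lt ?_⟩
      exact (he (h1.trans hb) (h2.trans hb) (lt_add_one _)).trans_le
        (hle _ (h1'.trans le_self_add) h2)

/-- The order type of a well ordered set of reals, read from its derivatives. -/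
theorem hasOrderType_opow {A : Set ℝ} (hA : A.IsWF) {ρ : Ordinal.{0}} (hne : A.Nonempty)
    (h1 : ∀ x, ¬ DD A ρ x) (h2 : ∀ β < ρ, ∀ r : ℝ, ∃ x, r < x ∧ DD A β x) :
    HasOrderType A (ω ^ ρ) := by
  classical
  have : WellFoundedLT A := ⟨hA⟩
  have h3 : Emb A (typeLT A) :=
    ⟨fun a => if h : a ∈ A then typein (α := A) (· < ·) ⟨a, h⟩ else 0, fun a ha b hb hab => by
      simp only [ha, hb, dif_pos]
      exact (typein_lt_typein _).2 hab, fun a ha => by
      simp only [ha, dif_pos]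
      exact typein_lt_type _ _⟩
  have h4 : typeLT A ≤ ω ^ ρ := by
    by_contra hc
    obtain ⟨x, hx, -⟩ := dd_of_enum (A := A) (o := typeLT A)
      (e := fun b => if h : b < typeLT A then (enum (α := A) (· < ·) ⟨b, h⟩ : A) else 0)
      (fun a ha b hb hab => by
        have ha' : a < typeLT A := ha
        have hb' : b < typeLT A := hb
        simp only [ha', hb', dif_pos]
        exact (enum_lt_enum (r := fun a b : A => a < b)).2 hab)
      (fun b hb => by simp only [hb, dif_pos]; exact Subtype.coe_prop _) ρ 0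
      (by rw [zero_add]; exact not_le.1 hc)
    exact h1 x hx
  have h5 : ω ^ ρ ≤ typeLT A := by
    rcases eq_or_ne ρ 0 with rfl | hρ
    · obtain ⟨f, -, hf⟩ := h3
      obtain ⟨a, ha⟩ := hne
      rw [opow_zero, Order.one_le_iff_pos]
      exact lt_of_le_of_lt zero_le (hf a ha)
    · refine le_of_forall_lt fun c hc => ?_
      obtain ⟨β, hβ, n, hn⟩ := (lt_omega0_opow hρ).1 hc
      exact hn.trans_le (h3.opow_mul_le (h2 β hβ) n)
  have h6 : typeLT A = typeLT (ω ^ ρ : Ordinal.{0}).ToType := by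
    rw [type_toType]; exact le_antisymm h4 h5
  obtain ⟨e⟩ := type_eq.1 h6
  exact ⟨OrderIso.ofRelIsoLT e⟩

/-- A well ordered set has no unbounded derivative of every order. -/
theorem exists_not_dd {A : Set ℝ} (hA : A.IsWF) : ∃ β, ¬ ∀ r : ℝ, ∃ x, r < x ∧ DD A β x := by
  classical
  have : WellFoundedLT A := ⟨hA⟩
  have h3 : Emb A (typeLT A) :=
    ⟨fun a => if h : a ∈ A then typein (α := A) (· < ·) ⟨a, h⟩ else 0, fun a ha b hb hab => by
      simp only [ha, hb, dif_pos]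
      exact (typein_lt_typein _).2 hab, fun a ha => by
      simp only [ha, dif_pos]
      exact typein_lt_type _ _⟩
  refine ⟨typeLT A + 1, fun h => ?_⟩
  have h4 := h3.opow_mul_le h 1
  rw [Nat.cast_one, mul_one] at h4
  exact absurd ((right_le_opow _ one_lt_omega0).trans h4) (not_le.2 (lt_add_one _))

end Pool.Agent.P.MP_94de62_al
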