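import Pool.Agent.P.MP_94de62_al.EqNF
import Pool.Agent.P.MP_94de62_al.EqLim
import Pool.Agent.P.MP_94de62_al.EqOrd

/-!
The lower bound: derived limits give derived growth rates.
-/

namespace Pool.Agent.P.MP_94de62_al

open Filter Topology Monoid Pointwise

variable {Γ : Type*} [Group Γ] {n : ℕ} {N N' : Set (Words Γ n)}

theorem evL_j {s : Fin n → Γ} (h : N ⊆ kerS s) (a : Γ) : evL h (jL N a) = a := rfl

/-- The generating set of the limit group with a letter adjoined. -/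
def genS (F : Subgroup Γ) (X : Set Γ) (N : Set (Words Γ n)) :
    Set (UG (F.map (jL N)) (Fin 1)) :=
  UG.c _ _ '' (jL N '' X ∪ Set.range (sL N)) ∪ Set.range (UG.t _)

/-- Its logarithmic growth rate. -/
noncomputable def ff (F : Subgroup Γ) (X : Set Γ) (N : Set (Words Γ n)) : ℝ :=
  ent (genS F X N ∪ (genS F X N)⁻¹)

variable {F : Subgroup Γ} {X : Set Γ}

theorem genS_finite (hX : X.Finite) : (genS F X N).Finite :=
  (((hX.image _).union (Set.finite_range _)).image _).union (Set.finite_range _)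

theorem closure_genS (hX : Subgroup.closure X = ⊤) : Subgroup.closure (genS F X N) = ⊤ := by
  refine UG.eq_top _ (fun a => ?_) fun i => Subgroup.subset_closure (Or.inr ⟨i, rfl⟩)
  obtain ⟨w, rfl⟩ := mkL_surjective N a
  let S := (Subgroup.closure (genS F X N)).comap ((UG.c _ (Fin 1)).comp (mkL N))
  change w ∈ S
  have h1 : ∀ g : Γ, Coprod.inl g ∈ S := fun g => by
    have : Subgroup.closure X ≤ S.comap Coprod.inl := (Subgroup.closure_le _).2 fun x hx =>
      Subgroup.subset_closure (Or.inl ⟨_, Or.inl ⟨x, hx, rfl⟩, rfl⟩)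
    exact this (hX ▸ Subgroup.mem_top g)
  have h2 : ∀ g : FreeGroup (Fin n), Coprod.inr g ∈ S := fun g => by
    have : Subgroup.closure (Set.range FreeGroup.of) ≤ S.comap Coprod.inr :=
      (Subgroup.closure_le _).2 (by
        rintro _ ⟨i, rfl⟩
        exact Subgroup.subset_closure (Or.inl ⟨_, Or.inr ⟨i, rfl⟩, rfl⟩))
    exact this (by rw [FreeGroup.closure_range_of]; trivial)
  induction w using Coprod.induction_on with
  | inl g => exact h1 g
  | inr g => exact h2 g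
  | mul a b ha hb => exact S.mul_mem ha hb

theorem image_genS {G : Type*} [Group G] (ψ : UG (F.map (jL N)) (Fin 1) →* G) {a : Γ → G}
    {s : Fin n → G} {y : Fin 1 → G} (h1 : ∀ g, ψ (UG.c _ _ (jL N g)) = a g)
    (h2 : ∀ i, ψ (UG.c _ _ (sL N i)) = s i) (h3 : ∀ i, ψ (UG.t _ i) = y i) :
    ψ '' genS F X N = a '' X ∪ Set.range s ∪ Set.range y := by
  simp only [genS, Set.image_union, Set.image_image, ← Set.range_comp, h1, Function.comp_def,
    h2, h3]

theorem comm_evL {s : Fin n → Γ} (h : N ⊆ kerS s) {y : Fin 1 → Γ}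
    (hy : ∀ a, ∀ f ∈ F, Commute f (y a)) : ∀ i, ∀ f ∈ F.map (jL N), Commute (evL h f) (y i) := by
  rintro i _ ⟨f, hf, rfl⟩
  exact hy i f hf

theorem image_genS_ev {s : Fin n → Γ} (h : N ⊆ kerS s) {y : Fin 1 → Γ}
    (hy : ∀ a, ∀ f ∈ F, Commute f (y a)) :
    UG.lift (evL h) y (comm_evL h hy) '' (genS F X N ∪ (genS F X N)⁻¹) =
      (X ∪ Set.range s ∪ Set.range y) ∪ (X ∪ Set.range s ∪ Set.range y)⁻¹ := by
  rw [image_sym, image_genS _ (a := id) (s := s) (y := y) (fun _ => rfl) (evL_s h)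
    (UG.lift_t _ _ _), Set.image_id]

omit [Group Γ] in
theorem tup_finite (hX : X.Finite) (s : Fin n → Γ) (y : Fin 1 → Γ) :
    (X ∪ Set.range s ∪ Set.range y).Finite :=
  (hX.union (Set.finite_range _)).union (Set.finite_range _)

theorem ent_le_ff (hX : X.Finite) {s : Fin n → Γ} (h : N ⊆ kerS s) {y : Fin 1 → Γ}
    (hy : ∀ a, ∀ f ∈ F, Commute f (y a)) :
    ent ((X ∪ Set.range s ∪ Set.range y) ∪ (X ∪ Set.range s ∪ Set.range y)⁻¹) ≤ ff F X N :=
  ent_le_ent ((tup_finite hX s y).union (tup_finite hX s y).inv)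
    ((genS_finite hX).union (genS_finite hX).inv) fun k => by
      rw [← image_genS_ev h hy]
      exact bn_image_le _ ((genS_finite hX).union (genS_finite hX).inv) k

theorem IsLimit.exists_sol (hen : EquationallyNoetherian Γ) (hN : IsLimit N)
    (W : Finset (Words Γ n)) :
    ∃ s : Fin n → Γ, N ⊆ kerS s ∧ ∀ w ∈ W, (w ∈ N ↔ evalAt s w = 1) := by
  classical
  obtain ⟨W', hW'⟩ := exists_nbhd hen N
  obtain ⟨s, hs⟩ := hN (W ∪ W')
  exact ⟨s, hW' _ (isLimit_kerS s) fun w hw => (hs w (Finset.mem_union_right _ hw)).symm,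
    fun w hw => hs w (Finset.mem_union_left _ hw)⟩

theorem ff_lt (hF : (F : Set Γ).Finite) (hX : X.Finite) (hX' : Subgroup.closure X = ⊤)
    (hN : IsLimit N) (hN' : IsLimit N') (hle : N ⊆ N') (hne : N' ≠ N) (hpos : 0 < ff F X N') :
    ff F X N' < ff F X N := by
  obtain ⟨w, hw', hw⟩ : ∃ w ∈ N', w ∉ N := by
    by_contra hc
    push Not at hc
    exact hne (Set.Subset.antisymm hc hle)
  have h : ∀ f ∈ F.map (jL N), piL hle f ∈ F.map (jL N') := by
    rintro _ ⟨f, hf, rfl⟩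
    exact ⟨f, hf, rfl⟩
  have e : UG.map (piL hle) h '' (genS F X N ∪ (genS F X N)⁻¹) =
      genS F X N' ∪ (genS F X N')⁻¹ := by
    rw [image_sym, image_genS _ (a := fun g => UG.c _ _ (jL N' g))
      (s := fun i => UG.c _ _ (sL N' i)) (y := UG.t _) (fun _ => rfl) (fun _ => rfl)
      (UG.map_t _ _)]
    simp only [genS, Set.image_union, Set.image_image, ← Set.range_comp, Function.comp_def]
  unfold ff at hpos ⊢
  rw [← e] at hpos ⊢
  refine ent_drop (piL hle) h ?_ ?_ (hF.image _) (w := mkL N w) ?_ (mkL_of_mem hw')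
    (genS_finite hX) (closure_genS hX') hpos
  · rintro _ ⟨f, hf, rfl⟩
    exact ⟨_, ⟨f, hf, rfl⟩, rfl⟩
  · rintro _ ⟨a, -, rfl⟩ _ ⟨b, -, rfl⟩ hab
    rw [hN'.jL_injective hab]
  · rintro ⟨f, -, hf⟩
    have h1 : jL N' f = jL N' 1 := by
      rw [map_one]
      exact (congrArg (piL hle) hf).trans (mkL_of_mem hw')
    rw [hN'.jL_injective h1, map_one] at hf
    exact hw (hN.mkL_eq_one.1 hf.symm)

section

variable (hen : EquationallyNoetherian Γ) (H : HypLen Γ) (hne : ¬ VirtuallyCyclic Γ)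
  (hF : (F : Set Γ).Finite)
  (hcore : ∀ R : ℝ, ∃ y : Fin 1 → Γ, (∀ a, ∀ f ∈ F, Commute f (y a)) ∧ Core H F y R)
  (hX : X.Finite) (hX' : Subgroup.closure X = ⊤) (hX'' : 4 * H.N * (H.K + 2) < X.ncard)

include hen hne hF hcore hX hX' hX''

theorem exists_apx {z : ℝ} (hz : z < ff F X N) :
    ∃ W : Finset (Words Γ n), ∀ s : Fin n → Γ, (∀ w ∈ W, (w ∈ N ↔ evalAt s w = 1)) →
      ∃ y : Fin 1 → Γ, (∀ a, ∀ f ∈ F, Commute f (y a)) ∧
        z < ent ((X ∪ Set.range s ∪ Set.range y) ∪ (X ∪ Set.range s ∪ Set.range y)⁻¹) := by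
  classical
  have hfin := (genS_finite (F := F) (N := N) hX).union (genS_finite (F := F) (N := N) hX).inv
  obtain ⟨k, -, hk⟩ := exists_good_n H.N_pos H.K _ (sub_pos.2 hz)
  have hb := ball_finite hfin k
  obtain ⟨W, h1, h2, h3⟩ := key_fin H hF (jL N) (hb.inv.mul hb)
  obtain ⟨W', hW'⟩ := exists_nbhd hen N
  set σ := Function.surjInv (mkL_surjective N) with hσ
  have hσ' : ∀ a, mkL N (σ a) = a := Function.surjInv_eq _
  refine ⟨W' ∪ (h1.image σ).toFinset, fun s hs => ?_⟩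
  have hle : N ⊆ kerS s :=
    hW' _ (isLimit_kerS s) fun w hw => (hs w (Finset.mem_union_left _ hw)).symm
  obtain ⟨R, hR⟩ := h3 (evL hle) (evL_j hle) fun w hw e => by
    have := (hs (σ w) (Finset.mem_union_right _
      ((Set.Finite.mem_toFinset _).2 ⟨w, hw, rfl⟩))).2 (by rw [← hσ' w] at e; exact e)
    exact h2 (by rw [← mkL_of_mem this, hσ']; exact hw)
  obtain ⟨y, hy, hy'⟩ := hcore R
  refine ⟨y, hy, ?_⟩
  have hgood := (H.good_of_large hne hX' hX''
    ((tup_finite hX s y).union (tup_finite hX s y).inv)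
    (Set.subset_union_left.trans (Set.subset_union_left.trans Set.subset_union_left))).1
  have := ent_gt_of_bn hfin hk (by
    rw [← image_genS_ev hle hy]
    refine bn_image_eq _ fun a ha b hb' hab => ?_
    by_contra hc
    exact hR y (comm_evL hle hy) hy' (a⁻¹ * b) (Set.mul_mem_mul (Set.inv_mem_inv.2 ha) hb')
      (fun e => hc (inv_mul_eq_one.1 e)) (by rw [map_mul, map_inv, hab, inv_mul_cancel])) hgood
  unfold ff at this
  linarith

theorem dd_of_derived (β : Ordinal.{0}) : ∀ N : Set (Words Γ n), Derived β N →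
    DD {x | ∃ S : Set Γ, S.Finite ∧ Subgroup.closure S = ⊤ ∧ ent (S ∪ S⁻¹) = x} β (ff F X N) := by
  classical
  induction β using WellFoundedLT.induction with
  | ind β ih =>
    intro N hN
    rw [Derived] at hN
    rw [dd_iff]
    refine ⟨fun z hz => ?_, fun γ hγ z hz => ?_⟩
    · obtain ⟨W, hW⟩ := exists_apx hen H hne hF hcore hX hX' hX'' hz
      obtain ⟨s, h1, h2⟩ := hN.1.exists_sol hen W
      obtain ⟨y, hy, hy'⟩ := hW s h2
      exact ⟨_, ⟨_, tup_finite hX s y, top_le_iff.1 (hX' ▸ Subgroup.closure_mono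
        (Set.subset_union_left.trans Set.subset_union_left)), rfl⟩, hy', ent_le_ff hX h1 hy⟩
    · obtain ⟨W, hW⟩ := exists_apx hen H hne hF hcore hX hX' hX'' hz
      obtain ⟨W', hW'⟩ := exists_nbhd hen N
      obtain ⟨N', h1, h2, h3⟩ := hN.2 ⟨γ, hγ⟩ (W ∪ W')
      have hN' : IsLimit N' := by rw [Derived] at h1; exact h1.1
      obtain ⟨s, h4, h5⟩ := hN'.exists_sol hen W
      obtain ⟨y, hy, hy'⟩ := hW s fun w hw =>
        (h3 w (Finset.mem_union_left _ hw)).symm.trans (h5 w hw)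
      have h6 := ent_le_ff hX h4 hy
      refine ⟨_, ih γ hγ N' h1, hy'.trans_le h6, ff_lt hF hX hX' hN.1 hN'
        (hW' N' hN' fun w hw => h3 w (Finset.mem_union_right _ hw)) h2 (lt_of_lt_of_le ?_ h6)⟩
      exact (H.good_of_large hne hX' hX'' ((tup_finite hX s y).union (tup_finite hX s y).inv)
        (Set.subset_union_left.trans (Set.subset_union_left.trans Set.subset_union_left))).2

end

theorem exists_large (H : HypLen Γ) (hne : ¬ VirtuallyCyclic Γ) (hX : X.Finite)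
    (hX' : Subgroup.closure X = ⊤) (r : ℝ) : ∃ Y : Set Γ, Y.Finite ∧ Subgroup.closure Y = ⊤ ∧
      4 * H.N * (H.K + 2) < Y.ncard ∧ ∀ S : Set Γ, S.Finite → Y ⊆ S → r < ent S := by
  have : Infinite Γ := by
    by_contra hc
    rw [not_infinite_iff_finite] at hc
    exact hne (VirtuallyCyclic.of_finite Γ)
  set m := ⌈Real.exp ((1 + H.K) * r + Real.log (4 * H.N * (1 + H.K + 1)))⌉₊ with hm
  obtain ⟨B, hB⟩ := Infinite.exists_subset_card_eq Γ (4 * H.N * (H.K + 2) + 1 + m)
  have h0 : (X ∪ B).Finite := hX.union B.finite_toSet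
  have h1 : Subgroup.closure (X ∪ B) = ⊤ :=
    top_le_iff.1 (hX' ▸ Subgroup.closure_mono Set.subset_union_left)
  have h2 : B.card ≤ (X ∪ B).ncard := by
    rw [← Set.ncard_coe_finset]
    exact Set.ncard_le_ncard Set.subset_union_right h0
  refine ⟨X ∪ B, h0, h1, by omega, fun S hS hsub => ?_⟩
  have h4 := (H.good_of_large hne h1 (by omega) hS hsub).1 1
  have h5 : m < bn S 1 := lt_of_lt_of_le (by omega) (h2.trans ((Set.ncard_le_ncard hsub hS).trans
    (Set.ncard_le_ncard (fun s hs => mem_ball_one hs) (ball_finite hS 1))))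
  have h6 : (1 + H.K) * r + Real.log (4 * H.N * (1 + H.K + 1)) < Real.log (bn S 1) := by
    rw [Real.lt_log_iff_exp_lt (by linarith [one_le_bn hS 1])]
    exact (Nat.le_ceil _).trans_lt (Nat.cast_lt.2 h5)
  push_cast at h4
  exact lt_of_mul_lt_mul_left (a := (1 + H.K : ℝ)) (by linarith) (by positivity)

theorem unbounded_of_derived (hen : EquationallyNoetherian Γ) (H : HypLen Γ)
    (hne : ¬ VirtuallyCyclic Γ) (hX : X.Finite) (hX' : Subgroup.closure X = ⊤)
    {β : Ordinal.{0}} (hN : Derived β N) (r : ℝ) : ∃ x, r < x ∧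
      DD {x | ∃ S : Set Γ, S.Finite ∧ Subgroup.closure S = ⊤ ∧ ent (S ∪ S⁻¹) = x} β x := by
  obtain ⟨F, hF, hcore⟩ := H.exists_core_en hen hne
  obtain ⟨Y, h1, h2, h3, h4⟩ := exists_large H hne hX hX' r
  refine ⟨_, ?_, dd_of_derived hen H hne hF (hcore 1) h1 h2 h3 β N hN⟩
  have hN' : IsLimit N := by rw [Derived] at hN; exact hN.1
  obtain ⟨s, hs, -⟩ := hN'.exists_sol hen ∅
  refine lt_of_lt_of_le (h4 _ ((tup_finite h1 s 1).union (tup_finite h1 s 1).inv)
    (Set.subset_union_left.trans (Set.subset_union_left.trans Set.subset_union_left)))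
    (ent_le_ff h1 hs fun _ _ _ => Commute.one_right _)

end Pool.Agent.P.MP_94de62_al
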