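import Pool.Agent.P.MP_94de62_al.EqLow

/-!
The upper bound and the order types.
-/

namespace Pool.Agent.P.MP_94de62_al

open Filter Topology Pointwise Ordinal

variable {Γ : Type*} [Group Γ] {n : ℕ}

theorem Derived.anti {β γ : Ordinal.{0}} {N : Set (Words Γ n)} (h : Derived β N) (hγ : γ ≤ β) :
    Derived γ N := by
  rw [Derived] at h ⊢
  exact ⟨h.1, fun δ => h.2 ⟨δ.1, lt_of_lt_of_le δ.2 hγ⟩⟩

theorem tendsto_of_near {I : Type*} {𝓕 : Filter I} {k : I → ℕ} (hk : Tendsto k 𝓕 atTop)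
    {a : I → ℝ} {x : ℝ} (h1 : ∀ i, x - 1 / ((k i : ℝ) + 1) < a i) (h2 : ∀ i, a i ≤ x) :
    Tendsto a 𝓕 (𝓝 x) := by
  have : Tendsto (fun i => x - 1 / ((k i : ℝ) + 1)) 𝓕 (𝓝 (x - 0)) :=
    (tendsto_one_div_add_atTop_nhds_zero_nat.comp hk).const_sub x
  rw [_root_.sub_zero] at this
  exact tendsto_of_tendsto_of_tendsto_of_le_of_le this tendsto_const_nhds
    (fun i => (h1 i).le) h2

theorem derived_of_dd (hen : EquationallyNoetherian Γ) {M K : ℕ} (hM : 0 < M)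
    (β : Ordinal.{0}) : ∀ x, DD (goodVals Γ M K n) β x →
      ∃ N : Set (Words Γ n), Derived β N ∧ GoodSet M K (Set.range (sL N)) ∧ hh N = x := by
  induction β using WellFoundedLT.induction with
  | ind β ih =>
    intro x hx
    rw [dd_iff] at hx
    have hlt : ∀ k : ℕ, x - 1 / ((k : ℝ) + 1) < x := fun k =>
      sub_lt_self _ Nat.one_div_pos_of_nat
    rcases eq_or_ne β 0 with rfl | hβ
    · choose a ha h1 h2 using fun k : ℕ => hx.1 _ (hlt k)
      choose s hs1 hs2 using ha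
      obtain ⟨N, g1, g2, g3, -⟩ := exists_cluster hen hM atTop (fun k => kerS (s k))
        (fun k => isLimit_kerS _) (fun k => good_kerS (hs1 k)) (x := x)
        (by simpa only [hh_kerS, hs2] using tendsto_of_near tendsto_id h1 h2)
      refine ⟨N, ?_, g2, g3⟩
      rw [Derived]
      exact ⟨g1, fun γ => absurd γ.2 (by simp)⟩
    · have : Nonempty (Set.Iio β) := ⟨⟨0, pos_iff_ne_zero.2 hβ⟩⟩
      choose a ha h1 h2 using fun i : Set.Iio β × ℕ => hx.2 i.1.1 i.1.2 _ (hlt i.2)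
      choose P hP1 hP2 hP3 using fun i : Set.Iio β × ℕ => ih i.1.1 i.1.2 _ (ha i)
      obtain ⟨N, g1, g2, g3, g4⟩ := exists_cluster hen hM (atTop ×ˢ atTop) P
        (fun i => by have := hP1 i; rw [Derived] at this; exact this.1) hP2 (x := x)
        (by simpa only [hP3] using tendsto_of_near tendsto_snd h1 fun i => (h2 i).le)
      refine ⟨N, ?_, g2, g3⟩
      rw [Derived]
      refine ⟨g1, fun γ W => ?_⟩
      obtain ⟨i, hi, hi'⟩ := g4 W (fun i => γ ≤ i.1) (tendsto_fst.eventually (eventually_ge_atTop γ))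
      refine ⟨P i, (hP1 i).anti hi, fun e => ?_, hi'⟩
      have := h2 i
      rw [← hP3 i, e, g3] at this
      exact lt_irrefl _ this

theorem exists_cover (H : HypLen Γ) (a : ℝ) : ∃ (m : ℕ) (E : Set ℝ), E.Finite ∧
    {x | ∃ S : Set Γ, S.Finite ∧ ¬ VirtuallyCyclic (Subgroup.closure S) ∧ ent S = x} ∩ Set.Iic a ⊆
      goodVals Γ H.N H.K m ∪ E := by
  refine ⟨⌈Real.exp ((1 + H.K) * a + Real.log (4 * H.N * (1 + H.K + 1)))⌉₊,
    ent '' {S : Set Γ | S ⊆ {g | H.L g ≤ 100 * H.δ}},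
    (H.finite_ball _).finite_subsets.image _, ?_⟩
  rintro _ ⟨⟨S, h1, h2, rfl⟩, h3⟩
  rcases H.good_or_small h1 h2 with h | ⟨y, hy⟩
  · have h4 := h 1
    have h5 : S.ncard ≤ bn S 1 :=
      Set.ncard_le_ncard (fun s hs => mem_ball_one hs) (ball_finite h1 1)
    have h6 : (bn S 1 : ℝ) ≤ Real.exp ((1 + H.K) * a + Real.log (4 * H.N * (1 + H.K + 1))) := by
      rw [← Real.log_le_iff_le_exp (by linarith [one_le_bn h1 1])]
      have h3' : ent S ≤ a := h3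
      have : (1 + H.K : ℝ) * ent S ≤ (1 + H.K) * a := by gcongr
      push_cast at h4
      linarith
    have h7 := h5.trans (Nat.cast_le.1 (h6.trans (Nat.le_ceil _)))
    generalize ⌈Real.exp ((1 + H.K) * a + Real.log (4 * H.N * (1 + H.K + 1)))⌉₊ = m at h7
    have := h1.fintype
    have := (nonempty_of_not_vc h2).to_subtype
    obtain ⟨e⟩ : Nonempty (S ↪ Fin m) := Function.Embedding.nonempty_of_card_le (by
      rwa [Fintype.card_fin, ← Nat.card_eq_fintype_card])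
    have he : Set.range (Subtype.val ∘ Function.invFun e) = S := by
      rw [(Function.invFun_surjective e.injective).range_comp, Subtype.range_coe]
    exact Or.inl ⟨_, by rw [he]; exact h, by rw [he]⟩
  · refine Or.inr ⟨(MulAut.conj y⁻¹).toMonoidHom '' S, ?_,
      ent_congr fun n => bn_image_eq _ (MulAut.conj y⁻¹).injective.injOn⟩
    rintro _ ⟨s, hs, rfl⟩
    simpa using hy s hs

theorem orderTypes_en (hyp : IsHyperbolicGroup Γ) (hne : ¬ VirtuallyCyclic Γ)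
    (hen : EquationallyNoetherian Γ) :
    HasOrderType (xiSet Γ) (ω ^ limitRank Γ) ∧ HasOrderType (thetaSet Γ) (ω ^ limitRank Γ) ∧
      HasOrderType (deltaSet Γ) (ω ^ limitRank Γ) := by
  obtain ⟨⟨H⟩, X, hX, hX'⟩ := hyp.hypLen
  set A₁ := {x | ∃ S : Set Γ, S.Finite ∧ Subgroup.closure S = ⊤ ∧ ent (S ∪ S⁻¹) = x} with hA₁
  set A₂ := {x | ∃ S : Set Γ, S.Finite ∧ ¬ VirtuallyCyclic (Subgroup.closure S) ∧
    ent (S ∪ S⁻¹) = x} with hA₂
  set A₃ := {x | ∃ S : Set Γ, S.Finite ∧ ¬ VirtuallyCyclic (Subgroup.closure S) ∧ ent S = x}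
    with hA₃
  have h12 : A₁ ⊆ A₂ := fun _ ⟨S, h1, h2, h3⟩ =>
    ⟨S, h1, fun h => hne (h.of_closure_eq_top h2), h3⟩
  have h23 : A₂ ⊆ A₃ := fun _ ⟨S, h1, h2, h3⟩ =>
    ⟨S ∪ S⁻¹, h1.union h1.inv, by
      rwa [Subgroup.closure_union, Subgroup.closure_inv, sup_idem], h3⟩
  have hwf : A₃.IsWF := Set.isWF_iff_no_descending_seq.2 fun f hf hmem => by
    obtain ⟨m, E, hE, hc⟩ := exists_cover H (f 0)
    exact Set.isWF_iff_no_descending_seq.1 ((isWF_goodVals hen H.N_pos H.K m).union hE.isWF) f hf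
      fun k => hc ⟨hmem k, hf.antitone (Nat.zero_le k)⟩
  have hlow : ∀ {β : Ordinal.{0}}, (¬ ∀ (n : ℕ) (N : Set (Words Γ n)), ¬ Derived β N) →
      ∀ r : ℝ, ∃ x, r < x ∧ DD A₁ β x := fun h r => by
    push Not at h
    obtain ⟨n, N, hN⟩ := h
    exact unbounded_of_derived hen H hne hX hX' hN r
  have hρ : ∀ (n : ℕ) (N : Set (Words Γ n)), ¬ Derived (limitRank Γ) N := by
    obtain ⟨β, hβ⟩ := exists_not_dd (hwf.mono (h12.trans h23))
    exact csInf_mem (s := {β | ∀ (n : ℕ) (N : Set (Words Γ n)), ¬ Derived β N})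
      ⟨β, by_contra fun h => hβ (hlow h)⟩
  have hρ0 : limitRank Γ ≠ 0 := fun h => hρ 0 (kerS fun _ => 1) (by
    rw [h, Derived]
    exact ⟨isLimit_kerS _, fun γ => absurd γ.2 (by simp)⟩)
  have hup : ∀ x, ¬ DD A₃ (limitRank Γ) x := fun x hx => by
    obtain ⟨m, E, hE, hc⟩ := exists_cover H x
    obtain ⟨N, hN, -⟩ := derived_of_dd hen H.N_pos _ x
      (DD.localize hE hc _ x le_rfl (Or.inr hρ0) hx)
    exact hρ m N hN
  have key : ∀ A, A₁ ⊆ A → A ⊆ A₃ → HasOrderType (Real.exp '' A) (ω ^ limitRank Γ) :=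
    fun A h1 h3 => (hasOrderType_opow (hwf.mono h3) ⟨_, h1 ⟨X, hX, hX', rfl⟩⟩
      (fun x hx => hup x (DD.mono h3 _ x hx)) fun β hβ r =>
        (hlow (notMem_of_lt_csInf' hβ) r).imp fun x hx => ⟨hx.1, DD.mono h1 _ x hx.2⟩).exp
  have e1 : xiSet Γ = Real.exp '' A₁ := by
    ext r
    constructor
    · rintro ⟨S, h1, h2, h3⟩
      exact ⟨_, ⟨S, h1, h2, rfl⟩, ((hasGrowthRate_groupBall h1).1 h3).symm⟩
    · rintro ⟨_, ⟨S, h1, h2, rfl⟩, rfl⟩
      exact ⟨S, h1, h2, (hasGrowthRate_groupBall h1).2 rfl⟩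
  have e2 : thetaSet Γ = Real.exp '' A₂ := by
    ext r
    constructor
    · rintro ⟨S, h1, h2, h3⟩
      exact ⟨_, ⟨S, h1, h2, rfl⟩, ((hasGrowthRate_groupBall h1).1 h3).symm⟩
    · rintro ⟨_, ⟨S, h1, h2, rfl⟩, rfl⟩
      exact ⟨S, h1, h2, (hasGrowthRate_groupBall h1).2 rfl⟩
  have e3 : deltaSet Γ = Real.exp '' A₃ := by
    ext r
    constructor
    · rintro ⟨S, h1, h2, h3⟩
      exact ⟨_, ⟨S, h1, h2, rfl⟩,
        ((hasGrowthRate_semigroupBall h1 (nonempty_of_not_vc h2)).1 h3).symm⟩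
    · rintro ⟨_, ⟨S, h1, h2, rfl⟩, rfl⟩
      exact ⟨S, h1, h2, (hasGrowthRate_semigroupBall h1 (nonempty_of_not_vc h2)).2 rfl⟩
  rw [e1, e2, e3]
  exact ⟨key _ subset_rfl (h12.trans h23), key _ h12 h23, key _ (h12.trans h23) subset_rfl⟩

end Pool.Agent.P.MP_94de62_al
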