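import Pool.Agent.P.MP_94de62_al.EqDrop

/-!
Normal forms after adjoining free letters, and discriminating homomorphisms.
-/

namespace Pool.Agent.P.MP_94de62_al

variable {L : Type*} [Group L] {F : Subgroup L} {ι : Type*}

/-- Elements with a reduced form. -/
def NF (x : UG F ι) : Prop :=
  ∃ (w₀ : L) (l : List ((ι × Bool) × L)), Reduced F l ∧
    x = UG.c F ι w₀ * wordVal (UG.c F ι) (UG.t F) l

theorem NF.const {x : UG F ι} (h : NF x) (γ : L) : NF (UG.c F ι γ * x) := by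
  obtain ⟨w, l, h1, rfl⟩ := h
  exact ⟨γ * w, l, h1, by rw [map_mul, mul_assoc]⟩

theorem NF.letter {x : UG F ι} (h : NF x) (i : ι) (ε : Bool) : NF (sg (UG.t F i) ε * x) := by
  obtain ⟨w, l, h1, rfl⟩ := h
  by_cases hr : Reduced F (((i, ε), w) :: l)
  · exact ⟨1, _, hr, by rw [wordVal_cons, map_one, one_mul, mul_assoc]⟩
  match l, h1, hr with
  | [], _, hr => exact absurd (List.isChain_singleton _) hr
  | ((j, ε'), w') :: l, h1, hr =>
    have h3 : j = i ∧ ε' = !ε ∧ w ∈ F := by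
      by_contra hc
      exact hr (List.isChain_cons_cons.2 ⟨hc, h1⟩)
    obtain ⟨rfl, rfl, hw⟩ := h3
    refine ⟨w * w', l, List.IsChain.tail h1, ?_⟩
    have hc := (UG.comm hw j).eq
    rw [wordVal_cons, map_mul]
    cases ε
    · simp only [sg, Bool.not_false, cond_true, cond_false]
      rw [← mul_assoc, ← mul_assoc, ← mul_assoc, mul_assoc (UG.t F j)⁻¹, mul_assoc (UG.t F j)⁻¹,
        hc]
      group
    · simp only [sg, Bool.not_true, cond_true, cond_false]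
      rw [← mul_assoc, ← hc]
      group

theorem nf_all (x : UG F ι) : NF x := by
  let U : Subgroup (UG F ι) :=
    { carrier := {a | ∀ z, NF z → NF (a * z) ∧ NF (a⁻¹ * z)}
      one_mem' := fun z hz => by simpa using hz
      mul_mem' := fun {a b} ha hb z hz =>
        ⟨by rw [mul_assoc]; exact (ha _ (hb z hz).1).1,
          by rw [mul_inv_rev, mul_assoc]; exact (hb _ (ha z hz).2).2⟩
      inv_mem' := fun {a} ha z hz => ⟨(ha z hz).2, by rw [inv_inv]; exact (ha z hz).1⟩ }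
  have hU : U = ⊤ := UG.eq_top U
    (fun a z hz => ⟨hz.const a, by rw [← map_inv]; exact hz.const _⟩)
    fun i z hz => ⟨hz.letter i true, hz.letter i false⟩
  have := ((hU ▸ Subgroup.mem_top x : x ∈ U) 1
    ⟨1, [], List.isChain_nil, by simp [wordVal]⟩).1
  rwa [mul_one] at this

variable {Γ : Type*} [Group Γ]

/-- The letters `y` satisfy no reduced relation with constants of length at most `R`. -/
def Core (H : HypLen Γ) (F : Subgroup Γ) (y : ι → Γ) (R : ℝ) : Prop :=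
  ∀ (w₀ : Γ) (l : List ((ι × Bool) × Γ)), l ≠ [] → Reduced F l → H.L w₀ ≤ R →
    (∀ x ∈ l, H.L x.2 ≤ R) → w₀ * wordVal (MonoidHom.id Γ) y l ≠ 1

theorem Core.mono {H : HypLen Γ} {F : Subgroup Γ} {y : ι → Γ} {R R' : ℝ} (h : Core H F y R)
    (hR : R' ≤ R) : Core H F y R' := fun w l h1 h2 h3 h4 =>
  h w l h1 h2 (h3.trans hR) fun x hx => (h4 x hx).trans hR

theorem key_one (H : HypLen Γ) {F : Subgroup Γ} (hF : (F : Set Γ).Finite) (j : Γ →* L)
    {x : UG (F.map j) ι} (hx : x ≠ 1) : ∃ W : Set L, W.Finite ∧ 1 ∉ W ∧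
      ∀ φ : L →* Γ, (∀ a, φ (j a) = a) → (∀ w ∈ W, φ w ≠ 1) → ∃ R : ℝ, ∀ (y : ι → Γ)
        (hy : ∀ i, ∀ f ∈ F.map j, Commute (φ f) (y i)), Core H F y R → UG.lift φ y hy x ≠ 1 := by
  obtain ⟨w, l, h1, rfl⟩ := nf_all x
  have hfin : (insert w (Set.image2 (fun (f : Γ) (z : (ι × Bool) × L) => (j f)⁻¹ * z.2) F
      {z | z ∈ l})).Finite := (hF.image2 _ l.finite_toSet).insert _
  refine ⟨_ \ {1}, hfin.sdiff, by simp, fun φ hφ hW => ?_⟩
  set l' : List ((ι × Bool) × Γ) := l.map fun z => (z.1, φ z.2) with hl'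
  obtain ⟨R, hR⟩ := (l'.finite_toSet.image fun z => H.L z.2).bddAbove
  refine ⟨max R (H.L (φ w)), fun y hy hc => ?_⟩
  have e : UG.lift φ y hy (wordVal (UG.c _ ι) (UG.t _) l) = wordVal (MonoidHom.id Γ) y l' := by
    rw [map_wordVal, show UG.lift φ y hy ∘ UG.t _ = y from funext fun i => by simp]
    simp only [wordVal, hl', List.map_map]
    rfl
  rw [map_mul, e, UG.lift_c]
  by_cases hl : l = []
  · subst hl
    simp only [hl', wordVal, List.map_nil, List.prod_nil, mul_one] at hx ⊢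
    exact hW w ⟨Set.mem_insert _ _, fun h => hx (by rw [show w = 1 from h, map_one])⟩
  · refine hc _ _ (by simpa [hl'] using hl) ?_ (le_max_right _ _)
      fun z hz => (hR ⟨z, hz, rfl⟩).trans (le_max_left _ _)
    refine List.isChain_map_of_isChain _ (fun a b hab => ?_)
      (R := fun a b => a ∈ l ∧ ¬ (b.1.1 = a.1.1 ∧ b.1.2 = !a.1.2 ∧ a.2 ∈ F.map j))
      (List.IsChain.iff_mem.1 h1 |>.imp fun _ _ h => ⟨h.1, h.2.2⟩)
    rintro ⟨g1, g2, g3⟩
    refine hW ((j (φ a.2))⁻¹ * a.2) ⟨Or.inr ⟨_, g3, a, hab.1, rfl⟩, fun h => ?_⟩ ?_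
    · exact hab.2 ⟨g1, g2, _, g3, inv_mul_eq_one.1 h⟩
    · rw [map_mul, map_inv, hφ, inv_mul_cancel]

theorem key_fin (H : HypLen Γ) {F : Subgroup Γ} (hF : (F : Set Γ).Finite) (j : Γ →* L)
    {B : Set (UG (F.map j) ι)} (hB : B.Finite) : ∃ W : Set L, W.Finite ∧ 1 ∉ W ∧
      ∀ φ : L →* Γ, (∀ a, φ (j a) = a) → (∀ w ∈ W, φ w ≠ 1) → ∃ R : ℝ, ∀ (y : ι → Γ)
        (hy : ∀ i, ∀ f ∈ F.map j, Commute (φ f) (y i)), Core H F y R →
          ∀ x ∈ B, x ≠ 1 → UG.lift φ y hy x ≠ 1 := by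
  induction B, hB using Set.Finite.induction_on with
  | empty => exact ⟨∅, Set.finite_empty, by simp, fun _ _ _ => ⟨0, fun _ _ _ _ h => h.elim⟩⟩
  | @insert a s _ _ ih =>
    obtain ⟨W, h1, h2, h3⟩ := ih
    by_cases ha : a = 1
    · refine ⟨W, h1, h2, fun φ g1 g2 => (h3 φ g1 g2).imp fun R hR y hy hc x hx hx1 => ?_⟩
      exact hR y hy hc x (hx.resolve_left fun e => hx1 (e.trans ha)) hx1
    obtain ⟨W', h1', h2', h3'⟩ := key_one H hF j ha
    refine ⟨W ∪ W', h1.union h1', fun h => h.elim h2 h2', fun φ g1 g2 => ?_⟩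
    obtain ⟨R, hR⟩ := h3 φ g1 fun w hw => g2 w (Or.inl hw)
    obtain ⟨R', hR'⟩ := h3' φ g1 fun w hw => g2 w (Or.inr hw)
    refine ⟨max R R', fun y hy hc x hx hx1 => ?_⟩
    rcases hx with rfl | hx
    · exact hR' y hy (hc.mono (le_max_right _ _))
    · exact hR y hy (hc.mono (le_max_left _ _)) x hx hx1

end Pool.Agent.P.MP_94de62_al
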