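import Pool.Agent.P.MP_94de62_al.Ball

/-!
A uniform lower bound for growth rates in terms of the size of a ball.
-/

namespace Pool.Agent.P.MP_94de62_al

open Filter Pointwise

theorem VirtuallyCyclic.of_surjective {A B : Type*} [Group A] [Group B] (φ : A →* B)
    (hφ : Function.Surjective φ) (h : VirtuallyCyclic A) : VirtuallyCyclic B := by
  obtain ⟨C, h1, h2⟩ := h
  refine ⟨C.map φ, isCyclic_of_surjective (φ.subgroupMap C) (φ.subgroupMap_surjective C), ⟨?_⟩⟩
  intro h0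
  have := C.index_map_dvd hφ
  rw [h0, zero_dvd_iff] at this
  exact h2.index_ne_zero this

theorem VirtuallyCyclic.closure_image {A B : Type*} [Group A] [Group B] (φ : A →* B) {S : Set A}
    (h : VirtuallyCyclic (Subgroup.closure S)) : VirtuallyCyclic (Subgroup.closure (φ '' S)) := by
  rw [← MonoidHom.map_closure]
  exact h.of_surjective (φ.subgroupMap _) (φ.subgroupMap_surjective _)

/-- The growth rate is bounded below by the ball sizes, with explicit losses. -/
def GoodSet {G : Type*} [Group G] (N K : ℕ) (S : Set G) : Prop :=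
  ∀ n : ℕ, Real.log (bn S n) - Real.log (4 * N * (n + K + 1)) ≤ (n + K) * ent S

namespace HypLen

variable {Γ : Type*} [Group Γ] (H : HypLen Γ)

/-- Short exponent. -/
noncomputable def M₀ : ℕ := 8 * H.N + 48

/-- Long exponent. -/
noncomputable def M₁ : ℕ := 112 * H.N + 676

/-- Length of the separators. -/
noncomputable def K : ℕ := 3 + 2 * H.M₁ + 2 * H.M₀

/-- Elements that end with the separator and do not cancel with it. -/
def Nice (g σ y : Γ) : Prop :=
  H.p y (g ^ H.M₀)⁻¹ ≤ (H.N + 5) * H.L g ∧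
    H.L (g ^ H.M₁) - (H.N + 6) * H.L g ≤ H.p (y * (σ * g ^ H.M₀)⁻¹)⁻¹ (g ^ H.M₁)⁻¹

variable {H}

theorem choice {g g' z : Γ} (hg : H.Straight g) (hg' : g' = g ∨ g' = g⁻¹)
    (hzE : z ∉ elem (g ^ H.N.factorial)) (hz : H.L z ≤ H.L g) (x : Γ) (I : ℕ) :
    H.p x (g' ^ I) ≤ (H.N + 5) * H.L g ∨ H.p (z * x) (g' ^ I) ≤ (H.N + 5) * H.L g := by
  by_contra hcon
  push Not at hcon
  have h1 := H.p_mul_mul_ge z x (g' ^ I)
  have h2 := H.fourA (a := g' ^ I) (b := z * g' ^ I) (c := z * x) (t := (H.N + 4) * H.L g)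
    (by rw [p_comm]; linarith [hg.L_pos]) (by linarith)
  have h3 := overlap_lt hg hg' hg' hzE (K := 1) (by simpa using hz) I I
  have := hg.long
  have := H.δ_pos
  push_cast at h3
  linarith

section

variable {g σ : Γ} (hg : H.Straight g) (hσE : σ ∉ elem (g ^ H.N.factorial)) (hσ : H.L σ ≤ H.L g)
include hg hσE hσ

theorem exists_nice (w : Γ) : ∃ a b : Bool,
    H.Nice g σ ((if a then σ else 1) * w * (if b then σ else 1) * g ^ H.M₁ * σ * g ^ H.M₀) := by
  have hlp := hg.L_pos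
  obtain ⟨b, hb⟩ : ∃ b : Bool,
      H.p (w * (if b then σ else 1))⁻¹ (g ^ H.M₁) ≤ (H.N + 5) * H.L g := by
    rcases choice hg (Or.inl rfl) (z := σ⁻¹) (fun h => hσE (by simpa using (elem _).inv_mem h))
      (by simpa using hσ) w⁻¹ H.M₁ with h | h
    · exact ⟨false, by simpa using h⟩
    · exact ⟨true, by simpa using h⟩
  set w' := w * (if b then σ else 1) with hw'
  obtain ⟨a, ha⟩ : ∃ a : Bool, H.p ((if a then σ else 1) * (w' * g ^ H.M₁ * σ * g ^ H.M₀))
      (g ^ H.M₀)⁻¹ ≤ (H.N + 5) * H.L g := by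
    rcases choice hg (Or.inr rfl) hσE hσ (w' * g ^ H.M₁ * σ * g ^ H.M₀) H.M₀ with h | h
    · exact ⟨false, by simpa using h⟩
    · exact ⟨true, by simpa using h⟩
  have hc : H.L (if a then σ else 1) ≤ H.L g := by cases a <;> simp [hσ, hlp.le]
  refine ⟨a, b, ?_, ?_⟩
  · convert ha using 2
    rw [hw']; group
  · set c : Γ := if a then σ else 1
    have e : (c * w * (if b then σ else 1) * g ^ H.M₁ * σ * g ^ H.M₀ * (σ * g ^ H.M₀)⁻¹)⁻¹ =
        (g ^ H.M₁)⁻¹ * (w'⁻¹ * c⁻¹) := by rw [hw']; group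
    have h1 := H.p_mul_self (g ^ H.M₁)⁻¹ (w'⁻¹ * c⁻¹)
    have h2 := H.p_mul_right_le (g ^ H.M₁) w'⁻¹ c⁻¹
    rw [inv_inv, L_inv] at h1
    rw [L_inv, H.p_comm _ w'⁻¹] at h2
    rw [e, p_comm]
    linarith

theorem Nice.back {y : Γ} (hy : H.Nice g σ y) :
    H.L (g ^ H.M₀) - (H.N + 5) * H.L g ≤ H.p y⁻¹ (g ^ H.M₀)⁻¹ := by
  have hl := hg.long
  have hδ := H.δ_pos
  have hN : (0 : ℝ) ≤ H.N := Nat.cast_nonneg _
  set v := y * (σ * g ^ H.M₀)⁻¹ with hv
  have h1 := overlap_lt hg (Or.inr rfl) (Or.inl rfl) hσE (K := 1) (by simpa using hσ) H.M₁ H.M₀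
  have h2 := hg.L_ge_half H.M₁
  have h3 := hy.2
  rw [← hv] at h3
  rw [inv_pow, p_comm] at h1
  have e1 : (H.M₁ : ℝ) = 112 * H.N + 676 := by simp [M₁]
  push_cast at h1
  have h4 := H.fourB (c := v⁻¹) h1.le (by rw [p_comm]; rw [e1] at h2; nlinarith)
  have h5 := H.p_mul_self (g ^ H.M₀)⁻¹ (σ⁻¹ * v⁻¹)
  have h6 := H.p_mul_mul_le σ⁻¹ (σ * g ^ H.M₀) v⁻¹
  rw [inv_mul_cancel_left, L_inv] at h6
  rw [inv_inv, L_inv, show (g ^ H.M₀)⁻¹ * (σ⁻¹ * v⁻¹) = y⁻¹ by rw [hv]; group] at h5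
  rw [p_comm]
  linarith

theorem Nice.back' {y : Γ} (hy : H.Nice g σ y) :
    (3 * H.N + 19) * H.L g ≤ H.p y⁻¹ (g ^ H.M₀)⁻¹ := by
  have h1 := hy.back hg hσE hσ
  have h2 := hg.L_ge_half H.M₀
  have e1 : (H.M₀ : ℝ) = 8 * H.N + 48 := by simp [M₀]
  rw [e1] at h2
  linarith

theorem Nice.pair {y y' : Γ} (hy : H.Nice g σ y) (hy' : H.Nice g σ y') :
    H.p y'⁻¹ y ≤ (H.N + 5) * H.L g + H.δ := by
  have hl := hg.long
  have hδ := H.δ_pos
  have hN : (0 : ℝ) ≤ H.N := Nat.cast_nonneg _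
  have h1 := hy'.back' hg hσE hσ
  rw [p_comm]
  exact H.fourB hy.1 (by rw [p_comm]; nlinarith)

theorem Nice.long {y : Γ} (hy : H.Nice g σ y) :
    2 * ((H.N + 5) * H.L g + H.δ) + 2 * H.δ < H.L y := by
  have hl := hg.long
  have hδ := H.δ_pos
  have hN : (0 : ℝ) ≤ H.N := Nat.cast_nonneg _
  have h1 := hy.back' hg hσE hσ
  have h2 := H.p_le_left y⁻¹ (g ^ H.M₀)⁻¹
  rw [L_inv] at h2
  nlinarith

theorem Nice.fiber {y : Γ} (hy : H.Nice g σ y) (T : Finset Γ)
    (hT : ∀ y' ∈ T, H.Nice g σ y' ∧ H.L (y⁻¹ * y') ≤ (2 * H.N + 12) * H.L g) : T.card ≤ H.N := by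
  classical
  have hl := hg.long
  have hδ := H.δ_pos
  have hN : (0 : ℝ) ≤ H.N := Nat.cast_nonneg _
  have e0 : (H.M₀ : ℝ) = 8 * H.N + 48 := by simp [M₀]
  have e1 : (H.M₁ : ℝ) = 112 * H.N + 676 := by simp [M₁]
  set P := σ * g ^ H.M₀ with hP
  have hinj : Function.Injective fun y' : Γ => P * (y⁻¹ * y') * P⁻¹ := fun a b h => by
    simpa using h
  rw [← Finset.card_image_of_injective T hinj]
  have hJ : 0 < H.N.factorial := Nat.factorial_pos _
  have hP1 : H.L P ≤ (8 * H.N + 49) * H.L g := by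
    have := H.L_mul σ (g ^ H.M₀)
    have := H.L_pow_le g H.M₀
    rw [e0] at this
    linarith
  have hP2 : (4 * H.N + 23) * H.L g ≤ H.L P := by
    have := H.L_le_mul_left σ⁻¹ P
    have h2 := hg.L_ge_half H.M₀
    rw [hP, L_inv] at this
    rw [e0] at h2
    have := H.L_mul σ⁻¹ (σ * g ^ H.M₀)
    rw [inv_mul_cancel_left, L_inv] at this
    linarith
  refine card_le_of_commute (hg.pow hJ) (P := fun _ => P) (A := (H.N + 3) * H.L g)
    (by nlinarith) (fun k => ?_) (fun k => ?_) _ ?_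
  · have := overlap_lt hg (Or.inl rfl) (Or.inl rfl) hσE (K := 1) (by simpa using hσ)
      (H.N.factorial * k) H.M₀
    rw [← pow_mul]; push_cast at this; linarith
  · have := overlap_lt hg (Or.inr rfl) (Or.inl rfl) hσE (K := 1) (by simpa using hσ)
      (H.N.factorial * k) H.M₀
    rw [← pow_mul, ← inv_pow]; push_cast at this; linarith
  intro ζ hζ
  obtain ⟨y', hy'T, rfl⟩ := Finset.mem_image.1 hζ
  obtain ⟨hy', hd⟩ := hT y' hy'T
  set ζ := P * (y⁻¹ * y') * P⁻¹ with hζdef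
  have hζL : H.L ζ ≤ ((18 * H.N + 110 : ℕ) : ℝ) * H.L g := by
    have h1 := H.L_mul (P * (y⁻¹ * y')) P⁻¹
    have h2 := H.L_mul P (y⁻¹ * y')
    rw [L_inv] at h1
    push_cast; linarith
  constructor
  · have h1 := hy.2
    have h2 := hy'.2
    rw [← hP] at h1 h2
    have h3 := H.p_mul_mul_ge ζ (y' * P⁻¹)⁻¹ (g ^ H.M₁)⁻¹
    rw [show ζ * (y' * P⁻¹)⁻¹ = (y * P⁻¹)⁻¹ by rw [hζdef]; group] at h3
    have h4 := H.fourA (a := (g ^ H.M₁)⁻¹) (b := ζ * (g ^ H.M₁)⁻¹) (c := (y * P⁻¹)⁻¹)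
      (t := H.L (g ^ H.M₁) - (H.N + 6) * H.L g - H.L ζ)
      (by rw [p_comm]; linarith [H.L_nonneg ζ]) (by linarith)
    have h5 := hg.L_ge_half H.M₁
    rw [e1] at h5
    have := overlap_fac hg.inv hg.inv (fun _ => rfl) (K := 18 * H.N + 110) (z := ζ)
      (by simpa using hζL) (I := H.M₁) (I' := H.M₁) (by
        rw [inv_pow, L_inv]; push_cast at hζL ⊢; nlinarith)
    rw [inv_pow] at this
    have hc : Commute (g ^ H.N.factorial)⁻¹ ζ := this
    exact Commute.inv_right_iff.1 hc.symm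
  · refine Eventually.of_forall fun _ => ?_
    have := H.p_ge_sub P (ζ * P)
    rw [show P⁻¹ * (ζ * P) = y⁻¹ * y' by rw [hζdef]; group] at this
    nlinarith

theorem card_pow_le [DecidableEq Γ] (Y : Finset Γ) (hY : ∀ y ∈ Y, H.Nice g σ y)
    (hL : ∀ y ∈ Y, ∀ y' ∈ Y, H.L y - H.L y' ≤ H.L g) (k : ℕ) :
    Y.card ^ k ≤ H.N ^ k * (Y ^ k).card := by
  have hl := hg.long
  have hδ := H.δ_pos
  have chain : ∀ k : ℕ, ∀ q ∈ Y ^ k, ∀ y ∈ Y, H.p y⁻¹ q ≤ (H.N + 5) * H.L g + H.δ + H.δ := by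
    intro k
    induction k with
    | zero =>
      intro q hq y _
      rw [pow_zero, Finset.mem_one] at hq
      rw [hq, p_one_right]
      have := hg.L_pos
      positivity
    | succ k ih =>
      intro q hq y hy
      rw [pow_succ'] at hq
      obtain ⟨y', hy', q', hq', rfl⟩ := Finset.mem_mul.1 hq
      have h1 := H.p_mul_self y' q'
      exact H.fourB ((hY y' hy').pair hg hσE hσ (hY y hy))
        (by linarith [ih q' hq' y' hy', (hY y' hy').long hg hσE hσ])
  induction k with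
  | zero => simp
  | succ k ih =>
    have h1 : (Y ×ˢ (Y ^ k)).card ≤ H.N * ((Y ×ˢ (Y ^ k)).image fun x => x.1 * x.2).card := by
      refine Finset.card_le_mul_card_image _ _ fun a ha => ?_
      obtain ⟨⟨y, q⟩, hyq, rfl⟩ := Finset.mem_image.1 ha
      obtain ⟨hy, hq⟩ := Finset.mem_product.1 hyq
      rw [← Finset.card_image_of_injOn (f := Prod.fst)]
      · refine (hY y hy).fiber hg hσE hσ _ fun y' hy' => ?_
        obtain ⟨⟨y', q'⟩, h, rfl⟩ := Finset.mem_image.1 hy'
        obtain ⟨h1, h2⟩ := Finset.mem_filter.1 h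
        obtain ⟨hy', hq'⟩ := Finset.mem_product.1 h1
        simp only at h2 hy hq hy' hq' ⊢
        refine ⟨hY y' hy', ?_⟩
        have u1 := H.p_mul_self y q
        have u2 := H.p_mul_self y' q'
        rw [h2] at u2
        have u3 := chain k q hq y hy
        have u4 := chain k q' hq' y' hy'
        have u5 := H.fourA (a := y) (b := y') (c := y * q)
          (t := min (H.L y) (H.L y') - ((H.N + 5) * H.L g + 2 * H.δ))
          (by linarith [min_le_left (H.L y) (H.L y')])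
          (by rw [p_comm]; linarith [min_le_right (H.L y) (H.L y')])
        have := H.close (a := y) (b := y') (η := (H.N + 5) * H.L g + 3 * H.δ) (β := H.L g)
          (by linarith) (hL y hy y' hy') (hL y' hy' y hy)
        linarith
      · rintro ⟨a, b⟩ h1 ⟨c, d⟩ h2 h3
        have e1 := (Finset.mem_filter.1 h1).2
        have e2 := (Finset.mem_filter.1 h2).2
        simp only at e1 e2 h3
        subst h3
        rw [mul_left_cancel (e1.trans e2.symm)]
    rw [Finset.card_product, ← Finset.mul_def, ← pow_succ'] at h1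
    calc Y.card ^ (k + 1) = Y.card * Y.card ^ k := by ring
      _ ≤ Y.card * (H.N ^ k * (Y ^ k).card) := by gcongr
      _ = H.N ^ k * (Y.card * (Y ^ k).card) := by ring
      _ ≤ H.N ^ k * (H.N * (Y ^ (k + 1)).card) := by gcongr
      _ = _ := by ring

theorem goodSet_of {S : Set Γ} (hS : S.Finite) (hgS : g ∈ ball S 2) (hσS : σ ∈ S)
    (hL : ∀ s ∈ S, H.L s ≤ H.L g) : GoodSet H.N H.K S := by
  classical
  intro n
  have hlp := hg.L_pos
  choose a b hab using exists_nice hg hσE hσ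
  set y : Γ → Γ := fun w =>
    (if a w then σ else 1) * w * (if b w then σ else 1) * g ^ H.M₁ * σ * g ^ H.M₀ with hy
  have hyS : ∀ w ∈ ball S n, y w ∈ ball S (n + H.K) := by
    intro w hw
    have hc : ∀ c : Bool, (if c then σ else 1) ∈ ball S 1 := fun c => by
      cases c
      · exact one_mem_ball S 1
      · exact mem_ball_one hσS
    refine ball_mono S (le_of_eq ?_) (mul_mem_ball (mul_mem_ball (mul_mem_ball (mul_mem_ball
      (mul_mem_ball (hc _) hw) (hc _)) (pow_mem_ball hgS _)) (mem_ball_one hσS))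
      (pow_mem_ball hgS _))
    unfold K; ring
  have hpos : (0 : ℝ) < 4 * (n + H.K + 1) := by positivity
  obtain ⟨c, -, hc⟩ := Finset.exists_le_card_fiber_of_nsmul_le_card_of_maps_to
    (s := (ball_finite hS n).toFinset)
    (t := (Finset.univ : Finset Bool) ×ˢ (Finset.univ : Finset Bool) ×ˢ Finset.range (n + H.K + 1))
    (f := fun w => (a w, b w, ⌊H.L (y w) / H.L g⌋₊)) (b := (bn S n : ℝ) / (4 * (n + H.K + 1)))
    (by
      intro w hw
      have h1 := H.L_le_of_mem_ball hlp.le hL (hyS w (by simpa using hw))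
      simp only [Finset.mem_product, Finset.mem_univ, true_and, Finset.mem_range, Nat.lt_succ_iff]
      exact Nat.floor_le_of_le (by rw [div_le_iff₀ hlp]; exact h1))
    (by simp)
    (by
      simp only [Finset.card_product, Finset.card_univ, Fintype.card_bool, Finset.card_range,
        nsmul_eq_mul]
      rw [← Set.ncard_eq_toFinset_card _ (ball_finite hS n)]
      apply le_of_eq
      unfold bn
      push_cast; field_simp; ring)
  set W := (ball_finite hS n).toFinset.filter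
    fun w => (a w, b w, ⌊H.L (y w) / H.L g⌋₊) = c with hW
  have hWinj : Set.InjOn y W := by
    intro w hw w' hw' h
    have e := (Finset.mem_filter.1 hw).2.trans (Finset.mem_filter.1 hw').2.symm
    simp only [Prod.mk.injEq] at e
    simp only [hy, e.1, e.2.1, mul_left_inj, mul_right_inj] at h
    exact h
  have hcard := card_pow_le hg hσE hσ (W.image y) (by
    intro z hz
    obtain ⟨w, -, rfl⟩ := Finset.mem_image.1 hz
    exact hab w) (by
    intro z hz z' hz'
    obtain ⟨w, hw, rfl⟩ := Finset.mem_image.1 hz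
    obtain ⟨w', hw', rfl⟩ := Finset.mem_image.1 hz'
    have e := (Finset.mem_filter.1 hw).2.trans (Finset.mem_filter.1 hw').2.symm
    simp only [Prod.mk.injEq] at e
    have h1 := Nat.lt_floor_add_one (H.L (y w) / H.L g)
    have h2 := Nat.floor_le (div_nonneg (H.L_nonneg (y w')) hlp.le)
    rw [e.2.2] at h1
    have h3 : H.L (y w) / H.L g ≤ H.L (y w') / H.L g + 1 := by linarith
    rw [div_add_one hlp.ne', div_le_div_iff_of_pos_right hlp] at h3
    linarith)
  rw [Finset.card_image_of_injOn hWinj] at hcard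
  have hsub : ∀ k : ℕ, ∀ z ∈ (W.image y) ^ k, z ∈ ball S (k * (n + H.K)) := by
    intro k
    induction k with
    | zero => intro z hz; rw [pow_zero, Finset.mem_one] at hz; rw [hz]; exact one_mem_ball _ _
    | succ k ih =>
      intro z hz
      rw [pow_succ] at hz
      obtain ⟨u, hu, v, hv, rfl⟩ := Finset.mem_mul.1 hz
      obtain ⟨w, hw, rfl⟩ := Finset.mem_image.1 hv
      rw [add_mul, one_mul]
      exact mul_mem_ball (ih u hu) (hyS w (by simpa using (Finset.mem_filter.1 hw).1))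
  have hb := one_le_bn hS n
  clear hW hWinj
  generalize W.image y = Y at hcard hsub
  generalize W.card = c₀ at hcard hc
  have hNpos : (0 : ℝ) < H.N := by exact_mod_cast H.N_pos
  have hWpos : (0 : ℝ) < c₀ := lt_of_lt_of_le (by positivity) hc
  have := le_mul_ent hS (m := n + H.K) (by unfold K; omega)
    (a := Real.log c₀ - Real.log H.N) (c := 0) (Eventually.of_forall fun k => by
      have h1 : (Y ^ k).card ≤ bn S (k * (n + H.K)) := by
        rw [← Set.ncard_coe_finset]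
        exact Set.ncard_le_ncard (fun z hz => hsub k z hz) (ball_finite hS _)
      have h2 : (c₀ : ℝ) ^ k ≤ (H.N : ℝ) ^ k * bn S (k * (n + H.K)) := by
        exact_mod_cast (hcard k).trans (Nat.mul_le_mul_left _ h1)
      have h3 := Real.log_le_log (by positivity) h2
      rw [Real.log_mul (by positivity) (by linarith [one_le_bn hS (k * (n + H.K))]),
        Real.log_pow, Real.log_pow] at h3
      linarith)
  have h4 := Real.log_le_log (by positivity) hc
  rw [Real.log_div (by linarith) hpos.ne'] at h4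
  rw [show (4 : ℝ) * H.N * (n + H.K + 1) = H.N * (4 * (n + H.K + 1)) by ring,
    Real.log_mul hNpos.ne' hpos.ne']
  push_cast at this
  linarith

end

theorem good_or_small {S : Set Γ} (hS : S.Finite) (hne : ¬ VirtuallyCyclic (Subgroup.closure S)) :
    GoodSet H.N H.K S ∨ ∃ y, ∀ s ∈ S, H.L (y⁻¹ * s * y) ≤ 100 * H.δ := by
  classical
  rcases S.eq_empty_or_nonempty with rfl | hSne
  · exact Or.inr ⟨1, by simp⟩
  set f : Γ → ℕ := fun y => hS.toFinset.sup fun s => H.len (y⁻¹ * s * y) with hf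
  obtain ⟨y₀, hy₀⟩ : ∃ y₀, ∀ y, f y₀ ≤ f y :=
    ⟨Function.argmin f, fun y => Function.argmin_le f y⟩
  have hle : ∀ y, ∀ s ∈ S, H.L (y⁻¹ * s * y) ≤ f y := fun y s hs => by
    unfold L
    exact_mod_cast Finset.le_sup (f := fun s => H.len (y⁻¹ * s * y)) (hS.mem_toFinset.2 hs)
  by_cases hΛ : (f y₀ : ℝ) ≤ 100 * H.δ
  · exact Or.inr ⟨y₀, fun s hs => (hle y₀ s hs).trans hΛ⟩
  left
  push Not at hΛ
  set φ : Γ →* Γ := (MulAut.conj y₀⁻¹).toMonoidHom with hφ
  set ψ : Γ →* Γ := (MulAut.conj y₀).toMonoidHom with hψ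
  have hφ' : ∀ s, φ s = y₀⁻¹ * s * y₀ := fun s => by simp [hφ]
  have hback : ψ '' (φ '' S) = S := by
    rw [Set.image_image]; simp [hψ, hφ', mul_assoc]
  have hS' : (φ '' S).Finite := hS.image _
  have hL : ∀ s ∈ φ '' S, H.L s ≤ f y₀ := by
    rintro _ ⟨s, hs, rfl⟩
    rw [hφ']; exact hle y₀ s hs
  obtain ⟨s, hs, t, ht, hg, hgl⟩ := exists_straight (S := φ '' S) hΛ.le hL fun y => by
    obtain ⟨s, hs, h⟩ := Finset.exists_mem_eq_sup hS.toFinset (by simpa using hSne)
      fun s => H.len ((y₀ * y)⁻¹ * s * (y₀ * y))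
    refine ⟨φ s, ⟨s, by simpa using hs, rfl⟩, ?_⟩
    have := hy₀ (y₀ * y)
    rw [show f (y₀ * y) = _ from h] at this
    rw [hφ', show y⁻¹ * (y₀⁻¹ * s * y₀) * y = (y₀ * y)⁻¹ * s * (y₀ * y) by group]
    unfold L; exact_mod_cast this
  have hgS : s * t ∈ ball (φ '' S) 2 := mul_mem_ball (mem_ball_one hs) (mem_ball_one ht)
  obtain ⟨σ, hσS, hσE⟩ : ∃ σ ∈ φ '' S, σ ∉ elem ((s * t) ^ H.N.factorial) := by
    by_contra hcon
    push Not at hcon
    apply hne
    rw [← hback]
    refine VirtuallyCyclic.closure_image ψ ?_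
    refine virtuallyCyclic_of_cover (hg.pow (Nat.factorial_pos H.N)) _
      (Subgroup.pow_mem _ (ball_subset_closure _ _ hgS) _) (Set.finite_singleton 1) fun z hz => ?_
    exact ⟨1, rfl, by simpa using (Subgroup.closure_le _).2 hcon hz⟩
  have hgood := goodSet_of hg hσE ((hL σ hσS).trans hgl) hS' hgS hσS
    fun s hs => (hL s hs).trans hgl
  have hbn : ∀ n, bn (φ '' S) n = bn S n := fun n =>
    bn_image_eq φ (MulAut.conj y₀⁻¹).injective.injOn
  intro n
  have := hgood n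
  rwa [hbn, ent_congr hbn] at this

end HypLen

end Pool.Agent.P.MP_94de62_al
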