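import Mathlib

/-!
Length functions of hyperbolic groups: Gromov products, chains, straight elements, tripods.
-/

namespace Pool.Agent.P.MP_94de62_al

/-- A proper geodesic hyperbolic length function on a group. -/
structure HypLen (Γ : Type*) [Group Γ] where
  len : Γ → ℕ
  δ : ℝ
  one_le : 1 ≤ δ
  len_one : len 1 = 0
  len_inv : ∀ g, len g⁻¹ = len g
  len_mul : ∀ a b, len (a * b) ≤ len a + len b
  four : ∀ a b c : Γ,
    min (((len a : ℝ) + len c - len (a⁻¹ * c)) / 2) (((len c : ℝ) + len b - len (c⁻¹ * b)) / 2) - δ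
      ≤ ((len a : ℝ) + len b - len (a⁻¹ * b)) / 2
  geod : ∀ (g : Γ) (k : ℕ), k ≤ len g → ∃ p, len p = k ∧ len (p⁻¹ * g) + k ≤ len g
  fin : ∀ r : ℕ, {g | len g ≤ r}.Finite

namespace HypLen

variable {Γ : Type*} [Group Γ] (H : HypLen Γ)

/-- The real valued length. -/
def L (g : Γ) : ℝ := H.len g

/-- The Gromov product based at the identity. -/
noncomputable def p (a b : Γ) : ℝ := (H.L a + H.L b - H.L (a⁻¹ * b)) / 2

theorem δ_pos : 0 < H.δ := lt_of_lt_of_le one_pos H.one_le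

theorem L_nonneg (g : Γ) : 0 ≤ H.L g := Nat.cast_nonneg _

@[simp] theorem L_one : H.L 1 = 0 := by simp [L, H.len_one]

@[simp] theorem L_inv (g : Γ) : H.L g⁻¹ = H.L g := by simp [L, H.len_inv]

theorem L_mul (a b : Γ) : H.L (a * b) ≤ H.L a + H.L b := by
  unfold L; exact_mod_cast H.len_mul a b

theorem L_congr {a b : Γ} (h : a = b) : H.L a = H.L b := by rw [h]

theorem L_congr_inv {a b : Γ} (h : a = b⁻¹) : H.L a = H.L b := by rw [h, L_inv]

theorem L_le_mul_left (a b : Γ) : H.L b ≤ H.L a + H.L (a * b) := by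
  have := H.L_mul a⁻¹ (a * b)
  simpa using this

theorem L_le_mul_right (a b : Γ) : H.L a ≤ H.L (a * b) + H.L b := by
  have := H.L_mul (a * b) b⁻¹
  simpa using this

theorem L_pow_le (g : Γ) (n : ℕ) : H.L (g ^ n) ≤ n * H.L g := by
  induction n with
  | zero => simp
  | succ n ih =>
    rw [pow_succ]; push_cast
    linarith [H.L_mul (g ^ n) g]

theorem finite_ball (r : ℝ) : {g | H.L g ≤ r}.Finite := by
  refine (H.fin ⌈r⌉₊).subset fun g hg => ?_
  have : (H.len g : ℝ) ≤ (⌈r⌉₊ : ℕ) := le_trans hg (Nat.le_ceil r)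
  exact_mod_cast this

theorem p_comm (a b : Γ) : H.p a b = H.p b a := by
  unfold p
  rw [H.L_congr_inv (show a⁻¹ * b = (b⁻¹ * a)⁻¹ by group)]; ring

theorem p_nonneg (a b : Γ) : 0 ≤ H.p a b := by
  unfold p
  have := H.L_mul a⁻¹ b
  rw [L_inv] at this; linarith

theorem p_le_left (a b : Γ) : H.p a b ≤ H.L a := by
  unfold p
  have := H.L_le_mul_left a⁻¹ b
  rw [L_inv] at this; linarith

theorem p_le_right (a b : Γ) : H.p a b ≤ H.L b := by
  rw [p_comm]; exact H.p_le_left b a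

@[simp] theorem p_one_right (a : Γ) : H.p a 1 = 0 := by simp [p]

@[simp] theorem p_one_left (a : Γ) : H.p 1 a = 0 := by simp [p]

theorem L_inv_mul (a b : Γ) : H.L (a⁻¹ * b) = H.L a + H.L b - 2 * H.p a b := by
  unfold p; ring

theorem L_mul_eq (a b : Γ) : H.L (a * b) = H.L a + H.L b - 2 * H.p a⁻¹ b := by
  have := H.L_inv_mul a⁻¹ b
  simpa using this

theorem p_mul_self (x y : Γ) : H.p x (x * y) = H.L x - H.p x⁻¹ y := by
  unfold p
  simp only [inv_mul_cancel_left, inv_inv, L_inv]; ring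

theorem p_mul_mul_ge (z a b : Γ) : H.p a b - H.L z ≤ H.p (z * a) (z * b) := by
  unfold p
  rw [H.L_congr (show (z * a)⁻¹ * (z * b) = a⁻¹ * b by group)]
  linarith [H.L_le_mul_left z a, H.L_le_mul_left z b]

theorem p_mul_mul_le (z a b : Γ) : H.p (z * a) (z * b) ≤ H.p a b + H.L z := by
  unfold p
  rw [H.L_congr (show (z * a)⁻¹ * (z * b) = a⁻¹ * b by group)]
  linarith [H.L_mul z a, H.L_mul z b]

theorem p_mul_right_le (a b c : Γ) : H.p a (b * c) ≤ H.p a b + H.L c := by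
  unfold p
  have h1 := H.L_mul b c
  have h2 := H.L_le_mul_right (a⁻¹ * b) c
  rw [mul_assoc] at h2
  linarith

theorem p_mul_right_ge (a b c : Γ) : H.p a b - H.L c ≤ H.p a (b * c) := by
  have := H.p_mul_right_le a (b * c) c⁻¹
  simp only [mul_inv_cancel_right, L_inv] at this
  linarith

theorem p_ge_sub (a b : Γ) : H.L a - H.L (a⁻¹ * b) ≤ H.p a b := by
  unfold p
  have := H.L_le_mul_right a (a⁻¹ * b)
  simp only [mul_inv_cancel_left] at this
  linarith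

/-- Four-point condition, first form. -/
theorem fourA {a b c : Γ} {t : ℝ} (h1 : t ≤ H.p a c) (h2 : t ≤ H.p c b) : t - H.δ ≤ H.p a b := by
  have := H.four a b c
  have h3 : t ≤ min (H.p a c) (H.p c b) := le_min h1 h2
  unfold p L at *
  linarith

/-- Four-point condition, second form. -/
theorem fourB {a b c : Γ} {t : ℝ} (h1 : H.p a b ≤ t) (h2 : t + H.δ < H.p b c) :
    H.p a c ≤ t + H.δ := by
  by_contra h
  push Not at h
  have h3 : min (H.p a c) (H.p b c) - H.δ ≤ H.p a b :=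
    H.fourA (min_le_left _ _) (by rw [H.p_comm c b]; exact min_le_right _ _)
  have : t + H.δ < min (H.p a c) (H.p b c) := lt_min h h2
  linarith

/-- Two points in almost the same direction. -/
theorem close {a b : Γ} {η β : ℝ} (h1 : min (H.L a) (H.L b) - η ≤ H.p a b)
    (h2 : H.L a - H.L b ≤ β) (h3 : H.L b - H.L a ≤ β) : H.L (a⁻¹ * b) ≤ β + 2 * η := by
  rw [L_inv_mul]
  rcases le_total (H.L a) (H.L b) with h | h
  · rw [min_eq_left h] at h1; linarith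
  · rw [min_eq_right h] at h1; linarith

theorem exists_geod (g : Γ) {t : ℝ} (h0 : 0 ≤ t) (ht : t ≤ H.L g) :
    ∃ y, t - H.δ ≤ H.L y ∧ H.L y ≤ t ∧ H.L y ≤ H.p y g := by
  have hk : ⌊t⌋₊ ≤ H.len g := by
    have : (⌊t⌋₊ : ℝ) ≤ H.len g := le_trans (Nat.floor_le h0) ht
    exact_mod_cast this
  obtain ⟨y, hy1, hy2⟩ := H.geod g _ hk
  have e1 : H.L y = ⌊t⌋₊ := by simp [L, hy1]
  have e2 : H.L (y⁻¹ * g) + ⌊t⌋₊ ≤ H.L g := by unfold L; exact_mod_cast hy2
  refine ⟨y, ?_, ?_, ?_⟩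
  · have := Nat.lt_floor_add_one t
    have := H.one_le
    linarith
  · rw [e1]; exact Nat.floor_le h0
  · unfold p; linarith

/-! ### Chains -/

theorem chain_head {a : ℝ} (ha : 0 ≤ a) : ∀ (l : List Γ) (y : Γ),
    List.IsChain (fun u v => H.p u⁻¹ v ≤ a) (y :: l) → (∀ v ∈ l, 2 * a + 2 * H.δ < H.L v) →
    H.p y⁻¹ l.prod ≤ a + H.δ
  | [], y, _, _ => by simp; linarith [H.δ_pos]
  | v :: l, y, hc, hl => by
    rw [List.isChain_cons_cons] at hc
    have ih := chain_head ha l v hc.2 fun w hw => hl w (List.mem_cons_of_mem _ hw)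
    have h1 := H.p_mul_self v l.prod
    have h2 := hl v List.mem_cons_self
    rw [List.prod_cons]
    exact H.fourB hc.1 (by linarith)

/-! ### Straight elements -/

/-- A long element whose powers form a quasi-geodesic through the identity. -/
structure Straight (g : Γ) : Prop where
  long : 100 * H.δ ≤ H.L g
  pw : ∀ i j : ℕ, H.p (g ^ i)⁻¹ (g ^ j) ≤ 12 * H.δ

variable {H}

theorem straight_of {g : Γ} (h1 : 100 * H.δ ≤ H.L g) (h2 : H.p g⁻¹ g ≤ 10 * H.δ) :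
    H.Straight g := by
  have hδ := H.δ_pos
  have key : ∀ g : Γ, 100 * H.δ ≤ H.L g → H.p g⁻¹ g ≤ 10 * H.δ →
      ∀ j : ℕ, H.p g⁻¹ (g ^ j) ≤ 11 * H.δ := by
    intro g h1 h2 j
    induction j with
    | zero => simp; linarith
    | succ j ih =>
      have := H.p_mul_self g (g ^ j)
      rw [pow_succ']
      have := H.fourB (c := g * g ^ j) h2 (by linarith)
      linarith
  refine ⟨h1, fun i j => ?_⟩
  rcases Nat.eq_zero_or_pos i with rfl | hi
  · simp; linarith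
  obtain ⟨i, rfl⟩ : ∃ k, i = k + 1 := ⟨i - 1, by omega⟩
  have k1 := key g h1 h2 j
  have k2 := key g⁻¹ (by simpa using h1) (by rw [inv_inv, p_comm]; exact h2) i
  have k3 := H.p_mul_self g⁻¹ (g⁻¹ ^ i)
  rw [inv_inv] at k2 k3
  rw [L_inv] at k3
  have e : (g ^ (i + 1))⁻¹ = g⁻¹ * g⁻¹ ^ i := by rw [← pow_succ', inv_pow]
  rw [e, p_comm]
  rw [p_comm] at k1
  have := H.fourB (c := g⁻¹ * g⁻¹ ^ i) k1 (by linarith)
  linarith

namespace Straight

variable {g : Γ} (hg : H.Straight g)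
include hg

theorem inv : H.Straight g⁻¹ :=
  ⟨by simpa using hg.long, fun i j => by
    rw [inv_pow, inv_pow, inv_inv, p_comm]; exact hg.pw j i⟩

theorem L_add (i j : ℕ) : H.L (g ^ i) + H.L (g ^ j) - 24 * H.δ ≤ H.L (g ^ (i + j)) := by
  rw [pow_add, L_mul_eq]; linarith [hg.pw i j]

theorem L_ge (i : ℕ) : i * (H.L g - 24 * H.δ) ≤ H.L (g ^ i) := by
  induction i with
  | zero => simp
  | succ i ih =>
    have := hg.L_add i 1
    rw [pow_one] at this
    push_cast; linarith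

theorem L_ge_half (i : ℕ) : i * H.L g / 2 ≤ H.L (g ^ i) := by
  have h1 := hg.L_ge i
  have h2 := hg.long
  have hδ := H.δ_pos
  have h3 : (0 : ℝ) ≤ i := Nat.cast_nonneg _
  nlinarith

theorem p_add (i j : ℕ) : H.L (g ^ i) - 12 * H.δ ≤ H.p (g ^ i) (g ^ (i + j)) := by
  rw [pow_add, p_mul_self]; linarith [hg.pw i j]

theorem p_le {i j : ℕ} (h : i ≤ j) : H.L (g ^ i) - 12 * H.δ ≤ H.p (g ^ i) (g ^ j) := by
  obtain ⟨k, rfl⟩ := Nat.exists_eq_add_of_le h
  exact hg.p_add i k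

theorem pow {J : ℕ} (hJ : 0 < J) : H.Straight (g ^ J) := by
  refine ⟨?_, fun i j => by rw [← pow_mul, ← pow_mul]; exact hg.pw _ _⟩
  obtain ⟨k, rfl⟩ : ∃ k, J = k + 1 := ⟨J - 1, by omega⟩
  rcases Nat.eq_zero_or_pos k with rfl | hk
  · simpa using hg.long
  have h1 := hg.L_add k 1
  have h2 := hg.L_ge_half k
  have h3 := hg.long
  have hδ := H.δ_pos
  have h4 : (1 : ℝ) ≤ k := by exact_mod_cast hk
  rw [pow_one] at h1
  nlinarith

theorem L_pos : 0 < H.L g := lt_of_lt_of_le (by linarith [H.δ_pos]) hg.long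

theorem exists_L_ge (r : ℝ) : ∀ᶠ k : ℕ in Filter.atTop, r ≤ H.L (g ^ k) := by
  have hp := hg.L_pos
  refine Filter.eventually_atTop.2 ⟨⌈2 * r / H.L g⌉₊, fun k hk => ?_⟩
  have h1 : 2 * r / H.L g ≤ k := le_trans (Nat.le_ceil _) (by exact_mod_cast hk)
  rw [div_le_iff₀ hp] at h1
  linarith [hg.L_ge_half k]

end Straight

/-! ### Tripods -/

variable (H)

/-- Uniqueness of centres of tripods. -/
theorem center {Q : Fin 3 → Γ} {m : Γ} {a a' : ℝ}
    (h1 : ∀ i j, i ≠ j → H.p (Q i) (Q j) ≤ a)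
    (h2 : ∀ i j, i ≠ j → H.p (m⁻¹ * Q i) (m⁻¹ * Q j) ≤ a') : H.L m ≤ a + a' + 2 * H.δ := by
  have key : ∀ i j, i ≠ j → H.p m (Q i) ≤ a + H.δ → H.p m (Q j) ≤ a + H.δ →
      H.L m ≤ a + a' + 2 * H.δ := by
    intro i j hij hi hj
    have e1 := H.p_mul_self m⁻¹ (Q i)
    have e2 := H.p_mul_self m⁻¹ (Q j)
    rw [inv_inv, L_inv] at e1 e2
    have := H.fourA (a := m⁻¹ * Q i) (b := m⁻¹ * Q j) (c := m⁻¹) (t := H.L m - (a + H.δ))
      (by rw [p_comm]; linarith) (by linarith)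
    linarith [h2 i j hij]
  have two : ∀ i j, i ≠ j → a + H.δ < H.p m (Q i) → H.p m (Q j) ≤ a + H.δ := by
    intro i j hij hi
    have := H.fourB (a := Q j) (b := Q i) (c := m) (h1 j i hij.symm) (by rw [p_comm]; exact hi)
    rwa [p_comm] at this
  by_cases h0 : a + H.δ < H.p m (Q 0)
  · exact key 1 2 (by decide) (two 0 1 (by decide) h0) (two 0 2 (by decide) h0)
  push Not at h0
  by_cases h1' : a + H.δ < H.p m (Q 1)
  · exact key 0 2 (by decide) h0 (two 1 2 (by decide) h1')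
  push Not at h1'
  exact key 0 1 (by decide) h0 h1'

theorem exists_center (P : Fin 3 → Γ) :
    ∃ m, ∀ i j, i ≠ j → H.p (m⁻¹ * P i) (m⁻¹ * P j) ≤ 2 * H.δ := by
  have hδ := H.δ_pos
  set a := (P 0)⁻¹ * P 1 with ha
  set b := (P 0)⁻¹ * P 2 with hb
  obtain ⟨y, hy1, hy2, hy3⟩ := H.exists_geod a (H.p_nonneg a b) (H.p_le_left a b)
  have e0 : (P 0 * y)⁻¹ * P 0 = y⁻¹ := by group
  have e1 : (P 0 * y)⁻¹ * P 1 = y⁻¹ * a := by rw [ha]; group
  have e2 : (P 0 * y)⁻¹ * P 2 = y⁻¹ * b := by rw [hb]; group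
  have f1 := H.p_mul_self y⁻¹ a
  have f2 := H.p_mul_self y⁻¹ b
  rw [inv_inv, L_inv] at f1 f2
  have g1 := H.fourA (a := y) (b := b) (c := a) hy3 hy2
  have k01 : H.p y⁻¹ (y⁻¹ * a) ≤ 2 * H.δ := by linarith
  have k02 : H.p y⁻¹ (y⁻¹ * b) ≤ 2 * H.δ := by linarith
  have k12 : H.p (y⁻¹ * a) (y⁻¹ * b) ≤ 2 * H.δ := by
    have u1 := H.p_mul_self a⁻¹ y
    have u2 := H.p_mul_self a⁻¹ b
    rw [inv_inv, L_inv] at u1 u2
    have u3 := H.p_mul_self (y⁻¹ * a)⁻¹ (y⁻¹ * b)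
    rw [inv_inv, L_inv, show (y⁻¹ * a)⁻¹ * (y⁻¹ * b) = a⁻¹ * b by group,
      show (y⁻¹ * a)⁻¹ = a⁻¹ * y by group] at u3
    have u4 := H.L_inv_mul y a
    have u5 := H.p_le_left y a
    have u6 := H.p_comm a y
    have := H.fourA (a := a⁻¹ * y) (b := a⁻¹ * b) (c := a⁻¹) (t := H.L (y⁻¹ * a) - H.δ)
      (by rw [p_comm]; linarith) (by linarith)
    linarith
  refine ⟨P 0 * y, fun i j hij => ?_⟩
  fin_cases i <;> fin_cases j <;> simp only [ne_eq, not_true_eq_false, Fin.zero_eta, Fin.mk_one,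
    Fin.reduceFinMk] at hij ⊢
  · rw [e0, e1]; exact k01
  · rw [e0, e2]; exact k02
  · rw [e0, e1, p_comm]; exact k01
  · rw [e1, e2]; exact k12
  · rw [e0, e2, p_comm]; exact k02
  · rw [e1, e2, p_comm]; exact k12

/-- The elements that keep three directions fixed almost fix one point. -/
theorem tripod {P : Fin 3 → Γ} {A : ℝ} (hP : ∀ i j, i ≠ j → H.p (P i) (P j) ≤ A) :
    ∃ m, ∀ ζ, (∀ i, A + 9 * H.δ ≤ H.p (P i) (ζ * P i)) → H.L (m⁻¹ * ζ * m) ≤ 8 * H.δ := by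
  have hδ := H.δ_pos
  obtain ⟨m, hm⟩ := H.exists_center P
  have hLm := H.center hP hm
  refine ⟨m, fun ζ hζ => ?_⟩
  have h1 : ∀ i, 5 * H.δ ≤ H.p (m⁻¹ * P i) (m⁻¹ * (ζ * P i)) := fun i => by
    have := H.p_mul_mul_ge m⁻¹ (P i) (ζ * P i)
    rw [L_inv] at this
    linarith [hζ i]
  have h2 : ∀ i j, i ≠ j → H.p (m⁻¹ * (ζ * P i)) (m⁻¹ * (ζ * P j)) ≤ 4 * H.δ := by
    intro i j hij
    have u1 := H.fourB (c := m⁻¹ * (ζ * P j)) (hm i j hij) (by linarith [h1 j])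
    rw [p_comm] at u1
    have u2 := H.fourB (c := m⁻¹ * (ζ * P i)) u1 (by linarith [h1 i])
    rw [p_comm] at u2
    linarith
  have := H.center (Q := fun i => m⁻¹ * (ζ * P i)) (m := m⁻¹ * ζ * m) (a' := 2 * H.δ) h2
    fun i j hij => by
      rw [show (m⁻¹ * ζ * m)⁻¹ * (m⁻¹ * (ζ * P i)) = m⁻¹ * P i by group,
        show (m⁻¹ * ζ * m)⁻¹ * (m⁻¹ * (ζ * P j)) = m⁻¹ * P j by group]
      exact hm i j hij
  linarith

end HypLen

end Pool.Agent.P.MP_94de62_al
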