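import Pool.Agent.P.MP_94de62_al.Univ

/-!
The lower bound for the order type of the set of growth rates.
-/

namespace Pool.Agent.P.MP_94de62_al

open Pointwise

theorem image_sym {G G' : Type*} [Group G] [Group G'] (φ : G →* G') (S : Set G) :
    φ '' (S ∪ S⁻¹) = φ '' S ∪ (φ '' S)⁻¹ := by
  rw [Set.image_union, Set.image_inv]

theorem inv_mem_ball_sym {G : Type*} [Group G] {S : Set G} {n : ℕ} {x : G}
    (hx : x ∈ ball (S ∪ S⁻¹) n) : x⁻¹ ∈ ball (S ∪ S⁻¹) n := by
  obtain ⟨l, h1, h2, rfl⟩ := hx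
  refine ⟨(l.map fun a => a⁻¹).reverse, by simpa using h1, fun a ha => ?_,
    (List.prod_inv_reverse l).symm⟩
  obtain ⟨b, hb, rfl⟩ := List.mem_map.1 (List.mem_reverse.1 ha)
  rcases h2 b hb with h | h
  · exact Or.inr (by simpa using h)
  · exact Or.inl h

theorem exists_mem_ball_sym {G : Type*} [Group G] {S : Set G} {x : G}
    (hx : x ∈ Subgroup.closure S) : ∃ n, x ∈ ball (S ∪ S⁻¹) n := by
  rw [← Subgroup.mem_toSubmonoid, Subgroup.closure_toSubmonoid] at hx
  obtain ⟨l, h1, h2⟩ := Submonoid.exists_list_of_mem_closure hx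
  exact ⟨l.length, l, le_rfl, h1, h2⟩

theorem exists_ball_of_finite {G : Type*} [Group G] {S A : Set G} (hS : Subgroup.closure S = ⊤)
    (hA : A.Finite) : ∃ n, A ⊆ ball (S ∪ S⁻¹) n := by
  choose n hn using fun x : G => exists_mem_ball_sym (S := S) (x := x) (hS ▸ trivial)
  obtain ⟨D, hD⟩ := (hA.image n).bddAbove
  exact ⟨D, fun x hx => ball_mono _ (hD ⟨x, hx, rfl⟩) (hn x)⟩

theorem VirtuallyCyclic.of_closure_eq_top {G : Type*} [Group G] {S : Set G}
    (hS : Subgroup.closure S = ⊤) (h : VirtuallyCyclic (Subgroup.closure S)) :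
    VirtuallyCyclic G :=
  h.of_surjective (Subgroup.closure S).subtype fun x => ⟨⟨x, hS ▸ trivial⟩, rfl⟩

variable {Γ : Type*} [Group Γ]

theorem HypLen.good_of_large (H : HypLen Γ) (hne : ¬ VirtuallyCyclic Γ) {S₀ S : Set Γ}
    (h1 : Subgroup.closure S₀ = ⊤) (h2 : 4 * H.N * (H.K + 2) < S₀.ncard) (hS : S.Finite)
    (hsub : S₀ ⊆ S) : GoodSet H.N H.K S ∧ 0 < ent S := by
  have h3 : Subgroup.closure S = ⊤ := top_le_iff.1 (h1 ▸ Subgroup.closure_mono hsub)
  have h4 : 4 * H.N * (H.K + 2) < S.ncard := h2.trans_le (Set.ncard_le_ncard hsub hS)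
  have hgood : GoodSet H.N H.K S := by
    rcases H.good_or_small hS (fun h => hne (h.of_closure_eq_top h3)) with h | ⟨y, hy⟩
    · exact h
    · have := H.card_le_N hS.toFinset (fun s => y⁻¹ * s * y) (fun a _ b _ h => by simpa using h)
        fun s hs => by linarith [hy s (hS.mem_toFinset.1 hs), H.δ_pos]
      rw [← Set.ncard_eq_toFinset_card _ hS] at this
      nlinarith
  refine ⟨hgood, ?_⟩
  have h5 := hgood 1
  have h6 : S.ncard ≤ bn S 1 := Set.ncard_le_ncard (fun s hs => mem_ball_one hs) (ball_finite hS 1)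
  have hN : (0 : ℝ) < H.N := by exact_mod_cast H.N_pos
  have h7 : Real.log (4 * H.N * ((1 : ℕ) + H.K + 1)) < Real.log (bn S 1) := by
    refine Real.log_lt_log (by positivity) ?_
    have : ((4 * H.N * (H.K + 2) : ℕ) : ℝ) < bn S 1 := by exact_mod_cast h4.trans_le h6
    push_cast at this ⊢
    linarith
  by_contra hc
  have := mul_nonpos_of_nonneg_of_nonpos (show (0 : ℝ) ≤ (1 : ℕ) + H.K by positivity) (not_lt.1 hc)
  linarith

/-- Generating sets in which the first `m` letters are specialised. -/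
def gen (F : Subgroup Γ) (S₀ : Set Γ) {k : ℕ} (m : ℕ) (γ : Fin k → Γ) : Set (UG F (Fin k)) :=
  UG.c F (Fin k) '' S₀ ∪
    Set.range fun i : Fin k => if (i : ℕ) < m then UG.c F (Fin k) (γ i) else UG.t F i

theorem gen_finite (F : Subgroup Γ) {S₀ : Set Γ} (h : S₀.Finite) {k : ℕ} (m : ℕ)
    (γ : Fin k → Γ) : (gen F S₀ m γ ∪ (gen F S₀ m γ)⁻¹).Finite :=
  have : (gen F S₀ m γ).Finite := (h.image _).union (Set.finite_range _)
  this.union this.inv

theorem const_mem_ball (F : Subgroup Γ) {S₀ : Set Γ} {k : ℕ} (m : ℕ) (γ : Fin k → Γ) {x : Γ}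
    {n : ℕ} (hx : x ∈ ball (S₀ ∪ S₀⁻¹) n) :
    UG.c F (Fin k) x ∈ ball (gen F S₀ m γ ∪ (gen F S₀ m γ)⁻¹) n := by
  have := Set.mem_image_of_mem (UG.c F (Fin k)) hx
  rw [image_ball, image_sym] at this
  exact ball_mono_set (Set.union_subset_union Set.subset_union_left
    (Set.inv_subset_inv.2 Set.subset_union_left)) n this

theorem ent_gen_lt {F : Subgroup Γ} (hF : (F : Set Γ).Finite) {S₀ : Set Γ} (h0 : S₀.Finite)
    (h1 : Subgroup.closure S₀ = ⊤) {k m : ℕ} (hm : m < k) {γ : Fin k → Γ}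
    (hγ : ∀ i, ∀ f ∈ F, Commute f (γ i))
    (hpos : 0 < ent (gen F S₀ (m + 1) γ ∪ (gen F S₀ (m + 1) γ)⁻¹)) :
    ent (gen F S₀ (m + 1) γ ∪ (gen F S₀ (m + 1) γ)⁻¹) < ent (gen F S₀ m γ ∪ (gen F S₀ m γ)⁻¹) := by
  obtain ⟨c, hc1, hc2⟩ := exists_cocycle (⟨m, hm⟩ : Fin k) (γ ⟨m, hm⟩) (hγ _)
  set σ := spec (⟨m, hm⟩ : Fin k) (γ ⟨m, hm⟩) (hγ _) with hσ
  have hσc : ∀ x, σ (UG.c F (Fin k) x) = UG.c F (Fin k) x := fun _ => rfl
  have him : σ '' gen F S₀ m γ = gen F S₀ (m + 1) γ := by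
    unfold gen
    rw [Set.image_union, Set.image_image, ← Set.range_comp]
    congr 2
    funext i
    simp only [Function.comp]
    by_cases h : (i : ℕ) < m
    · rw [if_pos h, if_pos (by omega), hσc]
    · rw [if_neg h, hσ, spec, UG.lift_t]
      by_cases h' : i = ⟨m, hm⟩
      · rw [if_pos h', h', if_pos (by simp)]
      · rw [if_neg h', if_neg]
        intro h''
        exact h' (Fin.ext (by simp only; omega))
  rw [← him, ← image_sym] at hpos ⊢
  obtain ⟨κ, hκ⟩ := exists_mem_ball_sym (S := S₀) (x := (γ ⟨m, hm⟩)⁻¹) (h1 ▸ trivial)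
  obtain ⟨D, hD⟩ := exists_ball_of_finite h1 hF
  refine ent_lt σ c hc1 _ ?_ (fun q => by convert hc2 q) (gen_finite F h0 m γ) (κ := 1 + κ) ?_ (D := D) ?_ hpos
  · rw [map_mul, map_inv, hσc, hσ, spec, UG.lift_t, if_pos rfl, mul_inv_cancel]
  · refine mul_mem_ball (mem_ball_one (Or.inl (Or.inr ⟨⟨m, hm⟩, by simp⟩))) ?_
    rw [← map_inv]
    exact const_mem_ball F m γ hκ
  · intro f hf
    rw [MulAction.Quotient.smul_coe, QuotientGroup.eq] at hf
    obtain ⟨f', hf', he⟩ := (Subgroup.map (UG.c F (Fin k)) F).inv_mem hf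
    simp only [smul_eq_mul, mul_one, inv_inv] at he
    rw [image_sym, him, ← he]
    exact const_mem_ball F (m + 1) γ (hD hf')

theorem der_nonempty {K : Type*} [Field K] {d : Type*} [Fintype d] [DecidableEq d]
    (ρ : Γ →* Matrix d d K) (hρ : Function.Injective ρ) (H : HypLen Γ)
    (hne : ¬ VirtuallyCyclic Γ) {X : Set Γ} (hX : X.Finite) (hX' : Subgroup.closure X = ⊤)
    (k : ℕ) :
    (Der {x | ∃ S : Set Γ, S.Finite ∧ Subgroup.closure S = ⊤ ∧ ent (S ∪ S⁻¹) = x} k).Nonempty := by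
  have : Infinite Γ := by
    by_contra hc
    rw [not_infinite_iff_finite] at hc
    exact hne (VirtuallyCyclic.of_finite Γ)
  obtain ⟨B, hB⟩ := Infinite.exists_subset_card_eq Γ (4 * H.N * (H.K + 2) + 1)
  set S₀ : Set Γ := X ∪ B with hS₀
  have h0 : S₀.Finite := hX.union B.finite_toSet
  have h1 : Subgroup.closure S₀ = ⊤ :=
    top_le_iff.1 (hX' ▸ Subgroup.closure_mono Set.subset_union_left)
  have h2 : 4 * H.N * (H.K + 2) < S₀.ncard := by
    have : (B : Set Γ).ncard ≤ S₀.ncard := Set.ncard_le_ncard Set.subset_union_right h0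
    rw [Set.ncard_coe_finset] at this
    omega
  clear_value S₀
  obtain ⟨F, hF, hcore⟩ := H.exists_core ρ hρ hne
  suffices h : ∀ j m, m + j = k → ∀ γ : Fin k → Γ, (∀ i, ∀ f ∈ F, Commute f (γ i)) →
      ent (gen F S₀ m γ ∪ (gen F S₀ m γ)⁻¹) ∈
        Der {x | ∃ S : Set Γ, S.Finite ∧ Subgroup.closure S = ⊤ ∧ ent (S ∪ S⁻¹) = x} j from
    ⟨_, h k 0 (by simp) (fun _ => 1) fun _ _ _ => Commute.one_right _⟩
  intro j
  induction j with
  | zero =>
    intro m hm γ _
    refine ⟨S₀ ∪ Set.range γ, h0.union (Set.finite_range _),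
      top_le_iff.1 (h1 ▸ Subgroup.closure_mono Set.subset_union_left), ?_⟩
    have : gen F S₀ m γ = UG.c F (Fin k) '' (S₀ ∪ Set.range γ) := by
      unfold gen
      rw [Set.image_union, ← Set.range_comp]
      congr 2
      funext i
      exact if_pos (by omega)
    rw [this, ← image_sym]
    exact (ent_congr fun n => bn_image_eq _ UG.c_injective.injOn).symm
  | succ j ih =>
    intro m hm γ hγ z hz
    obtain ⟨n, -, hn⟩ := exists_good_n H.N_pos H.K _ (sub_pos.2 hz)
    obtain ⟨r, hr⟩ := ((h0.union (Set.finite_range γ)).image H.L).bddAbove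
    have hr' : ∀ s ∈ S₀ ∪ Set.range γ, H.L s ≤ max r 0 := fun s hs =>
      (hr ⟨s, hs, rfl⟩).trans (le_max_left _ _)
    obtain ⟨y, hy, hy'⟩ := hcore k ((n + n : ℕ) * max r 0)
    set γ' : Fin k → Γ := fun i => if (i : ℕ) < m then γ i else y i with hγ'
    have hγ'F : ∀ i, ∀ f ∈ F, Commute f (γ' i) := fun i f hf => by
      simp only [hγ']
      split_ifs
      exacts [hγ i f hf, hy i f hf]
    have e1 : gen F S₀ m γ' = gen F S₀ m γ := by
      unfold gen
      congr 2
      funext i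
      split_ifs with h
      · simp only [hγ', if_pos h]
      · rfl
    set ev := UG.lift (MonoidHom.id Γ) y hy with hev
    have e2 : ∀ m', m ≤ m' → ev '' (gen F S₀ m' γ' ∪ (gen F S₀ m' γ')⁻¹) =
        (S₀ ∪ Set.range γ') ∪ (S₀ ∪ Set.range γ')⁻¹ := by
      intro m' hm'
      have : ev '' gen F S₀ m' γ' = S₀ ∪ Set.range γ' := by
        unfold gen
        rw [Set.image_union, Set.image_image, ← Set.range_comp]
        congr 1
        · exact Set.image_id _
        · congr 1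
          funext i
          simp only [Function.comp]
          split_ifs with h
          · rfl
          · rw [hev, UG.lift_t]
            simp only [hγ']
            rw [if_neg (by omega)]
      rw [image_sym, this]
    have hfin : ((S₀ ∪ Set.range γ') ∪ (S₀ ∪ Set.range γ')⁻¹).Finite :=
      (h0.union (Set.finite_range _)).union (h0.union (Set.finite_range _)).inv
    obtain ⟨hgood, hpos⟩ := H.good_of_large hne h1 h2 hfin
      (Set.subset_union_left.trans Set.subset_union_left)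
    have l1 : ent ((S₀ ∪ Set.range γ') ∪ (S₀ ∪ Set.range γ')⁻¹) ≤
        ent (gen F S₀ (m + 1) γ' ∪ (gen F S₀ (m + 1) γ')⁻¹) :=
      ent_le_ent hfin (gen_finite F h0 _ _) fun n => by
        rw [← e2 (m + 1) (by omega)]
        exact bn_image_le _ (gen_finite F h0 _ _) n
    refine ⟨_, ih (m + 1) (by omega) γ' hγ'F, ?_, ?_⟩
    · have hinj : Set.InjOn ev (ball (gen F S₀ m γ ∪ (gen F S₀ m γ)⁻¹) n) := by
        intro a ha b hb hab
        have hmem := mul_mem_ball (inv_mem_ball_sym ha) hb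
        have hrep := rep_of_mem_ball (H := H) (le_max_right r 0) (by
          have key : ∀ a ∈ gen F S₀ m γ, (∃ x, H.L x ≤ max r 0 ∧ a = UG.c F (Fin k) x) ∨
              ∃ i, a = UG.t F i := by
            rintro _ (⟨s, hs, rfl⟩ | ⟨i, rfl⟩)
            · exact Or.inl ⟨s, hr' s (Or.inl hs), rfl⟩
            · simp only
              split_ifs
              · exact Or.inl ⟨_, hr' _ (Or.inr ⟨i, rfl⟩), rfl⟩
              · exact Or.inr ⟨i, rfl⟩
          rintro a (ha | ha)
          · rcases key a ha with h | ⟨i, h⟩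
            exacts [Or.inl h, Or.inr ⟨i, true, h⟩]
          · rcases key a⁻¹ ha with ⟨x, h, h'⟩ | ⟨i, h⟩
            · exact Or.inl ⟨x⁻¹, by simpa using h, by rw [map_inv, ← h', inv_inv]⟩
            · exact Or.inr ⟨i, false, by rw [sg, cond_false, ← h, inv_inv]⟩) hmem
        exact inv_mul_eq_one.1 (hrep.eq_one hy hy' (by
          rw [map_mul, map_inv, inv_mul_eq_one]; exact hab))
      have l2 := bn_image_eq ev hinj
      rw [← e1, e2 m le_rfl, e1] at l2
      have l3 := hgood n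
      have l4 := mul_ent_le (gen_finite F h0 m γ) n
      rw [l2] at l3
      have := hn _ (le_trans (by linarith) l3)
      linarith
    · rw [← e1]
      exact ent_gen_lt hF h0 h1 (by omega) hγ'F (hpos.trans_le l1)

end Pool.Agent.P.MP_94de62_al
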