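import Pool.Agent.P.MP_94de62_al.Lower

/-!
Assembly: length functions from the definition, finite kernels, and the order types.
-/

namespace Pool.Agent.P.MP_94de62_al

open Pointwise Ordinal Filter

variable {Γ : Type*} [Group Γ]

theorem IsHyperbolicGroup.hypLen (h : IsHyperbolicGroup Γ) :
    Nonempty (HypLen Γ) ∧ ∃ X : Set Γ, X.Finite ∧ Subgroup.closure X = ⊤ := by
  obtain ⟨X, hX, hX', δ, hδ⟩ := h
  have hmem : ∀ g, g ∈ ball (X ∪ X⁻¹) (wordLength X g) := fun g =>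
    Nat.sInf_mem (exists_mem_ball_sym (S := X) (x := g) (hX' ▸ trivial))
  have hle : ∀ {g n}, g ∈ ball (X ∪ X⁻¹) n → wordLength X g ≤ n := fun h => Nat.sInf_le h
  have hinv : ∀ g, wordLength X g⁻¹ ≤ wordLength X g := fun g => hle (inv_mem_ball_sym (hmem g))
  have hmul : ∀ a b, wordLength X (a * b) ≤ wordLength X a + wordLength X b := fun a b =>
    hle (mul_mem_ball (hmem a) (hmem b))
  refine ⟨⟨⟨wordLength X, max δ 1, le_max_right _ _, Nat.le_zero.1 (hle (one_mem_ball _ 0)),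
    fun g => le_antisymm (hinv g) (by simpa using hinv g⁻¹), hmul, fun a b c => ?_,
    fun g k hk => ?_, fun r => (ball_finite (hX.union hX.inv) r).subset fun g hg =>
      ball_mono _ hg (hmem g)⟩⟩, X, hX, hX'⟩
  · have := hδ 1 a c b
    simp only [gromovProduct, inv_one, one_mul] at this
    linarith [le_max_left δ 1]
  · obtain ⟨l, h1, h2, h3⟩ := hmem g
    have e : (l.take k).prod⁻¹ * g = (l.drop k).prod := by
      rw [inv_mul_eq_iff_eq_mul, List.prod_take_mul_prod_drop, h3]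
    have a1 : wordLength X (l.take k).prod ≤ k :=
      hle ⟨_, by simp, fun a ha => h2 a (List.mem_of_mem_take ha), rfl⟩
    have a2 : wordLength X (l.drop k).prod ≤ wordLength X g - k :=
      hle ⟨_, by simp; omega, fun a ha => h2 a (List.mem_of_mem_drop ha), rfl⟩
    have a3 := hmul (l.take k).prod (l.drop k).prod
    rw [List.prod_take_mul_prod_drop, h3] at a3
    exact ⟨(l.take k).prod, by omega, by rw [e]; omega⟩

theorem HypLen.quot {Γ' : Type*} [Group Γ'] (H : HypLen Γ) (φ : Γ →* Γ')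
    (hφ : Function.Surjective φ) (hk : (φ.ker : Set Γ).Finite) : Nonempty (HypLen Γ') := by
  obtain ⟨D, hD⟩ := (hk.image H.len).bddAbove
  set l : Γ' → ℕ := fun x => sInf {n | ∃ g, φ g = x ∧ H.len g = n} with hl
  have hmem : ∀ x, ∃ g, φ g = x ∧ H.len g = l x := fun x => by
    obtain ⟨g, hg⟩ := hφ x
    exact Nat.sInf_mem (s := {n | ∃ g, φ g = x ∧ H.len g = n}) ⟨_, g, hg, rfl⟩
  have hle : ∀ g, l (φ g) ≤ H.len g := fun g => Nat.sInf_le ⟨g, rfl, rfl⟩
  have hge : ∀ g, H.len g ≤ l (φ g) + D := fun g => by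
    obtain ⟨g', h1, h2⟩ := hmem (φ g)
    have h3 := H.len_mul g' (g'⁻¹ * g)
    have h4 : H.len (g'⁻¹ * g) ≤ D := hD ⟨_, by simp [h1], rfl⟩
    rw [mul_inv_cancel_left] at h3
    omega
  have hinv : ∀ x, l x⁻¹ ≤ l x := fun x => by
    obtain ⟨g, rfl, h2⟩ := hmem x
    rw [← h2, ← map_inv, ← H.len_inv]; exact hle _
  have hmul : ∀ x y, l (x * y) ≤ l x + l y := fun x y => by
    obtain ⟨g, rfl, h2⟩ := hmem x
    obtain ⟨g', rfl, h2'⟩ := hmem y
    rw [← h2, ← h2', ← map_mul]; exact (hle _).trans (H.len_mul _ _)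
  refine ⟨⟨l, H.δ + 2 * D, by linarith [H.one_le, Nat.cast_nonneg (α := ℝ) D], ?_,
    fun x => le_antisymm (hinv x) (by simpa using hinv x⁻¹), hmul, fun a b c => ?_,
    fun x k hk => ?_, fun r => ((H.fin r).image φ).subset fun x hx => ?_⟩⟩
  · have := hle 1
    rw [map_one, H.len_one] at this
    omega
  · obtain ⟨a, rfl⟩ := hφ a
    obtain ⟨b, rfl⟩ := hφ b
    obtain ⟨c, rfl⟩ := hφ c
    have hle' : ∀ g, (l (φ g) : ℝ) ≤ H.len g := fun g => by exact_mod_cast hle g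
    have hge' : ∀ g, (H.len g : ℝ) ≤ l (φ g) + D := fun g => by exact_mod_cast hge g
    have h1 := H.four a b c
    simp only [← map_inv, ← map_mul]
    have h2 : min (((l (φ a) : ℝ) + l (φ c) - l (φ (a⁻¹ * c))) / 2)
        (((l (φ c) : ℝ) + l (φ b) - l (φ (c⁻¹ * b))) / 2) - D ≤
        min (((H.len a : ℝ) + H.len c - H.len (a⁻¹ * c)) / 2)
          (((H.len c : ℝ) + H.len b - H.len (c⁻¹ * b)) / 2) := by
      have hD0 : (0 : ℝ) ≤ D := Nat.cast_nonneg _
      refine le_min ?_ ?_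
      · linarith [min_le_left (((l (φ a) : ℝ) + l (φ c) - l (φ (a⁻¹ * c))) / 2)
          (((l (φ c) : ℝ) + l (φ b) - l (φ (c⁻¹ * b))) / 2), hle' a, hle' c, hge' (a⁻¹ * c)]
      · linarith [min_le_right (((l (φ a) : ℝ) + l (φ c) - l (φ (a⁻¹ * c))) / 2)
          (((l (φ c) : ℝ) + l (φ b) - l (φ (c⁻¹ * b))) / 2), hle' b, hle' c, hge' (c⁻¹ * b)]
    linarith [hge' a, hge' b, hle' (a⁻¹ * b)]
  · obtain ⟨g, rfl, h2⟩ := hmem x
    obtain ⟨p, h3, h4⟩ := H.geod g k (h2 ▸ hk)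
    have a1 := hle p
    have a2 := hle (p⁻¹ * g)
    have a3 := hmul (φ p) ((φ p)⁻¹ * φ g)
    rw [map_mul, map_inv] at a2
    rw [mul_inv_cancel_left] at a3
    exact ⟨φ p, by omega, by omega⟩
  · obtain ⟨g, rfl, h2⟩ := hmem x
    exact ⟨g, le_of_eq_of_le h2 hx, rfl⟩

theorem VirtuallyCyclic.of_finite_ker {A B : Type*} [Group A] [Group B] (φ : A →* B)
    (hφ : Function.Surjective φ) (hk : (φ.ker : Set A).Finite) (h : VirtuallyCyclic B) :
    VirtuallyCyclic A := by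
  obtain ⟨C, h1, h2⟩ := h
  obtain ⟨c, rfl⟩ := (Subgroup.isCyclic_iff_exists_zpowers_eq_top C).1 h1
  obtain ⟨a, rfl⟩ := hφ c
  have : Finite φ.ker := hk
  refine ⟨Subgroup.zpowers a, inferInstance, ?_⟩
  have : Finite (A ⧸ Subgroup.zpowers a) := by
    refine Finite.of_surjective (fun x : (B ⧸ Subgroup.zpowers (φ a)) × φ.ker =>
      (QuotientGroup.mk (Function.surjInv hφ x.1.out * x.2) : A ⧸ Subgroup.zpowers a)) fun q => ?_
    obtain ⟨z, rfl⟩ := QuotientGroup.mk_surjective q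
    obtain ⟨⟨_, i, rfl⟩, hi⟩ := QuotientGroup.mk_out_eq_mul (Subgroup.zpowers (φ a)) (φ z)
    refine ⟨(QuotientGroup.mk (φ z), ⟨(Function.surjInv hφ
      (QuotientGroup.mk (φ z) : B ⧸ Subgroup.zpowers (φ a)).out)⁻¹ * (z * a ^ i), ?_⟩), ?_⟩
    · rw [MonoidHom.mem_ker, map_mul, map_inv, Function.surjInv_eq hφ, hi]
      simp
    · simp only [mul_inv_cancel_left]
      rw [QuotientGroup.eq]
      exact ⟨-i, by simp⟩
  exact Subgroup.finiteIndex_of_finite_quotient

theorem VirtuallyCyclic.of_closure_image {A B : Type*} [Group A] [Group B] (φ : A →* B)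
    (hk : (φ.ker : Set A).Finite) {S : Set A} (h : VirtuallyCyclic (Subgroup.closure (φ '' S))) :
    VirtuallyCyclic (Subgroup.closure S) := by
  rw [← MonoidHom.map_closure] at h
  refine h.of_finite_ker (φ.subgroupMap _) (φ.subgroupMap_surjective _) ?_
  refine (hk.preimage Subtype.val_injective.injOn).subset fun x hx => ?_
  exact congrArg Subtype.val hx

theorem ent_image_eq {A B : Type*} [Group A] [Group B] (φ : A →* B)
    (hk : (φ.ker : Set A).Finite) {S : Set A} (hS : S.Finite) : ent (φ '' S) = ent S := by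
  refine le_antisymm (ent_le_ent (hS.image _) hS (bn_image_le φ hS)) ?_
  have hpos : (0 : ℝ) < (φ.ker : Set A).ncard := by
    exact_mod_cast (Set.ncard_pos hk).2 ⟨1, φ.ker.one_mem⟩
  have := le_mul_ent (hS.image φ) (m := 1) one_pos (a := ent S)
    (c := Real.log (φ.ker : Set A).ncard) (Eventually.of_forall fun k => by
      have h1 : ball S k ⊆ (Function.invFun φ '' ball (φ '' S) k) * (φ.ker : Set A) := by
        intro x hx
        refine ⟨_, ⟨φ x, image_ball φ S k ▸ ⟨x, hx, rfl⟩, rfl⟩,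
          (Function.invFun φ (φ x))⁻¹ * x, ?_, by simp⟩
        simp [Function.invFun_eq (f := φ) ⟨x, rfl⟩]
      have h2 : bn S k ≤ bn (φ '' S) k * (φ.ker : Set A).ncard :=
        (Set.ncard_le_ncard h1 (((ball_finite (hS.image φ) k).image _).mul hk)).trans
          (Set.natCard_mul_le.trans (Nat.mul_le_mul_right _
            (Set.ncard_image_le (ball_finite (hS.image φ) k))))
      have h3 := Real.log_le_log (by linarith [one_le_bn hS k])
        (show (bn S k : ℝ) ≤ bn (φ '' S) k * (φ.ker : Set A).ncard by exact_mod_cast h2)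
      rw [Real.log_mul (by linarith [one_le_bn (hS.image φ) k]) hpos.ne'] at h3
      rw [mul_one]
      linarith [mul_ent_le hS k])
  simpa using this

theorem nonempty_of_not_vc {S : Set Γ} (h : ¬ VirtuallyCyclic (Subgroup.closure S)) :
    S.Nonempty := by
  by_contra hc
  rw [Set.not_nonempty_iff_eq_empty] at hc
  rw [hc, Subgroup.closure_empty] at h
  exact h (VirtuallyCyclic.of_finite _)

theorem orderTypes (hyp : IsHyperbolicGroup Γ) (hne : ¬ VirtuallyCyclic Γ) {K : Type*} [Field K]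
    {d : Type*} [Fintype d] [DecidableEq d] (ρ : Γ →* GL d K) (hk : (ρ.ker : Set Γ).Finite) :
    HasOrderType (xiSet Γ) (ω ^ ω) ∧ HasOrderType (thetaSet Γ) (ω ^ ω) ∧
      HasOrderType (deltaSet Γ) (ω ^ ω) := by
  obtain ⟨⟨H⟩, X, hX, hX'⟩ := hyp.hypLen
  set φ := ρ.rangeRestrict with hφ
  have hφs : Function.Surjective φ := ρ.rangeRestrict_surjective
  have hφk : (φ.ker : Set Γ).Finite := by rwa [hφ, MonoidHom.ker_rangeRestrict]
  obtain ⟨H'⟩ := H.quot φ hφs hφk
  set ρ' : ρ.range →* Matrix d d K := (Units.coeHom _).comp ρ.range.subtype with hρ'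
  have hρ'i : Function.Injective ρ' := Units.val_injective.comp Subtype.val_injective
  have hne' : ¬ VirtuallyCyclic ρ.range := fun h => hne (h.of_finite_ker φ hφs hφk)
  set A₁ := {x | ∃ S : Set Γ, S.Finite ∧ Subgroup.closure S = ⊤ ∧ ent (S ∪ S⁻¹) = x} with hA₁
  set A₂ := {x | ∃ S : Set Γ, S.Finite ∧ ¬ VirtuallyCyclic (Subgroup.closure S) ∧
    ent (S ∪ S⁻¹) = x} with hA₂
  set A₃ := {x | ∃ S : Set Γ, S.Finite ∧ ¬ VirtuallyCyclic (Subgroup.closure S) ∧ ent S = x}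
    with hA₃
  have h12 : A₁ ⊆ A₂ := fun _ ⟨S, h1, h2, h3⟩ =>
    ⟨S, h1, fun h => hne (h.of_closure_eq_top h2), h3⟩
  have h23 : A₂ ⊆ A₃ := fun _ ⟨S, h1, h2, h3⟩ =>
    ⟨S ∪ S⁻¹, h1.union h1.inv, by
      rwa [Subgroup.closure_union, Subgroup.closure_inv, sup_idem], h3⟩
  have hup : Emb A₃ (ω ^ ω) := (emb_ent ρ' H' hρ'i).mono (fun _ ⟨S, h1, h2, h3⟩ =>
    ⟨φ '' S, h1.image _, fun h => h2 (h.of_closure_image φ hφk),
      (ent_image_eq φ hφk h1).trans h3⟩) le_rfl
  have hlow : ∀ j, (Der A₁ j).Nonempty := fun j => by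
    refine (der_nonempty ρ' hρ'i H' hne' (hX.image φ)
      (by rw [← MonoidHom.map_closure, hX', ← MonoidHom.range_eq_map,
        MonoidHom.range_eq_top.2 hφs]) j).mono (Der.mono ?_ j)
    rintro _ ⟨S, h1, h2, rfl⟩
    have hfin : (φ ⁻¹' S).Finite := by
      refine ((h1.image (Function.surjInv hφs)).mul hφk).subset fun x hx => ?_
      exact ⟨_, ⟨φ x, hx, rfl⟩, (Function.surjInv hφs (φ x))⁻¹ * x, by
        simp [Function.surjInv_eq hφs], by simp⟩
    have him : φ '' (φ ⁻¹' S) = S := Set.image_preimage_eq S hφs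
    refine ⟨φ ⁻¹' S, hfin, ?_, ?_⟩
    · obtain ⟨s, hs⟩ := nonempty_of_not_vc (S := S) fun h => hne' (h.of_closure_eq_top h2)
      obtain ⟨s, rfl⟩ := hφs s
      refine top_le_iff.1 fun z _ => ?_
      have : φ z ∈ (Subgroup.closure (φ ⁻¹' S)).map φ := by
        rw [MonoidHom.map_closure, him, h2]; trivial
      obtain ⟨w, hw, hw'⟩ := this
      have h3 : s * (w⁻¹ * z) ∈ φ ⁻¹' S := by
        simp only [Set.mem_preimage, map_mul, map_inv, hw', inv_mul_cancel, mul_one]; exact hs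
      have := Subgroup.mul_mem _ hw (Subgroup.mul_mem _
        (Subgroup.inv_mem _ (Subgroup.subset_closure (k := φ ⁻¹' S) hs))
        (Subgroup.subset_closure h3))
      simpa using this
    · rw [← ent_image_eq φ hφk (hfin.union hfin.inv), image_sym, him]
  have e1 : xiSet Γ = Real.exp '' A₁ := by
    ext r
    constructor
    · rintro ⟨S, h1, h2, h3⟩
      exact ⟨_, ⟨S, h1, h2, rfl⟩, ((hasGrowthRate_groupBall h1).1 h3).symm⟩
    · rintro ⟨_, ⟨S, h1, h2, rfl⟩, rfl⟩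
      exact ⟨S, h1, h2, (hasGrowthRate_groupBall h1).2 rfl⟩
  have e2 : thetaSet Γ = Real.exp '' A₂ := by
    ext r
    constructor
    · rintro ⟨S, h1, h2, h3⟩
      exact ⟨_, ⟨S, h1, h2, rfl⟩, ((hasGrowthRate_groupBall h1).1 h3).symm⟩
    · rintro ⟨_, ⟨S, h1, h2, rfl⟩, rfl⟩
      exact ⟨S, h1, h2, (hasGrowthRate_groupBall h1).2 rfl⟩
  have e3 : deltaSet Γ = Real.exp '' A₃ := by
    ext r
    constructor
    · rintro ⟨S, h1, h2, h3⟩
      exact ⟨_, ⟨S, h1, h2, rfl⟩,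
        ((hasGrowthRate_semigroupBall h1 (nonempty_of_not_vc h2)).1 h3).symm⟩
    · rintro ⟨_, ⟨S, h1, h2, rfl⟩, rfl⟩
      exact ⟨S, h1, h2, (hasGrowthRate_semigroupBall h1 (nonempty_of_not_vc h2)).2 rfl⟩
  rw [e1, e2, e3]
  exact ⟨(hasOrderType_of (hup.mono (h12.trans h23) le_rfl) hlow).exp,
    (hasOrderType_of (hup.mono h23 le_rfl) fun j => (hlow j).mono (Der.mono h12 j)).exp,
    (hasOrderType_of hup fun j => (hlow j).mono (Der.mono (h12.trans h23) j)).exp⟩

end Pool.Agent.P.MP_94de62_al
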