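import Pool.Agent.P.MP_94de62_al.Defs

/-!
Order types of well ordered sets of reals.
-/

namespace Pool.Agent.P.MP_94de62_al

open Ordinal Set

/-- Sets of reals whose left accumulation rank is less than `d`. -/
def Thin : ℕ → Set ℝ → Prop
  | 0, A => A = ∅
  | d + 1, A => ∃ F : Finset ℝ, ∀ ε > 0, Thin d {a ∈ A | ∀ x ∈ F, ¬ (x - ε < a ∧ a ≤ x)}

theorem Thin.mono : ∀ {d : ℕ} {A B : Set ℝ}, Thin d A → B ⊆ A → Thin d B
  | 0, A, B, h, hB => by
    change A = ∅ at h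
    change B = ∅
    exact subset_eq_empty hB h
  | d + 1, A, B, ⟨F, h⟩, hB => ⟨F, fun ε hε => (h ε hε).mono fun _ ha => ⟨hB ha.1, ha.2⟩⟩

theorem thin_empty : ∀ d : ℕ, Thin d ∅
  | 0 => rfl
  | d + 1 => ⟨∅, fun _ _ => (thin_empty d).mono fun _ ha => ha.1⟩

theorem Thin.union : ∀ {d : ℕ} {A B : Set ℝ}, Thin d A → Thin d B → Thin d (A ∪ B)
  | 0, A, B, hA, hB => by
    change A = ∅ at hA
    change B = ∅ at hB
    change A ∪ B = ∅
    rw [hA, hB, union_empty]
  | d + 1, A, B, ⟨F, h⟩, ⟨F', h'⟩ => ⟨F ∪ F', fun ε hε => ((h ε hε).union (h' ε hε)).mono <| by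
      rintro a ⟨ha | ha, h2⟩
      · exact Or.inl ⟨ha, fun x hx => h2 x (Finset.mem_union_left _ hx)⟩
      · exact Or.inr ⟨ha, fun x hx => h2 x (Finset.mem_union_right _ hx)⟩⟩

theorem Thin.succ {d : ℕ} {A : Set ℝ} (h : Thin d A) : Thin (d + 1) A :=
  ⟨∅, fun _ _ => h.mono fun _ ha => ha.1⟩

theorem Thin.of_le {d e : ℕ} {A : Set ℝ} (h : Thin d A) (hde : d ≤ e) : Thin e A := by
  induction hde with
  | refl => exact h
  | step _ ih => exact ih.succ

theorem thin_biUnion {ι : Type*} {d : ℕ} {I : Set ι} (hI : I.Finite) {A : ι → Set ℝ}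
    (h : ∀ i ∈ I, Thin d (A i)) : Thin d (⋃ i ∈ I, A i) := by
  induction I, hI using Set.Finite.induction_on with
  | empty => simpa using thin_empty d
  | insert _ _ ih =>
    rw [biUnion_insert]
    exact (h _ (mem_insert _ _)).union (ih fun i hi => h i (mem_insert_of_mem _ hi))

theorem thin_of_finite {A : Set ℝ} (h : A.Finite) : Thin 1 A :=
  ⟨h.toFinset, fun ε hε => eq_empty_of_forall_notMem fun a ha =>
    ha.2 a (h.mem_toFinset.2 ha.1) ⟨by linarith, le_rfl⟩⟩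

/-- `A` embeds into the ordinals below `o`. -/
def Emb (A : Set ℝ) (o : Ordinal.{0}) : Prop :=
  ∃ f : ℝ → Ordinal.{0}, StrictMonoOn f A ∧ ∀ a ∈ A, f a < o

theorem Emb.mono {A B : Set ℝ} {o o' : Ordinal.{0}} (h : Emb A o) (hB : B ⊆ A) (ho : o ≤ o') :
    Emb B o' := by
  obtain ⟨f, h1, h2⟩ := h
  exact ⟨f, h1.mono hB, fun a ha => (h2 a (hB ha)).trans_le ho⟩

theorem emb_limit {A : Set ℝ} {o : Ordinal.{0}} (h : ∀ a ∈ A, Emb (A ∩ Iic a) o) : Emb A o := by
  set r : ℝ → ℝ → Prop := fun a b => a ∈ A ∧ b ∈ A ∧ a < b with hr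
  have hacc : ∀ a, Acc r a := by
    intro a
    by_cases ha : a ∈ A
    · obtain ⟨f, h1, -⟩ := h a ha
      have : ∀ (β : Ordinal.{0}) (b : ℝ), b ∈ A → b ≤ a → f b = β → Acc r b := by
        intro β
        induction β using WellFoundedLT.induction with
        | ind β ih =>
          intro b hb hba hf
          exact ⟨b, fun c hc => ih (f c) (hf ▸ h1 ⟨hc.1, (hc.2.2.le.trans hba :)⟩ ⟨hb, hba⟩ hc.2.2)
            c hc.1 (hc.2.2.le.trans hba) rfl⟩
      exact this _ a ha le_rfl rfl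
    · exact ⟨a, fun c hc => absurd hc.2.1 ha⟩
  have : IsWellFounded ℝ r := ⟨⟨hacc⟩⟩
  refine ⟨IsWellFounded.rank r, fun a ha b hb hab => IsWellFounded.rank_lt_of_rel ⟨ha, hb, hab⟩,
    fun a ha => ?_⟩
  obtain ⟨f, h1, h2⟩ := h a ha
  have : ∀ b, b ∈ A → b ≤ a → IsWellFounded.rank r b ≤ f b := by
    intro b
    induction b using IsWellFounded.induction r with
    | ind b ih =>
      intro hb hba
      rw [IsWellFounded.rank_eq]
      refine Ordinal.iSup_le fun c => Order.succ_le_of_lt ?_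
      have hca : c.1 ≤ a := c.2.2.2.le.trans hba
      exact (ih c.1 c.2 c.2.1 hca).trans_lt (h1 ⟨c.2.1, hca⟩ ⟨hb, hba⟩ c.2.2.2)
  exact (this a ha le_rfl).trans_lt (h2 a ⟨ha, mem_Iic.2 le_rfl⟩)

theorem emb_concat {A : Set ℝ} {x : ℝ} {o₁ o₂ : Ordinal.{0}} (h₁ : Emb (A ∩ Iio x) o₁)
    (h₂ : Emb (A ∩ Ioi x) o₂) : Emb A (o₁ + 1 + o₂) := by
  obtain ⟨f, f1, f2⟩ := h₁
  obtain ⟨g, g1, g2⟩ := h₂
  have l1 : o₁ < o₁ + 1 := Order.lt_succ o₁
  refine ⟨fun a => if a < x then f a else if a = x then o₁ else o₁ + 1 + g a, ?_, ?_⟩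
  · intro a ha b hb hab
    rcases lt_trichotomy a x with h | h | h <;> rcases lt_trichotomy b x with h' | h' | h'
    · simpa [h, h'] using f1 ⟨ha, h⟩ ⟨hb, h'⟩ hab
    · simpa [h, h'] using f2 a ⟨ha, h⟩
    · simp only [h, h'.not_gt, h'.ne', if_true, if_false]
      exact (f2 a ⟨ha, h⟩).trans (l1.trans_le le_self_add)
    · exact absurd (h ▸ hab) h'.not_gt
    · exact absurd (h.trans h'.symm) hab.ne
    · simp only [h, lt_irrefl, h'.not_gt, h'.ne', if_true, if_false]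
      exact l1.trans_le le_self_add
    · exact absurd (h.trans hab) h'.not_gt
    · exact absurd (h.trans hab) (h' ▸ lt_irrefl _)
    · simp only [h.not_gt, h.ne', h'.not_gt, h'.ne', if_false]
      exact add_lt_add_right (g1 ⟨ha, h⟩ ⟨hb, h'⟩ hab) _
  · intro a ha
    rcases lt_trichotomy a x with h | h | h
    · simp only [h, if_true]
      exact (f2 a ⟨ha, h⟩).trans (l1.trans_le le_self_add)
    · simp only [h, lt_irrefl, if_true, if_false]
      exact l1.trans_le le_self_add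
    · simp only [h.not_gt, h.ne', if_false]
      exact add_lt_add_right (g2 a ⟨ha, h⟩) _

theorem Thin.emb : ∀ {d : ℕ} {A : Set ℝ}, Thin d A → ∃ o < ω ^ (d : Ordinal.{0}), Emb A o
  | 0, A, h => ⟨0, by simp, by
      change A = ∅ at h
      exact ⟨fun _ => 0, by rw [h]; exact fun _ h => h.elim, by rw [h]; exact fun _ h => h.elim⟩⟩
  | d + 1, A, ⟨F, h⟩ => by
    have hlt : ω ^ (d : Ordinal.{0}) < ω ^ ((d + 1 : ℕ) : Ordinal.{0}) :=
      (opow_lt_opow_iff_right one_lt_omega0).2 (by exact_mod_cast Nat.lt_succ_self d)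
    have h1lt : (1 : Ordinal.{0}) < ω ^ ((d + 1 : ℕ) : Ordinal.{0}) :=
      lt_of_le_of_lt (Order.one_le_iff_pos.2 (opow_pos _ omega0_pos)) hlt
    induction F using Finset.induction_on_min generalizing A with
    | empty =>
      obtain ⟨o, ho, he⟩ := (h 1 one_pos).emb
      exact ⟨o, ho.trans hlt, he.mono (fun a ha => ⟨ha, by simp⟩) le_rfl⟩
    | insert x F hx ih =>
      obtain ⟨o₂, ho₂, he₂⟩ := ih (A ∩ Ioi x) fun ε hε => (h ε hε).mono fun a ha =>
        ⟨ha.1.1, fun y hy => by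
          rcases Finset.mem_insert.1 hy with rfl | hy
          · exact fun h => absurd h.2 (not_le.2 ha.1.2)
          · exact ha.2 y hy⟩
      have he₁ : Emb (A ∩ Iio x) (ω ^ (d : Ordinal.{0})) := by
        refine emb_limit fun a ha => ?_
        obtain ⟨o, ho, he⟩ := (h (x - a) (sub_pos.2 ha.2)).emb
        refine he.mono (fun b hb => ⟨hb.1.1, fun y hy => ?_⟩) ho.le
        have : x ≤ y := by
          rcases Finset.mem_insert.1 hy with rfl | hy
          · exact le_rfl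
          · exact (hx y hy).le
        have hb2 : b ≤ a := hb.2
        intro h'
        linarith [h'.1]
      exact ⟨_, isPrincipal_add_omega0_opow _ (isPrincipal_add_omega0_opow _ hlt h1lt) ho₂,
        emb_concat he₁ he₂⟩

/-- Iterated left accumulation points. -/
def Der (A : Set ℝ) : ℕ → Set ℝ
  | 0 => A
  | j + 1 => {x | ∀ z < x, ∃ y ∈ Der A j, z < y ∧ y < x}

theorem der_bound {A : Set ℝ} {f : ℝ → Ordinal.{0}} (hf : StrictMonoOn f A) :
    ∀ (j : ℕ) (x z : ℝ) (β : Ordinal.{0}), x ∈ Der A j → z < x → (∀ a ∈ A, z < a → β ≤ f a) →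
      ∀ γ < β + ω ^ (j : Ordinal.{0}), ∃ a ∈ A, a ≤ x ∧ γ ≤ f a
  | 0, x, z, β, hx, hz, hβ, γ, hγ => ⟨x, hx, le_rfl, by
      rw [Nat.cast_zero, opow_zero] at hγ
      exact (Order.lt_succ_iff.1 hγ).trans (hβ x hx hz)⟩
  | j + 1, x, z, β, hx, hz, hβ, γ, hγ => by
    have key : ∀ n : ℕ, ∃ z' < x, ∀ a ∈ A, z' < a → β + ω ^ (j : Ordinal.{0}) * n ≤ f a := by
      intro n
      induction n with
      | zero => exact ⟨z, hz, by simpa using hβ⟩
      | succ n ih =>
        obtain ⟨z', hz', h⟩ := ih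
        obtain ⟨y, hy, h1, h2⟩ := hx z' hz'
        refine ⟨y, h2, fun a ha hya => le_of_forall_lt fun c hc => ?_⟩
        rw [Nat.cast_succ, mul_add_one, ← add_assoc] at hc
        obtain ⟨b, hb, hb1, hb2⟩ := der_bound hf j y z' _ hy h1 h c hc
        exact hb2.trans_lt (hf hb ha (hb1.trans_lt hya))
    obtain ⟨c, hc, hγc⟩ := (lt_add_iff (opow_pos _ omega0_pos).ne').1 hγ
    rw [Nat.cast_succ, ← Order.succ_eq_add_one, lt_omega0_opow_succ] at hc
    obtain ⟨n, hn⟩ := hc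
    obtain ⟨z', hz', h⟩ := key n
    obtain ⟨y, hy, h1, h2⟩ := hx z' hz'
    obtain ⟨b, hb, hb1, hb2⟩ := der_bound hf j y z' _ hy h1 h γ
      (hγc.trans_lt ((add_lt_add_right hn β).trans_le le_self_add))
    exact ⟨b, hb, hb1.trans h2.le, hb2⟩

theorem Emb.opow_le {A : Set ℝ} {o : Ordinal.{0}} (h : Emb A o) {j : ℕ}
    (hj : (Der A j).Nonempty) : ω ^ (j : Ordinal.{0}) ≤ o := by
  obtain ⟨f, h1, h2⟩ := h
  obtain ⟨x, hx⟩ := hj
  refine le_of_forall_lt fun c hc => ?_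
  obtain ⟨a, ha, -, h⟩ := der_bound h1 j x (x - 1) 0 hx (by linarith) (fun _ _ _ => zero_le) c
    (by simpa using hc)
  exact h.trans_lt (h2 a ha)

theorem Der.mono {A B : Set ℝ} (h : A ⊆ B) : ∀ j, Der A j ⊆ Der B j
  | 0 => h
  | j + 1 => fun _ hx z hz => by
    obtain ⟨y, hy, h'⟩ := hx z hz
    exact ⟨y, Der.mono h j hy, h'⟩

theorem hasOrderType_of {A : Set ℝ} (h : Emb A (ω ^ ω)) (hd : ∀ j, (Der A j).Nonempty) :
    HasOrderType A (ω ^ ω) := by
  classical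
  obtain ⟨f, f1, f2⟩ := h
  have hm : StrictMono fun a : A => (ToType.mk ⟨f a, f2 a a.2⟩ : (ω ^ ω : Ordinal.{0}).ToType) :=
    fun a b hab => ToType.mk.strictMono (f1 a.2 b.2 hab)
  have : WellFoundedLT A := hm.wellFoundedLT
  have h1 : typeLT A ≤ ω ^ ω := by
    rw [← type_toType (ω ^ ω)]
    exact type_le_iff'.2 ⟨RelEmbedding.ofMonotone _ fun a b hab => hm hab⟩
  have h2 : Emb A (typeLT A) :=
    ⟨fun a => if h : a ∈ A then typein (α := A) (· < ·) ⟨a, h⟩ else 0, fun a ha b hb hab => by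
      simp only [ha, hb, dif_pos]
      exact (typein_lt_typein _).2 hab, fun a ha => by
      simp only [ha, dif_pos]
      exact typein_lt_type _ _⟩
  have h3 : ω ^ ω ≤ typeLT A := by
    refine (opow_le_of_isSuccLimit omega0_pos.ne' isSuccLimit_omega0).2 fun b hb => ?_
    obtain ⟨j, rfl⟩ := lt_omega0.1 hb
    exact h2.opow_le (hd j)
  have h4 : typeLT A = typeLT (ω ^ ω : Ordinal.{0}).ToType := by
    rw [type_toType]; exact le_antisymm h1 h3
  obtain ⟨e⟩ := type_eq.1 h4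
  exact ⟨OrderIso.ofRelIsoLT e⟩

theorem HasOrderType.exp {A : Set ℝ} {o : Ordinal.{0}} (h : HasOrderType A o) :
    HasOrderType (Real.exp '' A) o := by
  obtain ⟨e⟩ := h
  exact ⟨((Real.exp_strictMono.strictMonoOn A).orderIso _ _).symm.trans e⟩

end Pool.Agent.P.MP_94de62_al
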