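import Pool.Agent.P.MP_94de62_al.Hyp
import Pool.Agent.P.MP_94de62_al.Defs

/-!
Overlaps of axes, elementary subgroups and the existence of straight elements.
-/

namespace Pool.Agent.P.MP_94de62_al

open Filter Pointwise

/-- The elements that conjugate `G` to `G` or to its inverse. -/
def elem {Γ : Type*} [Group Γ] (G : Γ) : Subgroup Γ where
  carrier := {z | z⁻¹ * G * z = G ∨ z⁻¹ * G * z = G⁻¹}
  one_mem' := Or.inl (by simp)
  mul_mem' := by
    rintro a b (ha | ha) (hb | hb)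
    · left; rw [show (a * b)⁻¹ * G * (a * b) = b⁻¹ * (a⁻¹ * G * a) * b by group, ha, hb]
    · right; rw [show (a * b)⁻¹ * G * (a * b) = b⁻¹ * (a⁻¹ * G * a) * b by group, ha, hb]
    · right
      rw [show (a * b)⁻¹ * G * (a * b) = b⁻¹ * (a⁻¹ * G * a) * b by group, ha,
        show b⁻¹ * G⁻¹ * b = (b⁻¹ * G * b)⁻¹ by group, hb]
    · left
      rw [show (a * b)⁻¹ * G * (a * b) = b⁻¹ * (a⁻¹ * G * a) * b by group, ha,
        show b⁻¹ * G⁻¹ * b = (b⁻¹ * G * b)⁻¹ by group, hb, inv_inv]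
  inv_mem' := by
    rintro a (ha | ha)
    · left
      calc a⁻¹⁻¹ * G * a⁻¹ = a * (a⁻¹ * G * a) * a⁻¹ := by rw [ha, inv_inv]
        _ = G := by group
    · right
      calc a⁻¹⁻¹ * G * a⁻¹ = a * (a⁻¹ * G * a)⁻¹ * a⁻¹ := by rw [ha, inv_inv, inv_inv]
        _ = G⁻¹ := by group

theorem mem_elem {Γ : Type*} [Group Γ] {G z : Γ} :
    z ∈ elem G ↔ z⁻¹ * G * z = G ∨ z⁻¹ * G * z = G⁻¹ := Iff.rfl

theorem self_mem_elem {Γ : Type*} [Group Γ] (G : Γ) : G ∈ elem G := Or.inl (by group)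

namespace HypLen

variable {Γ : Type*} [Group Γ] (H : HypLen Γ)

/-- The size of the ball of radius `200 δ`. -/
noncomputable def N : ℕ := (H.finite_ball (200 * H.δ)).toFinset.card

theorem card_le_N {α : Type*} (T : Finset α) (f : α → Γ) (hf : Set.InjOn f T)
    (h : ∀ a ∈ T, H.L (f a) ≤ 200 * H.δ) : T.card ≤ H.N :=
  Finset.card_le_card_of_injOn f (fun a ha => by simpa using h a ha) hf

theorem N_pos : 0 < H.N := by
  have := H.card_le_N ({1} : Finset Γ) id (Set.injOn_id _) (by simp; linarith [H.δ_pos])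
  rw [Finset.card_singleton] at this
  exact this

variable {H}

theorem overlap {g h z : Γ} (hg : H.Straight g) (hh : H.Straight h)
    (hL : ∀ i : ℕ, H.L (h ^ i) = H.L (g ^ i)) {K : ℕ} (hz : H.L z ≤ K * H.L g) {I I' : ℕ}
    (hR : (2 * K + 1 + H.N) * H.L g ≤ H.p (g ^ I) (z * h ^ I')) :
    ∃ j, 1 ≤ j ∧ j ≤ H.N ∧ g ^ j * z = z * h ^ j := by
  have hδ := H.δ_pos
  have hl := hg.long
  have hlp := hg.L_pos
  set Q := z * h ^ I' with hQ
  have ha : ∀ m : ℕ, m ≤ 2 * K + 1 + H.N → H.L (g ^ m) - 13 * H.δ ≤ H.p (g ^ m) Q := by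
    intro m hm
    have hm' : (m : ℝ) ≤ 2 * K + 1 + H.N := by exact_mod_cast hm
    have h1 : (m : ℝ) * H.L g ≤ H.p (g ^ I) Q := le_trans (by gcongr) hR
    have h2 : (m : ℝ) * H.L g ≤ I * H.L g :=
      le_trans h1 (le_trans (H.p_le_left _ _) (H.L_pow_le g I))
    have h3 : m ≤ I := by exact_mod_cast le_of_mul_le_mul_right h2 hlp
    have h4 := hg.p_le h3
    have h5 := H.L_pow_le g m
    have := H.fourA (a := g ^ m) (b := Q) (c := g ^ I) (t := H.L (g ^ m) - 12 * H.δ) h4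
      (by linarith)
    linarith
  have hlong : ∀ m : ℕ, 2 * K + 1 ≤ m → H.L z + 50 * H.δ ≤ H.L (g ^ m) := by
    intro m hm
    have hm' : (2 * K + 1 : ℝ) ≤ m := by exact_mod_cast hm
    have h1 := hg.L_ge_half m
    nlinarith
  have hb : ∀ m : ℕ, 2 * K + 1 ≤ m → m ≤ 2 * K + 1 + H.N →
      H.L (z⁻¹ * g ^ m) - 14 * H.δ ≤ H.p (z⁻¹ * g ^ m) (h ^ I') := by
    intro m hm hm'
    have h1 := H.p_mul_self (g ^ m)⁻¹ Q
    have h2 := H.p_mul_self (g ^ m)⁻¹ z
    rw [inv_inv, L_inv] at h1 h2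
    have h3 := H.p_le_right (g ^ m) z
    have h4 := H.fourB (a := (g ^ m)⁻¹ * Q) (b := (g ^ m)⁻¹) (c := (g ^ m)⁻¹ * z)
      (t := 13 * H.δ) (by rw [p_comm]; linarith [ha m hm']) (by linarith [hlong m hm])
    have h5 := H.p_mul_self (z⁻¹ * g ^ m) ((g ^ m)⁻¹ * Q)
    rw [show z⁻¹ * g ^ m * ((g ^ m)⁻¹ * Q) = h ^ I' by rw [hQ]; group,
      show (z⁻¹ * g ^ m)⁻¹ = (g ^ m)⁻¹ * z by group, H.p_comm _ ((g ^ m)⁻¹ * Q)] at h5
    linarith
  have hc : ∀ m : ℕ, H.L (z⁻¹ * g ^ m) + H.L (h ^ I') - 2 * H.p (z⁻¹ * g ^ m) (h ^ I') =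
      H.L (g ^ m) + H.L Q - 2 * H.p (g ^ m) Q := by
    intro m
    rw [← L_inv_mul, ← L_inv_mul]
    exact H.L_congr (by rw [hQ]; group)
  set u := z⁻¹ * g ^ (2 * K + 1) with hu
  have hd : ∀ j : ℕ, j ≤ H.N →
      H.L ((h ^ j * u)⁻¹ * (z⁻¹ * g ^ (2 * K + 1 + j))) ≤ 200 * H.δ := by
    intro j hj
    have b0 := hb (2 * K + 1) le_rfl (by omega)
    have b1 := hb (2 * K + 1 + j) (by omega) (by omega)
    have a0 := ha (2 * K + 1) (by omega)
    have a1 := ha (2 * K + 1 + j) (by omega)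
    have c0 := hc (2 * K + 1)
    have c1 := hc (2 * K + 1 + j)
    rw [← hu] at b0 c0
    set q := z⁻¹ * g ^ (2 * K + 1 + j) with hq
    have l0 : 50 * H.δ ≤ H.L u := by
      have := H.L_le_mul_left z⁻¹ (g ^ (2 * K + 1))
      rw [L_inv] at this
      linarith [hlong (2 * K + 1) le_rfl]
    have d1 := H.fourB (a := (h ^ j)⁻¹) (b := h ^ I') (c := u) (hh.pw j I')
      (by rw [p_comm]; linarith)
    have d2 := H.L_mul_eq (h ^ j) u
    have d3 := H.p_nonneg (h ^ j)⁻¹ u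
    have d4 := hh.L_add j I'
    have d5 := hh.p_add I' j
    have d6 := H.L_inv_mul (h ^ j * u) (h ^ (I' + j))
    rw [show (h ^ j * u)⁻¹ * h ^ (I' + j) = u⁻¹ * h ^ I' by rw [add_comm, pow_add]; group,
      L_inv_mul] at d6
    rw [add_comm j I'] at d4
    have d7 := H.p_le_right q (h ^ I')
    have d8 := H.p_le_left q (h ^ I')
    have d9 := H.p_le_left u (h ^ I')
    have d10 := H.p_le_left (g ^ (2 * K + 1)) Q
    have d11 := H.p_le_left (g ^ (2 * K + 1 + j)) Q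
    have d12 := hg.L_add (2 * K + 1) j
    have d13 := H.L_mul (g ^ (2 * K + 1)) (g ^ j)
    rw [← pow_add] at d13
    have d14 := hL j
    have m1 := min_le_left (H.L (h ^ j * u)) (H.L q)
    have m2 := min_le_right (H.L (h ^ j * u)) (H.L q)
    have e1 := H.fourA (a := h ^ j * u) (b := h ^ I') (c := h ^ (I' + j))
      (t := min (H.L (h ^ j * u)) (H.L q) - 26 * H.δ) (by linarith) (by rw [p_comm]; linarith)
    have e2 := H.fourA (a := h ^ j * u) (b := q) (c := h ^ I') e1 (by rw [p_comm]; linarith)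
    have := H.close (a := h ^ j * u) (b := q) (η := 28 * H.δ) (β := 80 * H.δ) (by linarith)
      (by linarith) (by linarith)
    linarith
  by_contra hcon
  push Not at hcon
  have key : ∀ i j : ℕ, i < j → j ≤ H.N →
      (h ^ i * u)⁻¹ * (z⁻¹ * g ^ (2 * K + 1 + i)) ≠ (h ^ j * u)⁻¹ * (z⁻¹ * g ^ (2 * K + 1 + j)) := by
    intro i j hij hj he
    obtain ⟨d, rfl⟩ := Nat.exists_eq_add_of_lt hij
    refine hcon (d + 1) (by omega) (by omega) ?_
    have e1 : z⁻¹ * g ^ (2 * K + 1 + i) =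
        (h ^ (d + 1))⁻¹ * z⁻¹ * g ^ (d + 1) * g ^ (2 * K + 1 + i) := by
      calc z⁻¹ * g ^ (2 * K + 1 + i)
          = (h ^ i * u) * ((h ^ i * u)⁻¹ * (z⁻¹ * g ^ (2 * K + 1 + i))) := by group
        _ = (h ^ i * u) * ((h ^ (i + d + 1) * u)⁻¹ * (z⁻¹ * g ^ (2 * K + 1 + (i + d + 1)))) := by
          rw [he]
        _ = _ := by group
    have e2 := mul_right_cancel e1
    calc g ^ (d + 1) * z = z * h ^ (d + 1) * ((h ^ (d + 1))⁻¹ * z⁻¹ * g ^ (d + 1)) * z := by group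
      _ = z * h ^ (d + 1) := by rw [← e2]; group
  have := H.card_le_N (Finset.range (H.N + 1))
    (fun j => (h ^ j * u)⁻¹ * (z⁻¹ * g ^ (2 * K + 1 + j))) (by
      intro i hi j hj he
      have hi' : i ≤ H.N := by simpa [Nat.lt_succ_iff] using hi
      have hj' : j ≤ H.N := by simpa [Nat.lt_succ_iff] using hj
      rcases lt_trichotomy i j with h | h | h
      · exact absurd he (key i j h hj')
      · exact h
      · exact absurd he.symm (key j i h hi'))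
    (fun j hj => hd j (by simpa [Nat.lt_succ_iff] using hj))
  simp at this

theorem overlap_fac {g h z : Γ} (hg : H.Straight g) (hh : H.Straight h)
    (hL : ∀ i : ℕ, H.L (h ^ i) = H.L (g ^ i)) {K : ℕ} (hz : H.L z ≤ K * H.L g) {I I' : ℕ}
    (hR : (2 * K + 1 + H.N) * H.L g ≤ H.p (g ^ I) (z * h ^ I')) :
    g ^ H.N.factorial * z = z * h ^ H.N.factorial := by
  obtain ⟨j, h1, h2, h3⟩ := overlap hg hh hL hz hR
  obtain ⟨k, hk⟩ := Nat.dvd_factorial h1 h2
  have : SemiconjBy z (h ^ j) (g ^ j) := h3.symm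
  rw [hk, pow_mul, pow_mul]
  exact (this.pow_right k).symm

/-- An element outside the elementary subgroup has a short overlap. -/
theorem overlap_lt {g g' h z : Γ} (hg : H.Straight g) (hg' : g' = g ∨ g' = g⁻¹)
    (hh : h = g ∨ h = g⁻¹) (hzE : z ∉ elem (g ^ H.N.factorial)) {K : ℕ}
    (hz : H.L z ≤ K * H.L g) (I I' : ℕ) :
    H.p (g' ^ I) (z * h ^ I') < (2 * K + 1 + H.N) * H.L g := by
  by_contra hcon
  push Not at hcon
  apply hzE
  rcases hg' with rfl | rfl <;> rcases hh with rfl | rfl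
  · have := overlap_fac hg hg (fun _ => rfl) hz hcon
    left; rw [mul_assoc, this]; group
  · have := overlap_fac hg hg.inv (fun i => by rw [inv_pow, L_inv]) hz hcon
    right; rw [mul_assoc, this]; group
  · have := overlap_fac hg.inv hg (fun i => by rw [inv_pow, L_inv]) (by simpa using hz)
      (by simpa using hcon)
    right
    calc z⁻¹ * h ^ H.N.factorial * z = (z⁻¹ * (h⁻¹ ^ H.N.factorial * z))⁻¹ := by group
      _ = _ := by rw [this]; group
  · have := overlap_fac hg.inv hg.inv (fun _ => rfl) (by simpa using hz) (by simpa using hcon)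
    left
    calc z⁻¹ * g ^ H.N.factorial * z = (z⁻¹ * (g⁻¹ ^ H.N.factorial * z))⁻¹ := by group
      _ = _ := by rw [this]; group

/-- Few elements commute with `G` and keep a third direction. -/
theorem card_le_of_commute {G : Γ} (hG : H.Straight G) {P : ℕ → Γ} {A : ℝ} (hA : 12 * H.δ ≤ A)
    (h1 : ∀ k, H.p (G ^ k) (P k) ≤ A) (h2 : ∀ k, H.p (G ^ k)⁻¹ (P k) ≤ A) (T : Finset Γ)
    (hT : ∀ ζ ∈ T, Commute ζ G ∧ ∀ᶠ k in atTop, A + 9 * H.δ ≤ H.p (P k) (ζ * P k)) :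
    T.card ≤ H.N := by
  have hev : ∀ᶠ k in atTop, ∀ ζ ∈ T, A + 9 * H.δ ≤ H.p (P k) (ζ * P k) ∧
      A + 9 * H.δ + H.L ζ ≤ H.L (G ^ k) :=
    (Finset.eventually_all T).2 fun ζ hζ => (hT ζ hζ).2.and (hG.exists_L_ge _)
  obtain ⟨k, hk⟩ := hev.exists
  obtain ⟨m, hm⟩ := H.tripod (P := ![(G ^ k)⁻¹, G ^ k, P k]) (A := A) (by
    intro i j hij
    have e1 := hG.pw k k
    have e2 := h1 k
    have e3 := h2 k
    fin_cases i <;> fin_cases j <;> simp at hij ⊢
    · linarith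
    · linarith
    · rw [p_comm]; linarith
    · linarith
    · rw [p_comm]; linarith
    · rw [p_comm]; linarith)
  refine H.card_le_N T (fun ζ => m⁻¹ * ζ * m) (fun a _ b _ hab => by simpa using hab)
    fun ζ hζ => le_trans (hm ζ fun i => ?_) (by linarith [H.δ_pos])
  have hc := ((hT ζ hζ).1.pow_right k)
  obtain ⟨k1, k2⟩ := hk ζ hζ
  fin_cases i
  · have := H.p_ge_sub (G ^ k)⁻¹ (ζ * (G ^ k)⁻¹)
    rw [inv_inv, ← mul_assoc, ← hc.eq, mul_inv_cancel_right, L_inv] at this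
    simp only [Fin.zero_eta, Matrix.cons_val_zero]
    linarith
  · have := H.p_ge_sub (G ^ k) (ζ * G ^ k)
    rw [hc.eq, inv_mul_cancel_left, ← hc.eq] at this
    simp only [Fin.mk_one, Matrix.cons_val_one, Matrix.cons_val_zero]
    linarith
  · simpa using k1

/-- The elementary subgroup lies in a bounded neighbourhood of the cyclic group. -/
theorem elem_short {G z : Γ} (hG : H.Straight G) (hz : z ∈ elem G) :
    ∃ i : ℤ, H.L (G ^ i * z) ≤ H.L G + 3 * H.δ := by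
  have hδ := H.δ_pos
  have hl := hG.long
  obtain ⟨i, hi⟩ : ∃ i : ℤ, ∀ j : ℤ, H.len (G ^ i * z) ≤ H.len (G ^ j * z) :=
    ⟨Function.argmin (fun j : ℤ => H.len (G ^ j * z)), fun j =>
      Function.argmin_le (fun j : ℤ => H.len (G ^ j * z)) j⟩
  refine ⟨i, ?_⟩
  set w := G ^ i * z with hw
  have hwE : w ∈ elem G := (elem G).mul_mem ((elem G).zpow_mem (self_mem_elem G) i) hz
  have m1 : H.L w ≤ H.L (G⁻¹ * w) := by
    have := hi (i - 1)
    rw [show G ^ (i - 1) * z = G⁻¹ * w by rw [hw]; group] at this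
    unfold L; exact_mod_cast this
  have m2 : H.L w ≤ H.L (G * w) := by
    have := hi (i + 1)
    rw [show G ^ (i + 1) * z = G * w by rw [hw]; group] at this
    unfold L; exact_mod_cast this
  rw [L_inv_mul] at m1
  rw [H.L_mul_eq G w] at m2
  have p1 := hG.p_add 1 1
  have p2 := hG.inv.p_add 1 1
  rw [pow_one, L_inv] at p2
  rw [pow_one] at p1
  have q1 := H.fourB (a := w) (b := G) (c := G ^ (1 + 1)) (t := H.L G / 2)
    (by rw [p_comm]; linarith) (by linarith)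
  have q2 := H.fourB (a := w) (b := G⁻¹) (c := G⁻¹ ^ (1 + 1)) (t := H.L G / 2)
    (by rw [p_comm]; linarith) (by linarith)
  have l2 := hG.L_add 1 1
  rw [pow_one] at l2
  have r1 := H.p_mul_self (G ^ (1 + 1)) w
  have r2 := H.L_mul_eq (G ^ (1 + 1)) w
  rw [← inv_pow, p_comm] at r1 r2
  rw [p_comm] at r1
  have r3 := H.fourB (c := G ^ (1 + 1) * w) q1 (by linarith [H.p_comm w (G⁻¹ ^ (1 + 1))])
  have r4 := H.L_inv_mul w (G ^ (1 + 1) * w)
  have r5 : H.L (w⁻¹ * (G ^ (1 + 1) * w)) = H.L (G ^ (1 + 1)) := by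
    have e : w⁻¹ * (G ^ (1 + 1) * w) = (w⁻¹ * G * w) ^ (1 + 1) := by
      rw [pow_succ, pow_one, pow_succ, pow_one]; group
    rcases hwE with h | h
    · rw [e, h]
    · rw [e, h, inv_pow, L_inv]
  linarith

theorem virtuallyCyclic_of_cover {G : Γ} (hG : H.Straight G) (K : Subgroup Γ) (hK : G ∈ K)
    {T : Set Γ} (hT : T.Finite) (h : ∀ z ∈ K, ∃ t ∈ T, t⁻¹ * z ∈ elem G) :
    VirtuallyCyclic K := by
  refine ⟨Subgroup.zpowers ⟨G, hK⟩, inferInstance, ?_⟩
  have hfin : {k : K | (k : Γ) ∈ T * {f | H.L f ≤ H.L G + 3 * H.δ}}.Finite :=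
    (hT.mul (H.finite_ball _)).preimage Subtype.val_injective.injOn
  have : Finite (K ⧸ Subgroup.zpowers (⟨G, hK⟩ : K)) := by
    rw [← Set.finite_univ_iff]
    refine (hfin.image (QuotientGroup.mk (s := Subgroup.zpowers (⟨G, hK⟩ : K)))).subset ?_
    intro q _
    obtain ⟨z, rfl⟩ := QuotientGroup.mk_surjective q
    obtain ⟨t, ht, hz⟩ := h z z.2
    obtain ⟨i, hi⟩ := elem_short hG ((elem G).inv_mem hz)
    refine ⟨z * (⟨G, hK⟩ : K) ^ (-i), ⟨t, ht, (G ^ i * (t⁻¹ * z)⁻¹)⁻¹,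
      by rw [Set.mem_ofPred_eq, L_inv]; exact hi, ?_⟩, ?_⟩
    · simp only [Subgroup.coe_mul, SubgroupClass.coe_zpow]; group
    · rw [QuotientGroup.eq]
      exact ⟨i, by simp⟩
  exact Subgroup.finiteIndex_of_finite_quotient

/-- A set whose displacement is minimal at the identity contains a straight product. -/
theorem exists_straight {S : Set Γ} {Λ : ℝ} (hΛ : 100 * H.δ ≤ Λ) (hS : ∀ s ∈ S, H.L s ≤ Λ)
    (hmin : ∀ y, ∃ s ∈ S, Λ ≤ H.L (y⁻¹ * s * y)) :
    ∃ s ∈ S, ∃ t ∈ S, H.Straight (s * t) ∧ Λ ≤ H.L (s * t) := by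
  have hδ := H.δ_pos
  have step1 : ∃ s ∈ S, ∃ t ∈ S, Λ - 12 * H.δ ≤ H.L s ∧ Λ - 12 * H.δ ≤ H.L t ∧
      H.p s⁻¹ t ≤ 6 * H.δ := by
    by_contra hcon
    push Not at hcon
    obtain ⟨s₀, hs₀, hl₀⟩ := hmin 1
    simp only [inv_one, one_mul, mul_one] at hl₀
    obtain ⟨y, hy1, hy2, hy3⟩ := H.exists_geod s₀ (t := 6 * H.δ) (by linarith) (by linarith)
    obtain ⟨s, hs, hl⟩ := hmin y
    have hsΛ := hS s hs
    by_cases hlong : Λ - 12 * H.δ ≤ H.L s
    · have a1 := hcon s hs s₀ hs₀ hlong (by linarith)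
      have a2 := hcon s₀ hs₀ s hs (by linarith) hlong
      have a3 := hcon s₀ hs₀ s₀ hs₀ (by linarith) (by linarith)
      have b1 := H.fourA (a := y) (b := s⁻¹) (c := s₀) hy3 (by rw [p_comm]; linarith)
      have b2 := H.fourA (a := s₀) (b := s) (c := s₀⁻¹) (t := 6 * H.δ)
        (by rw [p_comm]; linarith) a2.le
      have b3 := H.fourA (a := y) (b := s) (c := s₀) (t := H.L y - H.δ) (by linarith) (by linarith)
      have c1 := H.L_mul_eq s y
      have c2 := H.p_mul_self s y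
      have c3 := H.p_le_right s⁻¹ y
      rw [p_comm] at b1
      have b4 := H.fourA (a := y) (b := s * y) (c := s) b3 (by linarith)
      have c4 := H.L_inv_mul y (s * y)
      rw [← mul_assoc] at c4
      linarith
    · push Not at hlong
      have c1 := H.L_mul (y⁻¹ * s) y
      have c2 := H.L_mul y⁻¹ s
      rw [L_inv] at c2
      linarith
  have step2 : ∃ s ∈ S, ∃ t ∈ S, Λ - 12 * H.δ ≤ H.L s ∧ Λ - 12 * H.δ ≤ H.L t ∧
      H.p s⁻¹ t ≤ 8 * H.δ ∧ H.p t⁻¹ s ≤ 8 * H.δ := by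
    obtain ⟨s, hs, t, ht, h1, h2, h3⟩ := step1
    by_cases k1 : H.p s⁻¹ s ≤ 8 * H.δ
    · exact ⟨s, hs, s, hs, h1, h1, k1, k1⟩
    by_cases k2 : H.p t⁻¹ t ≤ 8 * H.δ
    · exact ⟨t, ht, t, ht, h2, h2, k2, k2⟩
    push Not at k1 k2
    refine ⟨s, hs, t, ht, h1, h2, by linarith, ?_⟩
    have u1 := H.fourB (c := t⁻¹) h3 (by rw [p_comm]; linarith)
    rw [p_comm] at u1
    have u2 := H.fourB (c := s) u1 (by linarith)
    linarith
  obtain ⟨s, hs, t, ht, h1, h2, h3, h4⟩ := step2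
  have l1 := H.L_mul_eq s t
  refine ⟨s, hs, t, ht, straight_of (by linarith) ?_, by linarith⟩
  have u1 := H.p_mul_self s t
  have u2 := H.p_mul_self t⁻¹ s⁻¹
  rw [inv_inv, L_inv, ← mul_inv_rev, H.p_comm t] at u2
  have v1 := H.fourB (c := s * t) h4 (by linarith)
  rw [p_comm] at v1
  have v2 := H.fourB (c := (s * t)⁻¹) v1 (by linarith)
  rw [p_comm] at v2
  linarith

end HypLen

end Pool.Agent.P.MP_94de62_al
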