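import Pool.Agent.P.MP_94de62_al.Ball

/-!
A strict drop of the growth rate along a quotient map detected by a cocycle.
-/

namespace Pool.Agent.P.MP_94de62_al

open Filter Topology

variable {G G' Q : Type*} [Group G] [Group G'] [MulAction G' Q]

/-- The product of a word with `u` inserted at the positions in `I`. -/
def ins (u : G) (I : Finset ℕ) : List G → ℕ → G
  | [], _ => 1
  | a :: l, i => (if i ∈ I then u else 1) * a * ins u I l (i + 1)

theorem map_ins (σ : G →* G') {u : G} (hu : σ u = 1) (I : Finset ℕ) :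
    ∀ (l : List G) (i : ℕ), σ (ins u I l i) = σ l.prod
  | [], _ => rfl
  | a :: l, i => by
    rw [ins, map_mul, map_mul, map_ins σ hu I l, List.prod_cons, map_mul]
    split_ifs <;> simp [hu]

theorem ins_mem_ball {T : Set G} {u : G} {κ : ℕ} (hu : u ∈ ball T κ) (I : Finset ℕ) :
    ∀ (l : List G) (i : ℕ), (∀ a ∈ l, a ∈ T) →
      ins u I l i ∈ ball T (l.length + κ * (I.filter (i ≤ ·)).card)
  | [], _, _ => one_mem_ball _ _
  | a :: l, i, h => by
    have ih := ins_mem_ball hu I l (i + 1) fun x hx => h x (List.mem_cons_of_mem _ hx)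
    have ha := mem_ball_one (h a List.mem_cons_self)
    have hsub : I.filter (i + 1 ≤ ·) ⊆ I.filter (i ≤ ·) := fun x hx => by
      rw [Finset.mem_filter] at hx ⊢
      exact ⟨hx.1, by omega⟩
    rw [ins]
    split_ifs with hi
    · refine ball_mono T ?_ (mul_mem_ball (mul_mem_ball hu ha) ih)
      have : (I.filter (i + 1 ≤ ·)).card + 1 ≤ (I.filter (i ≤ ·)).card :=
        Finset.card_lt_card ⟨hsub, fun h => by
          have := h (Finset.mem_filter.2 ⟨hi, le_rfl⟩)
          simp at this⟩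
      have := Nat.mul_le_mul_left κ this
      simp only [List.length_cons]
      linarith
    · rw [one_mul]
      refine ball_mono T ?_ (mul_mem_ball ha ih)
      have := Nat.mul_le_mul_left κ (Finset.card_le_card hsub)
      simp only [List.length_cons]
      linarith

open Classical in
theorem cocycle_ins (σ : G →* G') (c : G → Q → ℤ)
    (hc : ∀ x y q, c (x * y) q = c x q + c y ((σ x)⁻¹ • q)) (q₀ : Q) {u : G} (hu1 : σ u = 1)
    (hu2 : ∀ q, c u q = if q = q₀ then 1 else 0) (I : Finset ℕ) :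
    ∀ (l : List G) (i : ℕ) (q : Q), c (ins u I l i) q = c l.prod q +
      ∑ j ∈ Finset.range l.length,
        if i + j ∈ I ∧ q = σ (l.take j).prod • q₀ then (1 : ℤ) else 0
  | [], _, _ => by simp [ins]
  | a :: l, i, q => by
    have h1 : ∀ q, c 1 q = 0 := fun q => by
      have := hc 1 1 q
      simpa using this
    rw [ins, mul_assoc, hc, hc, List.prod_cons, hc, List.length_cons, Finset.sum_range_succ',
      cocycle_ins σ c hc q₀ hu1 hu2 I l]
    have e1 : σ (if i ∈ I then u else 1) = 1 := by split_ifs <;> simp [hu1]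
    have e2 : c (if i ∈ I then u else 1) q =
        if i + 0 ∈ I ∧ q = σ (List.take 0 (a :: l)).prod • q₀ then (1 : ℤ) else 0 := by
      by_cases hi : i ∈ I <;> simp [hi, hu2, h1]
    rw [e1, inv_one, one_smul, e2]
    have e3 : ∀ j, (i + 1 + j ∈ I ∧ (σ a)⁻¹ • q = σ (l.take j).prod • q₀) ↔
        (i + (j + 1) ∈ I ∧ q = σ ((a :: l).take (j + 1)).prod • q₀) := fun j => by
      rw [inv_smul_eq_iff, List.take_succ_cons, List.prod_cons, map_mul, mul_smul,
        show i + 1 + j = i + (j + 1) by ring]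
    simp only [e3]
    ring

theorem take_mem_ball (σ : G →* G') {T : Set G} {l : List G} (hl : ∀ a ∈ l, a ∈ T) :
    σ l.prod ∈ ball (σ '' T) l.length := by
  rw [← image_ball]
  exact ⟨_, ⟨l, le_rfl, hl, rfl⟩, rfl⟩

theorem dist_le_of_smul_eq (σ : G →* G') {T : Set G} {l : List G} (hl : ∀ a ∈ l, a ∈ T)
    (hmin : ∀ n, σ l.prod ∈ ball (σ '' T) n → l.length ≤ n) {q₀ : Q} {D : ℕ}
    (hD : ∀ f : G', f • q₀ = q₀ → f ∈ ball (σ '' T) D) {i j : ℕ} (hj : j ≤ l.length)
    (h : σ (l.take i).prod • q₀ = σ (l.take j).prod • q₀) : j ≤ i + D := by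
  have h1 := take_mem_ball σ (l := l.take i) fun a ha => hl a (List.mem_of_mem_take ha)
  have h2 := take_mem_ball σ (l := l.drop j) fun a ha => hl a (List.mem_of_mem_drop ha)
  have h3 := hD ((σ (l.take i).prod)⁻¹ * σ (l.take j).prod) (by rw [mul_smul, ← h, inv_smul_smul])
  have h4 := mul_mem_ball (mul_mem_ball h1 h3) h2
  rw [mul_inv_cancel_left, ← map_mul, List.prod_take_mul_prod_drop] at h4
  have := hmin _ h4
  simp only [List.length_take, List.length_drop] at this
  omega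

open Classical in
theorem subset_of_ins_eq (σ : G →* G') (c : G → Q → ℤ)
    (hc : ∀ x y q, c (x * y) q = c x q + c y ((σ x)⁻¹ • q)) (q₀ : Q) {u : G} (hu1 : σ u = 1)
    (hu2 : ∀ q, c u q = if q = q₀ then 1 else 0) {T : Set G} {l : List G} (hl : ∀ a ∈ l, a ∈ T)
    (hmin : ∀ n, σ l.prod ∈ ball (σ '' T) n → l.length ≤ n) {D : ℕ}
    (hD : ∀ f : G', f • q₀ = q₀ → f ∈ ball (σ '' T) D) {I I' : Finset ℕ}
    (hI : ∀ i ∈ I, i < l.length ∧ (D + 1) ∣ i) (hI' : ∀ i ∈ I', (D + 1) ∣ i)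
    (h : ins u I l 0 = ins u I' l 0) : I ⊆ I' := by
  intro i hi
  have h1 := cocycle_ins σ c hc q₀ hu1 hu2 I l 0 (σ (l.take i).prod • q₀)
  have h2 := cocycle_ins σ c hc q₀ hu1 hu2 I' l 0 (σ (l.take i).prod • q₀)
  rw [h, h2, add_right_inj] at h1
  have h3 : (0 : ℤ) < ∑ j ∈ Finset.range l.length,
      if 0 + j ∈ I ∧ σ (l.take i).prod • q₀ = σ (l.take j).prod • q₀ then (1 : ℤ) else 0 :=
    Finset.sum_pos' (fun j _ => by split_ifs <;> norm_num)
      ⟨i, Finset.mem_range.2 (hI i hi).1, by simp [hi]⟩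
  rw [← h1] at h3
  obtain ⟨j, hj, hj'⟩ := Finset.exists_ne_zero_of_sum_ne_zero h3.ne'
  have hj2 : 0 + j ∈ I' ∧ σ (l.take i).prod • q₀ = σ (l.take j).prod • q₀ := by
    by_contra hcon
    exact hj' (if_neg hcon)
  rw [zero_add] at hj2
  have d1 := dist_le_of_smul_eq σ hl hmin hD (Finset.mem_range.1 hj).le hj2.2
  have d2 := dist_le_of_smul_eq σ hl hmin hD (hI i hi).1.le hj2.2.symm
  obtain ⟨a, rfl⟩ := (hI i hi).2
  obtain ⟨b, rfl⟩ := hI' j hj2.1
  have : a = b := by
    rcases lt_trichotomy a b with h | h | h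
    · nlinarith
    · exact h
    · nlinarith
  rw [this]; exact hj2.1

open Classical in
theorem card_ins (σ : G →* G') (c : G → Q → ℤ)
    (hc : ∀ x y q, c (x * y) q = c x q + c y ((σ x)⁻¹ • q)) (q₀ : Q) {u : G} (hu1 : σ u = 1)
    (hu2 : ∀ q, c u q = if q = q₀ then 1 else 0) {T : Set G} (hT : T.Finite) {κ : ℕ}
    (huT : u ∈ ball T κ) {D : ℕ} (hD : ∀ f : G', f • q₀ = q₀ → f ∈ ball (σ '' T) D) (A k : ℕ) :
    (ball (σ '' T) (2 * ((D + 1) * (k * A))) \ ball (σ '' T) ((D + 1) * (k * A))).ncard * A ^ k ≤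
      bn T (2 * ((D + 1) * (k * A)) + κ * k) := by
  set p := (D + 1) * (k * A) with hp
  set W := ball (σ '' T) (2 * p) \ ball (σ '' T) p with hW
  have hex : ∀ x ∈ W, ∃ l : List G, (∀ a ∈ l, a ∈ T) ∧ σ l.prod = x ∧
      (∀ n, σ l.prod ∈ ball (σ '' T) n → l.length ≤ n) ∧ p < l.length ∧ l.length ≤ 2 * p := by
    intro x hx
    have hne : ∃ n, x ∈ ball (σ '' T) n := ⟨_, hx.1⟩
    have h1 := Nat.find_spec hne
    rw [← image_ball] at h1
    obtain ⟨_, ⟨l, h2, h3, rfl⟩, rfl⟩ := h1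
    have h4 : ∀ n, σ l.prod ∈ ball (σ '' T) n → l.length ≤ n := fun n hn =>
      h2.trans (Nat.find_min' hne hn)
    refine ⟨l, h3, rfl, h4, ?_, h4 _ hx.1⟩
    by_contra hcon
    exact hx.2 (ball_mono _ (not_lt.1 hcon) (take_mem_ball σ h3))
  choose! w hw1 hw2 hw3 hw4 hw5 using hex
  set I : (Fin k → Fin A) → Finset ℕ := fun f =>
    Finset.univ.image fun j => (D + 1) * (finProdFinEquiv (j, f j) : ℕ) with hI
  have hI1 : ∀ f, ∀ i ∈ I f, i ≤ p ∧ (D + 1) ∣ i := fun f i hi => by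
    obtain ⟨j, -, rfl⟩ := Finset.mem_image.1 hi
    exact ⟨Nat.mul_le_mul_left _ (finProdFinEquiv (j, f j)).2.le, Dvd.intro _ rfl⟩
  have hWfin : W.Finite := (ball_finite (hT.image σ) _).subset Set.sdiff_subset
  have hcard : (W ×ˢ (Set.univ : Set (Fin k → Fin A))).ncard = W.ncard * A ^ k := by
    rw [Set.ncard_prod, Set.ncard_univ]; simp
  rw [← hcard]
  refine Set.ncard_le_ncard_of_injOn (fun x => ins u (I x.2) (w x.1) 0) ?_ ?_ (ball_finite hT _)
  · rintro ⟨x, f⟩ ⟨hx, -⟩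
    refine ball_mono T ?_ (ins_mem_ball huT (I f) (w x) 0 (hw1 x hx))
    have : ((I f).filter (0 ≤ ·)).card ≤ k :=
      (Finset.card_filter_le _ _).trans (Finset.card_image_le.trans (by simp))
    exact Nat.add_le_add (hw5 x hx) (Nat.mul_le_mul_left _ this)
  · rintro ⟨x, f⟩ ⟨hx, -⟩ ⟨x', f'⟩ ⟨hx', -⟩ h
    simp only at h hx hx'
    have e : x = x' := by
      rw [← hw2 x hx, ← hw2 x' hx', ← map_ins σ hu1 (I f) _ 0, h, map_ins σ hu1]
    subst e
    have := subset_of_ins_eq σ c hc q₀ hu1 hu2 (hw1 x hx) (hw3 x hx) hD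
      (fun i hi => ⟨(hI1 f i hi).1.trans_lt (hw4 x hx), (hI1 f i hi).2⟩)
      (fun i hi => (hI1 f' i hi).2) h
    refine Prod.ext rfl (funext fun j => ?_)
    obtain ⟨j', -, hj'⟩ := Finset.mem_image.1
      (this (Finset.mem_image_of_mem _ (Finset.mem_univ j)))
    have h2 := finProdFinEquiv.injective (Fin.ext (Nat.eq_of_mul_eq_mul_left (by omega) hj'))
    obtain ⟨rfl, h3⟩ := Prod.mk.inj h2
    exact h3.symm

theorem shell_large {S : Set G'} (hS : S.Finite) (hpos : 0 < ent S) :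
    ∀ᶠ p : ℕ in atTop,
      Real.exp (2 * p * ent S) / 2 ≤ (ball S (2 * p) \ ball S p).ncard := by
  have t1 : ∀ᶠ p : ℕ in atTop, Real.log (bn S p) / p < 3 / 2 * ent S :=
    (tendsto_ent hS).eventually (gt_mem_nhds (by linarith))
  have t2 : ∀ᶠ p : ℕ in atTop, 2 / ent S ≤ (p : ℝ) :=
    tendsto_natCast_atTop_atTop.eventually_ge_atTop _
  filter_upwards [t1, t2, eventually_gt_atTop 0] with p h1 h2 h3
  have hp : (0 : ℝ) < p := by exact_mod_cast h3
  rw [div_lt_iff₀ hp, Real.log_lt_iff_lt_exp (by linarith [one_le_bn hS p])] at h1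
  rw [div_le_iff₀ hpos] at h2
  have h4 := mul_ent_le hS (2 * p)
  rw [Real.le_log_iff_exp_le (by linarith [one_le_bn hS (2 * p)])] at h4
  have h5 : (ball S (2 * p) \ ball S p).ncard + bn S p = bn S (2 * p) :=
    Set.ncard_sdiff_add_ncard_of_subset (ball_mono S (by omega)) (ball_finite hS _)
  have h6 : ((ball S (2 * p) \ ball S p).ncard : ℝ) + bn S p = bn S (2 * p) := by exact_mod_cast h5
  have h7 : Real.exp (2 * p * ent S) = Real.exp (3 / 2 * ent S * p) * Real.exp (p * ent S / 2) := by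
    rw [← Real.exp_add]; congr 1; ring
  have h8 : 2 ≤ Real.exp (p * ent S / 2) := by
    linarith [Real.add_one_le_exp (p * ent S / 2)]
  have h9 := Real.exp_pos (3 / 2 * ent S * p)
  push_cast at h4
  nlinarith

open Classical in
theorem ent_lt (σ : G →* G') (c : G → Q → ℤ)
    (hc : ∀ x y q, c (x * y) q = c x q + c y ((σ x)⁻¹ • q)) (q₀ : Q) {u : G} (hu1 : σ u = 1)
    (hu2 : ∀ q, c u q = if q = q₀ then 1 else 0) {T : Set G} (hT : T.Finite) {κ : ℕ}
    (huT : u ∈ ball T κ) {D : ℕ} (hD : ∀ f : G', f • q₀ = q₀ → f ∈ ball (σ '' T) D)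
    (hpos : 0 < ent (σ '' T)) : ent (σ '' T) < ent T := by
  by_contra hcon
  push Not at hcon
  set h := ent (σ '' T) with hh
  set A := ⌈Real.exp (κ * h)⌉₊ + 1 with hA
  have hA1 : Real.exp (κ * h) < A := by
    rw [hA]; push_cast; linarith [Nat.le_ceil (Real.exp (κ * h))]
  have hApos : (0 : ℝ) < A := (Real.exp_pos _).trans hA1
  have hA2 : κ * h < Real.log A := (Real.lt_log_iff_exp_lt hApos).2 hA1
  have t1 : Tendsto (fun k : ℕ => (D + 1) * (k * A)) atTop atTop :=
    (tendsto_id.atTop_mul_const' (by omega)).const_mul_atTop' (by omega)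
  have := le_mul_ent hT (m := 2 * ((D + 1) * A) + κ) (by positivity)
    (a := 2 * ((D + 1) * A) * h + Real.log A) (c := Real.log 2) (by
      filter_upwards [t1.eventually (shell_large (hT.image σ) hpos)] with k hk
      have h1 := card_ins σ c hc q₀ hu1 hu2 hT huT hD A k
      rw [show 2 * ((D + 1) * (k * A)) + κ * k = k * (2 * ((D + 1) * A) + κ) by ring] at h1
      have h2 : Real.exp (2 * ((D + 1) * (k * A) : ℕ) * h) / 2 * (A : ℝ) ^ k ≤
          bn T (k * (2 * ((D + 1) * A) + κ)) :=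
        le_trans (mul_le_mul_of_nonneg_right hk (by positivity)) (by exact_mod_cast h1)
      have h3 := Real.log_le_log (by positivity) h2
      rw [Real.log_mul (by positivity) (by positivity), Real.log_div (by positivity) (by norm_num),
        Real.log_exp, Real.log_pow] at h3
      push_cast at h3
      linarith)
  have h4 : ((2 * ((D + 1) * A) + κ : ℕ) : ℝ) * ent T ≤ (2 * ((D + 1) * A) + κ : ℕ) * h := by gcongr
  push_cast at this h4
  linarith

end Pool.Agent.P.MP_94de62_al
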