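import Pool.Agent.P.MP_94de62_al.Zar

/-!
The Zariski topology on a linear group and generic elements.
-/

namespace Pool.Agent.P.MP_94de62_al

open Filter TopologicalSpace

section

variable {Γ : Type*} [Group Γ] {K : Type*} [Field K] {d : Type*} [Fintype d] [DecidableEq d]
  (ρ : Γ →* Matrix d d K)

/-- The pair formed by an element and its inverse. -/
def pr (u : Γ) : Bool → Γ := fun b => cond b u u⁻¹

/-- Maps given by polynomials in the entries of an element and its inverse. -/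
def Reg (f : Γ → Γ) : Prop :=
  ∃ M : Matrix d d (MvPolynomial (Bool × d × d) K), ∀ u, (evT ρ (pr u)).mapMatrix M = ρ (f u)

theorem Reg.const (c : Γ) : Reg ρ fun _ => c :=
  ⟨(ρ c).map MvPolynomial.C, fun u => by ext a b; simp [evT]⟩

theorem Reg.id : Reg ρ fun u => u :=
  ⟨Matrix.of fun a b => MvPolynomial.X (true, a, b), fun u => by ext a b; simp [evT, pr]⟩

theorem Reg.inv : Reg ρ fun u => u⁻¹ :=
  ⟨Matrix.of fun a b => MvPolynomial.X (false, a, b), fun u => by ext a b; simp [evT, pr]⟩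

variable {ρ} in
theorem Reg.mul {f g : Γ → Γ} (hf : Reg ρ f) (hg : Reg ρ g) : Reg ρ fun u => f u * g u := by
  obtain ⟨M, hM⟩ := hf
  obtain ⟨M', hM'⟩ := hg
  exact ⟨M * M', fun u => by rw [map_mul, hM, hM', map_mul]⟩

/-- The Zariski topology. -/
@[reducible] noncomputable def zar : TopologicalSpace Γ :=
  TopologicalSpace.induced (fun u => ptT ρ (pr u)) inferInstance

variable {ρ} in
theorem Reg.isClosed (hρ : Function.Injective ρ) {f g : Γ → Γ} (hf : Reg ρ f) (hg : Reg ρ g) :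
    @IsClosed Γ (zar ρ) {u | f u = g u} := by
  obtain ⟨M, hM⟩ := hf
  obtain ⟨M', hM'⟩ := hg
  let _ := zar ρ
  have hc : Continuous fun u => ptT ρ (pr u) := continuous_induced_dom
  convert (PrimeSpectrum.isClosed_zeroLocus
    (Set.range fun x : d × d => M x.1 x.2 - M' x.1 x.2)).preimage hc using 1
  ext u
  simp only [Set.mem_ofPred_eq, Set.mem_preimage, PrimeSpectrum.mem_zeroLocus,
    Set.range_subset_iff]
  have key : ∀ x : d × d, M x.1 x.2 - M' x.1 x.2 ∈ ((ptT ρ (pr u)).asIdeal : Set _) ↔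
      ρ (f u) x.1 x.2 = ρ (g u) x.1 x.2 := fun x => by
    change evT ρ (pr u) _ = 0 ↔ _
    rw [map_sub, sub_eq_zero, ← hM, ← hM']; rfl
  simp only [key]
  exact ⟨fun h x => by rw [h], fun h => hρ (Matrix.ext fun a b => h (a, b))⟩

variable {ρ} in
theorem Reg.continuous {f : Γ → Γ} (hf : Reg ρ f) (hf' : Reg ρ fun u => (f u)⁻¹) :
    @Continuous Γ Γ (zar ρ) (zar ρ) f := by
  obtain ⟨M, hM⟩ := hf
  obtain ⟨M', hM'⟩ := hf'
  let _ := zar ρ
  have hc : Continuous fun u => ptT ρ (pr u) := continuous_induced_dom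
  set θ : MvPolynomial (Bool × d × d) K →+* MvPolynomial (Bool × d × d) K :=
    MvPolynomial.eval₂Hom MvPolynomial.C fun x => cond x.1 M M' x.2.1 x.2.2 with hθ
  refine continuous_induced_rng.2 ?_
  convert (PrimeSpectrum.continuous_comap θ).comp hc using 1
  ext u : 1
  refine PrimeSpectrum.ext ?_
  have : evT ρ (pr (f u)) = (evT ρ (pr u)).comp θ := by
    refine MvPolynomial.ringHom_ext (fun r => by simp [evT, hθ]) ?_
    rintro ⟨b, i, j⟩
    cases b
    · have := congrFun (congrFun (hM' u) i) j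
      simpa [evT, hθ, pr] using this.symm
    · have := congrFun (congrFun (hM u) i) j
      simpa [evT, hθ, pr] using this.symm
  change RingHom.ker (evT ρ (pr (f u))) = Ideal.comap θ (RingHom.ker (evT ρ (pr u)))
  rw [this, RingHom.comap_ker]

theorem exists_zar (hρ : Function.Injective ρ) : ∃ τ : TopologicalSpace Γ,
    @NoetherianSpace Γ τ ∧ (∀ a : Γ, @Continuous Γ Γ τ τ fun u => a * u) ∧
      (∀ w G G' : Γ, @IsClosed Γ τ {u | (u⁻¹ * w * u)⁻¹ * G * (u⁻¹ * w * u) = G'}) ∧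
      (∀ t G G' : Γ, @IsClosed Γ τ {u | (t * u)⁻¹ * G * (t * u) = G'}) := by
  refine ⟨zar ρ, ?_, fun a => ?_, fun w G G' => ?_, fun t G G' => ?_⟩
  · let _ := zar ρ
    exact (Topology.IsInducing.mk (f := fun u => ptT ρ (pr u)) rfl).noetherianSpace
  · refine ((Reg.const ρ a).mul (Reg.id ρ)).continuous ?_
    simpa using (Reg.inv ρ).mul (Reg.const ρ a⁻¹)
  · refine Reg.isClosed hρ ?_ (Reg.const ρ G')
    simpa [mul_assoc] using (Reg.inv ρ).mul ((Reg.const ρ w⁻¹).mul ((Reg.id ρ).mul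
      ((Reg.const ρ G).mul ((Reg.inv ρ).mul ((Reg.const ρ w).mul (Reg.id ρ))))))
  · refine Reg.isClosed hρ ?_ (Reg.const ρ G')
    simpa [mul_assoc] using (Reg.inv ρ).mul ((Reg.const ρ t⁻¹).mul
      ((Reg.const ρ G).mul ((Reg.const ρ t).mul (Reg.id ρ))))

end

/-- The filter of sets containing a nonempty relatively open subset of an irreducible set. -/
def genericFilter {X : Type*} [TopologicalSpace X] {C : Set X} (hC : IsIrreducible C) :
    Filter X where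
  sets := {U | ∃ V, IsOpen V ∧ (C ∩ V).Nonempty ∧ C ∩ V ⊆ U}
  univ_sets := ⟨Set.univ, isOpen_univ, by simpa using hC.nonempty, Set.subset_univ _⟩
  sets_of_superset := fun ⟨V, h1, h2, h3⟩ h => ⟨V, h1, h2, h3.trans h⟩
  inter_sets := fun ⟨V, h1, h2, h3⟩ ⟨V', h1', h2', h3'⟩ =>
    ⟨V ∩ V', h1.inter h1', hC.2 V V' h1 h1' h2 h2', fun _ hx =>
      ⟨h3 ⟨hx.1, hx.2.1⟩, h3' ⟨hx.1, hx.2.2⟩⟩⟩

theorem exists_pow_stable {Γ : Type*} [Group Γ] [TopologicalSpace Γ] [NoetherianSpace Γ]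
    (hc : ∀ a : Γ, Continuous fun u => a * u) {C : Set Γ} (hC : C ∈ irreducibleComponents Γ)
    (a : Γ) : ∃ m, 0 < m ∧ ∀ u ∈ C, a ^ m * u ∈ C := by
  have hmem : ∀ b : Γ, (fun u => b * u) '' C ∈ irreducibleComponents Γ := by
    intro b
    refine ⟨hC.1.image _ (hc b).continuousOn, fun D hD hle => ?_⟩
    have h1 : C ≤ (fun u => b⁻¹ * u) '' D := fun u hu => ⟨b * u, hle ⟨u, hu, rfl⟩, by simp⟩
    have h2 := hC.2 (IsIrreducible.image hD _ (hc b⁻¹).continuousOn) h1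
    exact fun u hu => ⟨b⁻¹ * u, h2 ⟨u, hu, rfl⟩, by simp⟩
  obtain ⟨i, -, j, -, hij, he⟩ := Set.infinite_univ.exists_lt_map_eq_of_mapsTo
    (f := fun n : ℕ => (fun u => a ^ n * u) '' C) (fun n _ => hmem _)
    NoetherianSpace.finite_irreducibleComponents
  refine ⟨j - i, by omega, fun u hu => ?_⟩
  have : a ^ j * u ∈ (fun u => a ^ i * u) '' C := by
    rw [show (fun u => a ^ i * u) '' C = _ from he]; exact ⟨u, hu, rfl⟩
  obtain ⟨v, hv, hv'⟩ := this
  obtain ⟨k, rfl⟩ := Nat.exists_eq_add_of_lt hij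
  have e : v = a ^ (i + k + 1 - i) * u := by
    rw [show i + k + 1 - i = k + 1 by omega]
    refine mul_left_cancel (a := a ^ i) ?_
    rw [show a ^ i * v = _ from hv']; group
  exact e ▸ hv

theorem exists_generic {Γ : Type*} [Group Γ] {K : Type*} [Field K] {d : Type*} [Fintype d]
    [DecidableEq d] (ρ : Γ →* Matrix d d K) (hρ : Function.Injective ρ) {H : HypLen Γ} {G : Γ}
    (hG : H.Straight G) (hne : ¬ VirtuallyCyclic Γ) :
    ∃ (C : Set Γ) (𝓕 : Filter Γ), 𝓕.NeBot ∧ C ∈ 𝓕 ∧ (∀ a : Γ, ∃ m, 0 < m ∧ ∀ u ∈ C, a ^ m * u ∈ C) ∧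
      (∀ t, ∀ᶠ u in 𝓕, t * u ∉ elem G) ∧
      ∀ w G', (∃ u ∈ C, (u⁻¹ * w * u)⁻¹ * G * (u⁻¹ * w * u) ≠ G') →
        ∀ᶠ u in 𝓕, (u⁻¹ * w * u)⁻¹ * G * (u⁻¹ * w * u) ≠ G' := by
  obtain ⟨τ, h1, h2, h3, h4⟩ := exists_zar ρ hρ
  obtain ⟨C, hC, hCE⟩ : ∃ C ∈ irreducibleComponents Γ, ∀ t, ∃ u ∈ C, t * u ∉ elem G := by
    by_contra hcon
    push Not at hcon
    choose! t ht using hcon
    refine hne (VirtuallyCyclic.of_surjective (⊤ : Subgroup Γ).subtype
      (fun x => ⟨⟨x, trivial⟩, rfl⟩) ?_)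
    refine HypLen.virtuallyCyclic_of_cover hG ⊤ trivial
      (NoetherianSpace.finite_irreducibleComponents.image fun C => (t C)⁻¹) fun z _ => ?_
    exact ⟨_, ⟨_, irreducibleComponent_mem_irreducibleComponents z, rfl⟩, by
      simpa using ht _ (irreducibleComponent_mem_irreducibleComponents z) z
        mem_irreducibleComponent⟩
  have key : ∀ Z : Set Γ, IsClosed Z → (∃ u ∈ C, u ∉ Z) → ∀ᶠ u in genericFilter hC.1, u ∉ Z :=
    fun Z hZ ⟨u, hu, hu'⟩ => ⟨Zᶜ, hZ.isOpen_compl, ⟨u, hu, hu'⟩, fun _ hx => hx.2⟩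
  refine ⟨C, genericFilter hC.1, ⟨fun h => ?_⟩,
    ⟨Set.univ, isOpen_univ, by simpa using hC.1.nonempty, Set.inter_subset_left⟩,
    exists_pow_stable h2 hC, fun t => ?_, fun w G' h => key _ (h3 w G G') h⟩
  · obtain ⟨V, -, ⟨u, hu⟩, h3⟩ : (∅ : Set Γ) ∈ genericFilter hC.1 := by rw [h]; trivial
    exact h3 hu
  · exact key _ ((h4 t G G).union (h4 t G G⁻¹)) (hCE t)

end Pool.Agent.P.MP_94de62_al
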