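import Pool.Agent.P.MP_94de62_al.Core
import Pool.Agent.P.MP_94de62_al.Strict

/-!
The group obtained by adjoining free letters that commute with a subgroup.
-/

namespace Pool.Agent.P.MP_94de62_al

open Monoid Pointwise

variable {Γ : Type*} [Group Γ] (F : Subgroup Γ) (ι : Type*)

/-- The commutation relations. -/
def rels : Set (Coprod Γ (FreeGroup ι)) :=
  {x | ∃ f ∈ F, ∃ i, x = Coprod.inl f * Coprod.inr (FreeGroup.of i) *
    (Coprod.inr (FreeGroup.of i) * Coprod.inl f)⁻¹}

/-- The group `Γ` with free letters that commute with `F`. -/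
abbrev UG := Coprod Γ (FreeGroup ι) ⧸ Subgroup.normalClosure (rels F ι)

namespace UG

/-- The constants. -/
def c : Γ →* UG F ι := (QuotientGroup.mk' _).comp Coprod.inl

variable {ι}

/-- The letters. -/
def t (i : ι) : UG F ι := QuotientGroup.mk' _ (Coprod.inr (FreeGroup.of i))

variable {F}

theorem comm {f : Γ} (hf : f ∈ F) (i : ι) : Commute (c F ι f) (t F i) := by
  change _ * _ = _ * _
  rw [← mul_inv_eq_one]
  have : QuotientGroup.mk' (Subgroup.normalClosure (rels F ι)) (Coprod.inl f *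
      Coprod.inr (FreeGroup.of i) * (Coprod.inr (FreeGroup.of i) * Coprod.inl f)⁻¹) = 1 :=
    (QuotientGroup.eq_one_iff _).2 (Subgroup.subset_normalClosure ⟨f, hf, i, rfl⟩)
  simp only [map_mul, map_inv] at this
  exact this

variable {G : Type*} [Group G]

/-- The universal property. -/
def lift (φ : Γ →* G) (y : ι → G) (h : ∀ i, ∀ f ∈ F, Commute (φ f) (y i)) : UG F ι →* G :=
  QuotientGroup.lift _ (Coprod.lift φ (FreeGroup.lift y)) (by
    refine Subgroup.normalClosure_le_normal (N := (Coprod.lift φ (FreeGroup.lift y)).ker) ?_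
    rintro x ⟨f, hf, i, hx⟩
    rw [hx]
    simp only [SetLike.mem_coe, MonoidHom.mem_ker, map_mul, map_inv, Coprod.lift_apply_inl,
      Coprod.lift_apply_inr, FreeGroup.lift_apply_of, (h i f hf).eq, mul_inv_cancel])

@[simp] theorem lift_c (φ : Γ →* G) (y : ι → G) (h : ∀ i, ∀ f ∈ F, Commute (φ f) (y i)) (γ : Γ) :
    lift φ y h (c F ι γ) = φ γ := rfl

@[simp] theorem lift_t (φ : Γ →* G) (y : ι → G) (h : ∀ i, ∀ f ∈ F, Commute (φ f) (y i)) (i : ι) :
    lift φ y h (t F i) = y i := by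
  change Coprod.lift φ (FreeGroup.lift y) (Coprod.inr (FreeGroup.of i)) = _
  simp

theorem hom_ext {φ ψ : UG F ι →* G} (h1 : ∀ γ, φ (c F ι γ) = ψ (c F ι γ))
    (h2 : ∀ i, φ (t F i) = ψ (t F i)) : φ = ψ :=
  QuotientGroup.monoidHom_ext _ (Coprod.hom_ext (MonoidHom.ext h1) (FreeGroup.ext_hom _ _ h2))

theorem c_injective : Function.Injective (c F ι) :=
  Function.LeftInverse.injective
    (g := lift (MonoidHom.id Γ) (fun _ => 1) fun _ _ _ => Commute.one_right _) fun _ => rfl

end UG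

variable {F ι}

theorem map_wordVal {G G' : Type*} [Group G] [Group G'] (ψ : G →* G') (φ : Γ →* G) (y : ι → G)
    (l : List ((ι × Bool) × Γ)) : ψ (wordVal φ y l) = wordVal (ψ.comp φ) (ψ ∘ y) l := by
  induction l with
  | nil => simp [wordVal]
  | cons x l ih =>
    rw [wordVal_cons, wordVal_cons, map_mul, map_mul, ih]
    rcases x with ⟨⟨i, _ | _⟩, w⟩ <;> simp [sg]

/-- Elements with a reduced form whose constants have bounded total length. -/
def Rep (H : HypLen Γ) (x : UG F ι) (R : ℝ) : Prop :=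
  ∃ (w₀ : Γ) (l : List ((ι × Bool) × Γ)), Reduced F l ∧
    H.L w₀ + (l.map fun z => H.L z.2).sum ≤ R ∧ x = UG.c F ι w₀ * wordVal (UG.c F ι) (UG.t F) l

variable {H : HypLen Γ}

theorem Rep.const {x : UG F ι} {R : ℝ} (h : Rep H x R) (γ : Γ) :
    Rep H (UG.c F ι γ * x) (R + H.L γ) := by
  obtain ⟨w, l, h1, h2, rfl⟩ := h
  exact ⟨γ * w, l, h1, by linarith [H.L_mul γ w], by rw [map_mul, mul_assoc]⟩

theorem Rep.letter {x : UG F ι} {R : ℝ} (h : Rep H x R) (i : ι) (ε : Bool) :
    Rep H (sg (UG.t F i) ε * x) R := by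
  obtain ⟨w, l, h1, h2, rfl⟩ := h
  by_cases hr : Reduced F (((i, ε), w) :: l)
  · exact ⟨1, _, hr, by simpa using h2, by rw [wordVal_cons, map_one, one_mul, mul_assoc]⟩
  match l, h1, h2, hr with
  | [], _, _, hr => exact absurd (List.isChain_singleton _) hr
  | ((j, ε'), w') :: l, h1, h2, hr =>
    have h3 : j = i ∧ ε' = !ε ∧ w ∈ F := by
      by_contra hc
      exact hr (List.isChain_cons_cons.2 ⟨hc, h1⟩)
    obtain ⟨rfl, rfl, hw⟩ := h3
    refine ⟨w * w', l, List.IsChain.tail h1, ?_, ?_⟩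
    · simp only [List.map_cons, List.sum_cons] at h2
      linarith [H.L_mul w w']
    · have hc := (UG.comm hw j).eq
      rw [wordVal_cons, map_mul]
      cases ε
      · simp only [sg, Bool.not_false, cond_true, cond_false]
        rw [← mul_assoc, ← mul_assoc, ← mul_assoc, mul_assoc (UG.t F j)⁻¹, mul_assoc (UG.t F j)⁻¹,
          hc]
        group
      · simp only [sg, Bool.not_true, cond_true, cond_false]
        rw [← mul_assoc, ← hc]
        group

theorem Rep.mono {x : UG F ι} {R R' : ℝ} (h : Rep H x R) (hR : R ≤ R') : Rep H x R' := by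
  obtain ⟨w, l, h1, h2, h3⟩ := h
  exact ⟨w, l, h1, h2.trans hR, h3⟩

theorem rep_of_mem_ball {T : Set (UG F ι)} {r : ℝ} (hr : 0 ≤ r)
    (hT : ∀ a ∈ T, (∃ γ, H.L γ ≤ r ∧ a = UG.c F ι γ) ∨ ∃ i ε, a = sg (UG.t F i) ε) {n : ℕ}
    {x : UG F ι} (hx : x ∈ ball T n) : Rep H x (n * r) := by
  obtain ⟨l, h1, h2, rfl⟩ := hx
  refine Rep.mono (R := l.length * r) ?_ (by gcongr)
  clear h1
  induction l with
  | nil => exact ⟨1, [], List.isChain_nil, by simp, by simp [wordVal]⟩
  | cons a l ih =>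
    have ih := ih fun x hx => h2 x (List.mem_cons_of_mem _ hx)
    rw [List.prod_cons, List.length_cons]
    rcases hT a (h2 a List.mem_cons_self) with ⟨γ, hγ, rfl⟩ | ⟨i, ε, rfl⟩
    · exact (ih.const γ).mono (by push_cast; linarith)
    · exact (ih.letter i ε).mono (by push_cast; linarith)

theorem Rep.eq_one {x : UG F ι} {R : ℝ} (h : Rep H x R) {y : ι → Γ}
    (hy : ∀ a, ∀ f ∈ F, Commute f (y a))
    (hy' : ∀ (w₀ : Γ) (l : List ((ι × Bool) × Γ)), l ≠ [] → Reduced F l → H.L w₀ ≤ R →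
      (∀ x ∈ l, H.L x.2 ≤ R) → w₀ * wordVal (MonoidHom.id Γ) y l ≠ 1)
    (hx : UG.lift (MonoidHom.id Γ) y hy x = 1) : x = 1 := by
  obtain ⟨w, l, h1, h2, rfl⟩ := h
  rw [map_mul, map_wordVal, UG.lift_c,
    show (UG.lift (MonoidHom.id Γ) y hy).comp (UG.c F ι) = MonoidHom.id Γ from rfl,
    show UG.lift (MonoidHom.id Γ) y hy ∘ UG.t F = y from funext fun i => by simp] at hx
  have hs : 0 ≤ (l.map fun z => H.L z.2).sum := List.sum_nonneg fun a ha => by
    obtain ⟨z, -, rfl⟩ := List.mem_map.1 ha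
    exact H.L_nonneg _
  by_cases hl : l = []
  · subst hl
    simp only [wordVal, List.map_nil, List.prod_nil, mul_one, MonoidHom.id_apply] at hx ⊢
    rw [hx, map_one]
  · refine absurd hx (hy' w l hl h1 (by linarith) fun z hz => ?_)
    have := List.single_le_sum (l := l.map fun z => H.L z.2) (fun a ha => by
      obtain ⟨z, -, rfl⟩ := List.mem_map.1 ha
      exact H.L_nonneg _) _ (List.mem_map_of_mem hz)
    linarith [H.L_nonneg w]

open Classical in
/-- Specialising one letter to a constant. -/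
noncomputable def spec (j : ι) (g : Γ) (hg : ∀ f ∈ F, Commute f g) : UG F ι →* UG F ι :=
  UG.lift (UG.c F ι) (fun i => if i = j then UG.c F ι g else UG.t F i) fun i f hf => by
    split_ifs
    · exact (hg f hf).map _
    · exact UG.comm hf i

open Classical in
theorem exists_cocycle (j : ι) (g : Γ) (hg : ∀ f ∈ F, Commute f g) :
    ∃ c : UG F ι → UG F ι ⧸ F.map (UG.c F ι) → ℤ,
      (∀ x y q, c (x * y) q = c x q + c y ((spec j g hg x)⁻¹ • q)) ∧
      ∀ q, c (UG.t F j * (UG.c F ι g)⁻¹) q = if q = QuotientGroup.mk (1 : UG F ι) then 1 else 0 := by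
  set Q := UG F ι ⧸ F.map (UG.c F ι) with hQ
  set q₀ : Q := QuotientGroup.mk (1 : UG F ι) with hq₀
  set φ : UG F ι →* MulAut (Q → Multiplicative ℤ) := mulAutArrow with hφ
  have hφ' : ∀ x n q, φ x n q = n (x⁻¹ • q) := fun _ _ _ => rfl
  set e : Q → Multiplicative ℤ := fun q => Multiplicative.ofAdd (if q = q₀ then 1 else 0) with he
  have hfix : ∀ f ∈ F, UG.c F ι f • q₀ = q₀ := fun f hf => by
    rw [hq₀, MulAction.Quotient.smul_coe, QuotientGroup.eq]
    exact ⟨f⁻¹, F.inv_mem hf, by simp⟩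
  let Ψ : UG F ι →* (Q → Multiplicative ℤ) ⋊[φ] UG F ι :=
    UG.lift (SemidirectProduct.inr.comp (UG.c F ι))
      (fun i => if i = j then ⟨e, UG.c F ι g⟩ else SemidirectProduct.inr (UG.t F i))
      fun i f hf => by
        split_ifs
        · change _ * _ = _ * _
          refine SemidirectProduct.ext ?_ ((hg f hf).map (UG.c F ι)).eq
          funext q
          simp only [MonoidHom.comp_apply, SemidirectProduct.mul_left, SemidirectProduct.left_inr,
            SemidirectProduct.right_inr, one_mul, map_one, mul_one, hφ', he, inv_smul_eq_iff,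
            hfix f hf]
        · exact (UG.comm hf i).map SemidirectProduct.inr
  have hΨ : SemidirectProduct.rightHom.comp Ψ = spec j g hg := by
    refine UG.hom_ext (fun γ => rfl) fun i => ?_
    simp only [MonoidHom.comp_apply, Ψ, spec, UG.lift_t]
    split_ifs <;> rfl
  refine ⟨fun x q => ((Ψ x).left q).toAdd, fun x y q => ?_, fun q => ?_⟩
  · beta_reduce
    rw [map_mul, SemidirectProduct.mul_left, Pi.mul_apply, toAdd_mul, hφ', ← hΨ]; rfl
  · have h1 : Ψ (UG.t F j) = ⟨e, UG.c F ι g⟩ := by simp [Ψ]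
    have h2 : Ψ (UG.c F ι g)⁻¹ = SemidirectProduct.inr (UG.c F ι g)⁻¹ := by
      rw [map_inv, map_inv]; rfl
    simp only [map_mul, h1, h2, SemidirectProduct.mul_left, SemidirectProduct.left_inr, map_one,
      mul_one, he, toAdd_ofAdd]

end Pool.Agent.P.MP_94de62_al
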