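import Pool.Agent.P.MP_94de62_al.Free
import Pool.Agent.P.MP_94de62_al.Ord

/-!
The upper bound: induction on the dimension of Zariski closed sets of tuples.
-/

namespace Pool.Agent.P.MP_94de62_al

open Ordinal

theorem exists_good_n {N : ℕ} (hN : 0 < N) (K : ℕ) (E : ℝ) {ε : ℝ} (hε : 0 < ε) :
    ∃ n : ℕ, 0 < n ∧
      ∀ h : ℝ, n * E - Real.log (4 * N * (n + K + 1)) ≤ (n + K) * h → E - ε < h := by
  have hN' : (0 : ℝ) < N := by exact_mod_cast hN
  set c : ℝ := 8 * N / ε with hc
  have hcpos : 0 < c := by positivity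
  obtain ⟨n, hn⟩ := exists_nat_gt (max 0 (2 * ((K + 1) * ε / 2 + Real.log c + K * E) / ε))
  have hn0 : (0 : ℝ) < n := lt_of_le_of_lt (le_max_left _ _) hn
  have hn1 := lt_of_le_of_lt (le_max_right _ _) hn
  rw [div_lt_iff₀ hε] at hn1
  refine ⟨n, by exact_mod_cast hn0, fun h hh => ?_⟩
  have hK : (0 : ℝ) ≤ K := Nat.cast_nonneg _
  have h1 : Real.log (4 * N * (n + K + 1)) ≤ (n + K + 1) * ε / 2 + Real.log c := by
    have e : (4 * N * (n + K + 1) : ℝ) = ((n + K + 1) * ε / 2) * c := by
      rw [hc]; field_simp; ring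
    rw [e, Real.log_mul (by positivity) hcpos.ne']
    linarith [Real.log_le_sub_one_of_pos (show (0 : ℝ) < (n + K + 1) * ε / 2 by positivity)]
  by_contra hcon
  push Not at hcon
  have : (n + K) * h ≤ (n + K) * (E - ε) := by gcongr
  nlinarith

theorem ncard_image_le_of_imp {α β γ : Type*} {W : Set α} (hW : W.Finite) (f : α → β) (g : α → γ)
    (h : ∀ u ∈ W, ∀ v ∈ W, f u = f v → g u = g v) : (g '' W).ncard ≤ (f '' W).ncard := by
  rcases W.eq_empty_or_nonempty with rfl | ⟨w, _⟩
  · simp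
  have : Nonempty α := ⟨w⟩
  have e : g '' W = (g ∘ Function.invFunOn f W) '' (f '' W) := by
    rw [Set.image_image]
    refine Set.image_congr fun u hu => ?_
    exact h u hu _ (Function.invFunOn_apply_mem hu) (Function.invFunOn_apply_eq hu).symm
  rw [e]
  exact Set.ncard_image_le (hW.image _)

theorem ball_range {G ι : Type*} [Group G] (s : ι → G) (n : ℕ) :
    ball (Set.range s) n = (fun l : List ι => (l.map s).prod) '' {l | l.length ≤ n} := by
  ext g
  constructor
  · rintro ⟨l, h1, h2, rfl⟩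
    lift l to List (Set.range s) using h2
    refine ⟨l.map fun x => x.2.choose, by simpa using h1, ?_⟩
    simp only [List.map_map]
    congr 1
    exact List.map_congr_left fun x _ => x.2.choose_spec
  · rintro ⟨l, h1, rfl⟩
    refine ⟨l.map s, by simpa using h1, fun a ha => ?_, rfl⟩
    obtain ⟨i, -, rfl⟩ := List.mem_map.1 ha
    exact ⟨i, rfl⟩

theorem ent_le_log {G : Type*} [Group G] {S : Set G} (hS : S.Finite) :
    ent S ≤ Real.log (S.ncard + 1) := by
  have h1 := mul_ent_le hS 1
  rw [Nat.cast_one, one_mul] at h1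
  refine h1.trans (Real.log_le_log (by linarith [one_le_bn hS 1]) ?_)
  exact_mod_cast (Set.ncard_le_ncard (ball_one S) (hS.insert 1)).trans (Set.ncard_insert_le _ _)

section

variable {Γ : Type*} [Group Γ] {K : Type*} [Field K] {d : Type*} [Fintype d] [DecidableEq d]
  (ρ : Γ →* Matrix d d K) {ι : Type*}

/-- Evaluation of polynomials at the matrix entries of a tuple. -/
noncomputable def evT (s : ι → Γ) : MvPolynomial (ι × d × d) K →+* K :=
  MvPolynomial.eval fun x => ρ (s x.1) x.2.1 x.2.2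

/-- The point of the prime spectrum given by a tuple. -/
noncomputable def ptT (s : ι → Γ) : PrimeSpectrum (MvPolynomial (ι × d × d) K) :=
  ⟨RingHom.ker (evT ρ s), RingHom.ker_isPrime _⟩

/-- The product of generic matrices along a word. -/
noncomputable def genW (K : Type*) [Field K] (d : Type*) [Fintype d] [DecidableEq d]
    (l : List ι) : Matrix d d (MvPolynomial (ι × d × d) K) :=
  (l.map fun i => Matrix.of fun a b => MvPolynomial.X (i, a, b)).prod

theorem evT_genW (s : ι → Γ) (l : List ι) (a b : d) :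
    evT ρ s (genW K d l a b) = ρ (l.map s).prod a b := by
  have : (evT ρ s).mapMatrix (genW K d l) = ρ (l.map s).prod := by
    unfold genW
    rw [map_list_prod, map_list_prod, List.map_map, List.map_map]
    congr 1
    refine List.map_congr_left fun i _ => ?_
    ext a b
    simp [evT]
  rw [← this]; rfl

theorem thin_of_coheight [Finite ι] (hρ : Function.Injective ρ) {N : ℕ} (hN : 0 < N) (K₀ : ℕ) :
    ∀ (e : ℕ) (P : PrimeSpectrum (MvPolynomial (ι × d × d) K)), Order.coheight P < e →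
      Thin e {x | ∃ s : ι → Γ, P ≤ ptT ρ s ∧ GoodSet N K₀ (Set.range s) ∧ ent (Set.range s) = x}
  | 0, P, h => by simp at h
  | e + 1, P, h => by
    set B := {x | ∃ s : ι → Γ, P ≤ ptT ρ s ∧ GoodSet N K₀ (Set.range s) ∧ ent (Set.range s) = x}
      with hB
    rcases B.eq_empty_or_nonempty with h0 | hne
    · rw [h0]; exact thin_empty _
    have hbdd : BddAbove B := by
      refine ⟨Real.log (Nat.card ι + 1), ?_⟩
      rintro _ ⟨s, -, -, rfl⟩
      refine (ent_le_log (Set.finite_range s)).trans (Real.log_le_log (by positivity) ?_)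
      have : (Set.range s).ncard ≤ Nat.card ι := by
        rw [← Set.image_univ, ← Set.ncard_univ]; exact Set.ncard_image_le
      exact_mod_cast Nat.succ_le_succ this
    refine ⟨{sSup B}, fun ε hε => ?_⟩
    obtain ⟨n, hn0, hn⟩ := exists_good_n hN K₀ (sSup B) hε
    have hW := List.finite_length_le ι n
    set I : Set (PrimeSpectrum (MvPolynomial (ι × d × d) K)) :=
      {Q | ∃ x ∈ {l : List ι | l.length ≤ n} ×ˢ {l : List ι | l.length ≤ n} ×ˢ
        (Set.univ : Set (d × d)), genW K d x.1 x.2.2.1 x.2.2.2 - genW K d x.2.1 x.2.2.1 x.2.2.2 ∉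
          P.asIdeal ∧ Q.asIdeal ∈ (P.asIdeal ⊔ Ideal.span {genW K d x.1 x.2.2.1 x.2.2.2 -
            genW K d x.2.1 x.2.2.1 x.2.2.2}).minimalPrimes} with hI
    have hIfin : I.Finite := by
      refine ((hW.prod (hW.prod (Set.finite_univ (α := d × d)))).biUnion fun x _ =>
        (Ideal.finite_minimalPrimes_of_isNoetherianRing _ (P.asIdeal ⊔ Ideal.span
          {genW K d x.1 x.2.2.1 x.2.2.2 - genW K d x.2.1 x.2.2.1 x.2.2.2})).preimage
          (f := PrimeSpectrum.asIdeal) fun a _ b _ h => PrimeSpectrum.ext h).subset ?_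
      rintro Q ⟨x, hx, -, h2⟩
      exact Set.mem_biUnion hx h2
    refine (thin_biUnion hIfin fun Q hQ => thin_of_coheight hρ hN K₀ e Q ?_).mono ?_
    · obtain ⟨x, -, h1, h2⟩ := hQ
      have hlt : P < Q := by
        refine lt_of_le_of_ne (le_sup_left.trans h2.1.2) ?_
        rintro rfl
        exact h1 (h2.1.2 (Ideal.mem_sup_right (Ideal.mem_span_singleton_self _)))
      have h3 := Order.coheight_add_one_le hlt
      have h4 : Order.coheight Q + 1 < (e : ℕ∞) + 1 := by
        refine h3.trans_lt ?_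
        exact_mod_cast h
      exact lt_of_add_lt_add_right h4
    · rintro _ ⟨⟨s, hs1, hs2, rfl⟩, hx⟩
      have hle : ent (Set.range s) ≤ sSup B := le_csSup hbdd ⟨s, hs1, hs2, rfl⟩
      have hx' : ent (Set.range s) ≤ sSup B - ε := by
        by_contra hc
        exact hx _ (Finset.mem_singleton_self _) ⟨not_le.1 hc, hle⟩
      by_cases hgen : ∀ u ∈ {l : List ι | l.length ≤ n}, ∀ v ∈ {l : List ι | l.length ≤ n},
          (u.map s).prod = (v.map s).prod → ∀ a b, genW K d u a b - genW K d v a b ∈ P.asIdeal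
      · exfalso
        have h1 : sSup B ≤ Real.log (bn (Set.range s) n) / n := by
          refine csSup_le hne ?_
          rintro _ ⟨s', hs1', -, rfl⟩
          rw [le_div_iff₀ (by exact_mod_cast hn0), mul_comm]
          refine (mul_ent_le (Set.finite_range s') n).trans (Real.log_le_log
            (by linarith [one_le_bn (Set.finite_range s') n]) ?_)
          unfold bn
          rw [ball_range, ball_range]
          refine Nat.cast_le.2 (ncard_image_le_of_imp hW _ _ fun u hu v hv huv => hρ ?_)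
          ext a b
          have := hs1' (hgen u hu v hv huv a b)
          change evT ρ s' _ = 0 at this
          rwa [map_sub, evT_genW, evT_genW, sub_eq_zero] at this
        rw [le_div_iff₀ (by exact_mod_cast hn0)] at h1
        have := hn (ent (Set.range s)) (by linarith [hs2 n])
        linarith
      · push Not at hgen
        obtain ⟨u, hu, v, hv, huv, a, b, hab⟩ := hgen
        have hsub : P.asIdeal ⊔ Ideal.span {genW K d u a b - genW K d v a b} ≤
            (ptT ρ s).asIdeal := by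
          refine sup_le hs1 ((Ideal.span_singleton_le_iff_mem _).2 ?_)
          change evT ρ s _ = 0
          rw [map_sub, evT_genW, evT_genW, huv]
          exact sub_self _
        obtain ⟨Q, hQ1, hQ2⟩ := Ideal.exists_minimalPrimes_le hsub
        exact Set.mem_biUnion (x := ⟨Q, hQ1.1.1⟩) ⟨(u, v, a, b), ⟨hu, hv, trivial⟩, hab, hQ1⟩
          ⟨s, hQ2, hs2, rfl⟩

theorem thin_tuples [Finite ι] (hρ : Function.Injective ρ) {N : ℕ} (hN : 0 < N) (K₀ : ℕ) :
    ∃ e : ℕ, Thin e {x | ∃ s : ι → Γ, GoodSet N K₀ (Set.range s) ∧ ent (Set.range s) = x} := by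
  refine ⟨Nat.card (ι × d × d) + 1,
    (thin_of_coheight (ι := ι) ρ hρ hN K₀ _ ⟨⊥, Ideal.isPrime_bot⟩ ?_).mono ?_⟩
  · have h1 := Order.coheight_le_krullDim
      (⟨⊥, Ideal.isPrime_bot⟩ : PrimeSpectrum (MvPolynomial (ι × d × d) K))
    have h2 := MvPolynomial.ringKrullDim_of_isNoetherianRing (R := K) (ι := ι × d × d)
    rw [ringKrullDim_eq_zero_of_field, zero_add] at h2
    rw [show Order.krullDim (PrimeSpectrum (MvPolynomial (ι × d × d) K)) = _ from h2] at h1
    have h3 : Order.coheight (⟨⊥, Ideal.isPrime_bot⟩ : PrimeSpectrum (MvPolynomial (ι × d × d) K))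
        ≤ (Nat.card (ι × d × d) : ℕ∞) := by exact_mod_cast h1
    exact h3.trans_lt (by exact_mod_cast Nat.lt_succ_self _)
  · rintro _ ⟨s, h1, rfl⟩
    exact ⟨s, (bot_le : (⊥ : Ideal _) ≤ _), h1, rfl⟩

theorem thin_card_le (hρ : Function.Injective ρ) {N : ℕ} (hN : 0 < N) (K₀ m : ℕ) :
    ∃ e : ℕ, Thin e {x | ∃ S : Set Γ, S.Finite ∧ S.ncard ≤ m ∧ GoodSet N K₀ S ∧ ent S = x} := by
  have key : ∀ k : ℕ, ∃ e : ℕ,
      Thin e {x | ∃ S : Set Γ, S.Finite ∧ S.ncard = k ∧ GoodSet N K₀ S ∧ ent S = x} := by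
    intro k
    obtain ⟨e, he⟩ := thin_tuples ρ (ι := Fin k) hρ hN K₀
    refine ⟨e, he.mono ?_⟩
    rintro _ ⟨S, h1, h2, h3, rfl⟩
    have : Finite S := h1
    have e : Set.range (fun i : Fin k => ((Finite.equivFinOfCardEq h2).symm i : Γ)) = S := by
      rw [show (fun i : Fin k => ((Finite.equivFinOfCardEq h2).symm i : Γ)) =
        Subtype.val ∘ (Finite.equivFinOfCardEq h2).symm from rfl,
        EquivLike.range_comp, Subtype.range_coe]
    exact ⟨_, by rw [e]; exact h3, by rw [e]⟩
  choose e he using key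
  refine ⟨(Finset.range (m + 1)).sup e, (thin_biUnion (Set.finite_Iic m) fun k hk =>
    (he k).of_le (Finset.le_sup (f := e) (Finset.mem_range.2 (Nat.lt_succ_of_le hk)))).mono ?_⟩
  rintro _ ⟨S, h1, h2, h3, rfl⟩
  exact Set.mem_biUnion (x := S.ncard) h2 ⟨S, h1, rfl, h3, rfl⟩

theorem emb_ent (H : HypLen Γ) (hρ : Function.Injective ρ) :
    Emb {x | ∃ S : Set Γ, S.Finite ∧ ¬ VirtuallyCyclic (Subgroup.closure S) ∧ ent S = x}
      (ω ^ ω) := by
  refine emb_limit fun a _ => ?_
  obtain ⟨e, he⟩ := thin_card_le ρ hρ H.N_pos H.K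
    ⌈Real.exp ((1 + H.K) * a + Real.log (4 * H.N * (1 + H.K + 1)))⌉₊
  have hfin : (ent '' {S : Set Γ | S ⊆ {g | H.L g ≤ 100 * H.δ}}).Finite :=
    (H.finite_ball _).finite_subsets.image _
  obtain ⟨o, ho, hemb⟩ := ((he.of_le (Nat.le_add_right e 1)).union
    ((thin_of_finite hfin).of_le (Nat.le_add_left 1 e))).emb
  refine hemb.mono ?_ (ho.le.trans (opow_le_opow_right omega0_pos (natCast_lt_omega0 _).le))
  rintro _ ⟨⟨S, h1, h2, rfl⟩, h3⟩
  rcases H.good_or_small h1 h2 with h | ⟨y, hy⟩
  · refine Or.inl ⟨S, h1, ?_, h, rfl⟩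
    have h4 := h 1
    have h5 : S.ncard ≤ bn S 1 :=
      Set.ncard_le_ncard (fun s hs => mem_ball_one hs) (ball_finite h1 1)
    have h6 : (bn S 1 : ℝ) ≤ Real.exp ((1 + H.K) * a + Real.log (4 * H.N * (1 + H.K + 1))) := by
      rw [← Real.log_le_iff_le_exp (by linarith [one_le_bn h1 1])]
      have h3' : ent S ≤ a := h3
      have : (1 + H.K : ℝ) * ent S ≤ (1 + H.K) * a := by gcongr
      push_cast at h4
      linarith
    have : (S.ncard : ℝ) ≤ _ := le_trans (by exact_mod_cast h5) (h6.trans (Nat.le_ceil _))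
    exact_mod_cast this
  · refine Or.inr ⟨(MulAut.conj y⁻¹).toMonoidHom '' S, ?_,
      ent_congr fun n => bn_image_eq _ (MulAut.conj y⁻¹).injective.injOn⟩
    rintro _ ⟨s, hs, rfl⟩
    simpa using hy s hs

end

end Pool.Agent.P.MP_94de62_al
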